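import Pool.Agent.CIC.Count

/-!
# Carathéodory reduction relative to a wall
-/

open MvPolynomial

namespace Pool.Agent.CIC

variable {ρ r c : ℕ}

/-- More than `ρ` vectors of `ℤ ^ ρ` are linearly dependent. -/
theorem exists_relation (w : Fin r → (Fin ρ → ℤ)) (T : Finset (Fin r)) (hT : ρ < T.card) :
    ∃ a : Fin r → ℤ, (∑ i, a i • w i = 0) ∧ (∀ i, i ∉ T → a i = 0) ∧ ∃ i ∈ T, a i ≠ 0 := by
  classical
  have h1 : ¬ LinearIndependent ℤ fun i : T => w i := by
    intro h
    have h2 := h.fintype_card_le_finrank
    rw [Module.finrank_fin_fun, Fintype.card_coe] at h2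
    omega
  obtain ⟨a, ha, i, hi⟩ := Fintype.not_linearIndependent_iff.mp h1
  refine ⟨fun i => if h : i ∈ T then a ⟨i, h⟩ else 0, ?_, fun i hi => by simp [hi],
    ⟨i, i.2, by simpa using hi⟩⟩
  have e1 : ∑ i, (fun i => if h : i ∈ T then a ⟨i, h⟩ else 0) i • w i =
      ∑ i ∈ T, (fun i => if h : i ∈ T then a ⟨i, h⟩ else 0) i • w i := by
    symm
    exact Finset.sum_subset (Finset.subset_univ T) (fun i _ hi => by simp [hi])
  rw [e1, ← Finset.sum_coe_sort T, ← ha]
  refine Finset.sum_congr rfl fun i _ => ?_
  simp

/-- One step of the reduction. -/
theorem reduce_step (w : Fin r → (Fin ρ → ℤ)) (S : Set (Fin r)) (Q : Finset (Fin r))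
    (κ : Fin ρ → ℤ) (hcone : InCone w (S ∪ Q) κ) (a : Fin r → ℤ) (ha : ∑ i, a i • w i = 0)
    (haQ : ∀ i, i ∉ Q → a i ≠ 0 → i ∈ S ∧ a i ≤ 0) (hpos : ∃ k ∈ Q, 0 < a k) :
    ∃ k ∈ Q, InCone w (S ∪ (Q.erase k : Finset (Fin r))) κ := by
  classical
  obtain ⟨m, hm, n, hn, hn'⟩ := hcone
  obtain ⟨k, hk, hmin⟩ := Finset.exists_min_image (Q.filter fun k => 0 < a k)
    (fun k => (n k : ℚ) / a k) (by
      obtain ⟨k, hk, hk'⟩ := hpos
      exact ⟨k, Finset.mem_filter.mpr ⟨hk, hk'⟩⟩)
  have hkQ := (Finset.mem_filter.mp hk).1
  have hak := (Finset.mem_filter.mp hk).2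
  have hnn : ∀ i, 0 ≤ a k * n i - n k * a i := by
    intro i
    by_cases hi : 0 < a i
    · have hiQ : i ∈ Q := by
        by_contra h
        have := (haQ i h hi.ne').2
        omega
      have h1 := hmin i (Finset.mem_filter.mpr ⟨hiQ, hi⟩)
      have h2 : (0 : ℚ) < a i := by exact_mod_cast hi
      have h3 : (0 : ℚ) < a k := by exact_mod_cast hak
      rw [div_le_div_iff₀ h3 h2] at h1
      have h4 : (n k : ℤ) * a i ≤ n i * a k := by exact_mod_cast h1
      linarith
    · have h1 : (0 : ℤ) ≤ n k := by positivity
      have h2 : (0 : ℤ) ≤ n i := by positivity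
      nlinarith
  let n' : Fin r →₀ ℕ := Finsupp.equivFunOnFinite.symm fun i => (a k * n i - n k * a i).toNat
  have hn'i : ∀ i, (n' i : ℤ) = a k * n i - n k * a i := fun i => Int.toNat_of_nonneg (hnn i)
  refine ⟨k, hkQ, (a k).toNat * m, Nat.mul_pos (by omega) hm, n', ?_, ?_⟩
  · rw [weight_eq]
    have e1 : ∑ i, n' i • w i = ∑ i, (a k * n i - n k * a i) • w i :=
      Finset.sum_congr rfl fun i _ => by rw [← hn'i, natCast_zsmul]
    have e2 : ∑ i, (n i : ℤ) • w i = (m : ℤ) • κ := by
      rw [natCast_zsmul, ← hn, weight_eq]
      exact Finset.sum_congr rfl fun i _ => natCast_zsmul _ _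
    rw [e1]
    simp only [sub_smul, mul_smul, Finset.sum_sub_distrib]
    rw [← Finset.smul_sum, ← Finset.smul_sum, ha, smul_zero, sub_zero, e2, ← mul_smul]
    have e3 : a k * (m : ℤ) = (((a k).toNat * m : ℕ) : ℤ) := by
      push_cast
      rw [Int.toNat_of_nonneg hak.le]
    rw [e3, natCast_zsmul]
    exact mul_smul _ _ _
  · intro i hi
    have h1 : a k * n i - n k * a i ≠ 0 := by
      rw [← hn'i]
      exact_mod_cast hi
    have hik : i ≠ k := by
      rintro rfl
      apply h1
      ring
    rw [Set.mem_union]
    by_cases hiS : i ∈ S
    · exact Or.inl hiS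
    · right
      rw [Finset.mem_coe, Finset.mem_erase]
      refine ⟨hik, ?_⟩
      by_contra hiQ
      have h2 : n i = 0 := by
        by_contra h
        rcases hn' i h with h3 | h3
        · exact hiS h3
        · exact hiQ h3
      have h3 : a i = 0 := by
        by_contra h
        exact hiS (haQ i hiQ h).1
      apply h1
      rw [h2, h3]
      simp

/-- **Carathéodory.** If `κ` is in the cone of `S` and `Q`, where `L = 0` on `S` and `L = 1` on
`Q`, then at most `ρ` elements of `Q` (at most `ρ - 1` if `S` is not empty), with different
degrees, are needed. -/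
theorem reduce (w : Fin r → (Fin ρ → ℤ)) (L : (Fin ρ → ℤ) →+ ℤ)
    (hpointed : ∃ h : (Fin ρ → ℤ) →+ ℤ, ∀ i, 0 < h (w i)) (S : Set (Fin r))
    (hS : ∀ i ∈ S, L (w i) = 0) (b : ℕ) (hb : ρ ≤ b ∨ (S.Nonempty ∧ ρ ≤ b + 1))
    (κ : Fin ρ → ℤ) (N : ℕ) : ∀ Q : Finset (Fin r), Q.card = N → (∀ k ∈ Q, L (w k) = 1) →
      InCone w (S ∪ Q) κ → ∃ Q' ⊆ Q, Q'.card ≤ b ∧ Q'.card ≤ (Q.image w).card ∧
        InCone w (S ∪ Q') κ := by
  classical
  induction N with
  | zero =>
    intro Q hQ _ hcone
    exact ⟨Q, subset_rfl, by omega, by omega, hcone⟩
  | succ N ih =>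
    intro Q hQ hL hcone
    by_cases hdone : Q.card ≤ b ∧ Q.card ≤ (Q.image w).card
    · exact ⟨Q, subset_rfl, hdone.1, hdone.2, hcone⟩
    · have hstep : ∃ k ∈ Q, InCone w (S ∪ (Q.erase k : Finset (Fin r))) κ := by
        by_cases himg : Q.card ≤ (Q.image w).card
        · have hbQ : b < Q.card := by
            by_contra h
            exact hdone ⟨by omega, himg⟩
          obtain ⟨a, ha, haT, hne, hneg⟩ : ∃ a : Fin r → ℤ, (∑ i, a i • w i = 0) ∧
              (∀ i, i ∉ Q → a i ≠ 0 → i ∈ S ∧ a i ≤ 0) ∧ (∃ k ∈ Q, a k ≠ 0) ∧ True := by
            rcases hb with hb | ⟨⟨i₀, hi₀⟩, hb⟩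
            · obtain ⟨a, ha, ha', ha''⟩ := exists_relation w Q (by omega)
              exact ⟨a, ha, fun i hi h => absurd (ha' i hi) h, ha'', trivial⟩
            · have hi₀Q : i₀ ∉ Q := fun h => by
                have h1 := hL i₀ h
                rw [hS i₀ hi₀] at h1
                exact absurd h1 (by norm_num)
              obtain ⟨a, ha, ha', i, hi, hai⟩ := exists_relation w (insert i₀ Q) (by
                rw [Finset.card_insert_of_notMem hi₀Q]
                omega)
              have hk : ∃ k ∈ Q, a k ≠ 0 := by
                by_contra hcon
                push Not at hcon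
                have hai₀ : a i₀ ≠ 0 := by
                  rcases Finset.mem_insert.mp hi with h | h
                  · rwa [h] at hai
                  · exact absurd (hcon i h) hai
                have h1 : a i₀ • w i₀ = 0 := by
                  rw [← ha]
                  symm
                  apply Finset.sum_eq_single i₀
                  · intro j _ hj
                    have : a j = 0 := by
                      by_cases hjQ : j ∈ Q
                      · exact hcon j hjQ
                      · exact ha' j (by
                          rw [Finset.mem_insert]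
                          push Not
                          exact ⟨hj, hjQ⟩)
                    rw [this, zero_smul]
                  · intro h
                    exact absurd (Finset.mem_univ _) h
                obtain ⟨h, hh⟩ := hpointed
                have h2 := congrArg h h1
                rw [map_zsmul, map_zero, smul_eq_mul] at h2
                have h3 := hh i₀
                rcases mul_eq_zero.mp h2 with h4 | h4
                · exact hai₀ h4
                · omega
              rcases le_or_gt (a i₀) 0 with h0 | h0
              · refine ⟨a, ha, fun i hi h => ?_, hk, trivial⟩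
                have h1 : i = i₀ := by
                  by_contra hne
                  exact h (ha' i (by
                    rw [Finset.mem_insert]
                    push Not
                    exact ⟨hne, hi⟩))
                rw [h1]
                exact ⟨hi₀, h0⟩
              · refine ⟨fun i => - a i, ?_, fun i hi h => ?_, ?_, trivial⟩
                · simp only [neg_smul, Finset.sum_neg_distrib, ha, neg_zero]
                · have h1 : i = i₀ := by
                    by_contra hne
                    apply h
                    show - a i = 0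
                    rw [ha' i (by
                      rw [Finset.mem_insert]
                      push Not
                      exact ⟨hne, hi⟩), neg_zero]
                  rw [h1]
                  exact ⟨hi₀, by show - a i₀ ≤ 0; omega⟩
                · obtain ⟨k, hk, hk'⟩ := hk
                  exact ⟨k, hk, neg_ne_zero.mpr hk'⟩
          refine reduce_step w S Q κ hcone a ha haT ?_
          -- the sum of the coefficients is zero
          by_contra hcon
          push Not at hcon
          have h1 := congrArg L ha
          rw [map_sum, map_zero] at h1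
          have h2 : ∑ i, L (a i • w i) = ∑ k ∈ Q, a k := by
            symm
            have h3 : ∑ k ∈ Q, a k = ∑ k ∈ Q, L (a k • w k) :=
              Finset.sum_congr rfl fun k hk => by
                rw [map_zsmul, hL k hk, smul_eq_mul, mul_one]
            rw [h3]
            apply Finset.sum_subset (Finset.subset_univ Q)
            intro i _ hi
            by_cases h : a i = 0
            · rw [h, zero_smul, map_zero]
            · rw [map_zsmul, hS i (haT i hi h).1, smul_zero]
          rw [h2] at h1
          obtain ⟨k, hk, hk'⟩ := hne
          have h3 : 0 < ∑ k ∈ Q, - a k := Finset.sum_pos' (fun i hi => by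
            have := hcon i hi
            omega) ⟨k, hk, by
              have := hcon k hk
              omega⟩
          rw [Finset.sum_neg_distrib, h1, neg_zero] at h3
          exact lt_irrefl _ h3
        · -- two elements with the same degree
          obtain ⟨k, hk, k', hk', hne, hww⟩ : ∃ k ∈ Q, ∃ k' ∈ Q, k ≠ k' ∧ w k = w k' := by
            by_contra hcon
            push Not at hcon
            apply himg
            rw [Finset.card_image_of_injOn]
            intro x hx y hy hxy
            by_contra h
            exact hcon x hx y hy h hxy
          refine reduce_step w S Q κ hcone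
            (fun i => if i = k then 1 else if i = k' then -1 else 0) ?_ ?_ ?_
          · have e : ∀ i, (if i = k then (1 : ℤ) else if i = k' then -1 else 0) • w i =
                (if i = k then w k else 0) - (if i = k' then w k' else 0) := by
              intro i
              by_cases h1 : i = k
              · subst h1
                simp [hne]
              · by_cases h2 : i = k'
                · subst h2
                  simp [h1]
                · simp [h1, h2]
            simp only [e, Finset.sum_sub_distrib, Finset.sum_ite_eq', Finset.mem_univ, if_true]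
            rw [hww, sub_self]
          · intro i hi h
            exfalso
            apply h
            have h1 : i ≠ k := fun h => hi (h ▸ hk)
            have h2 : i ≠ k' := fun h => hi (h ▸ hk')
            simp [h1, h2]
          · exact ⟨k, hk, by simp⟩
      obtain ⟨k, hk, hk'⟩ := hstep
      obtain ⟨Q', hQ', h1, h2, h3⟩ := ih (Q.erase k) (by
        rw [Finset.card_erase_of_mem hk]
        omega) (fun i hi => hL i (Finset.mem_of_mem_erase hi)) hk'
      refine ⟨Q', hQ'.trans (Finset.erase_subset _ _), h1, h2.trans ?_, h3⟩
      exact Finset.card_le_card (Finset.image_subset_image (Finset.erase_subset _ _))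

end Pool.Agent.CIC
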