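import Pool.Agent.FAC.Alpha
import Pool.Agent.CIC.Cone

/-!
# The alpha invariant of a smooth Fano variety with complete intersection Cox ring
-/

open scoped ENNReal NNReal
open MvPolynomial

namespace Pool.Agent.CIC

/-- A section which vanishes to order `a` along a prime divisor meeting `U` bounds the
threshold. -/
theorem lct_mul_le {R : Type*} [CommRing R] [IsDomain R] [IsNoetherianRing R]
    [IsIntegrallyClosed R] (J : Ideal R) {F x : R} (hF : F ≠ 0) (m a : ℕ) (P : Ideal R)
    [P.IsPrime] (hxP : x ∈ P) (hxF : x ^ a ∣ F) (ha : 0 < a) (h1 : P.height ≤ 1)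
    (hJ : ¬ J ≤ P) (t : ℝ≥0) (ht : FAC.IsLC J m F t) : (t : ℝ) * a ≤ m := by
  have hx0 : x ≠ 0 := by
    rintro rfl
    rw [zero_pow ha.ne', zero_dvd_iff] at hxF
    exact hF hxF
  have h0 : P ≠ ⊥ := by
    rintro rfl
    exact hx0 (by simpa using hxP)
  have hV : IsDiscreteValuationRing (FAI.locAt P) := FAI.locAt_dvr P h0 h1
  have hE : Algebra.EssFiniteType R (FAI.locAt P) :=
    Algebra.EssFiniteType.of_isLocalization (FAI.locAt P) P.primeCompl
  have hcm : (IsLocalRing.maximalIdeal (FAI.locAt P)).comap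
      (algebraMap R (FAI.locAt P)) = P :=
    IsLocalization.AtPrime.under_maximalIdeal (FAI.locAt P) P
  have key := ht (FAI.locAt P) (by rw [hcm]; exact hJ)
  rw [FAI.logDisc_locAt] at key
  have hval1 : (1 : ℕ∞) ≤ IsDiscreteValuationRing.addVal (FAI.locAt P)
      (algebraMap R (FAI.locAt P) x) := by
    rw [Order.one_le_iff_ne_zero]
    intro hz
    have hu := IsDiscreteValuationRing.addVal_eq_zero_iff.mp hz
    have : x ∈ (IsLocalRing.maximalIdeal (FAI.locAt P)).comap
        (algebraMap R (FAI.locAt P)) := by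
      rw [hcm]; exact hxP
    exact (IsLocalRing.mem_maximalIdeal _).mp (Ideal.mem_comap.mp this) hu
  have hval : (a : ℕ∞) ≤ IsDiscreteValuationRing.addVal (FAI.locAt P)
      (algebraMap R (FAI.locAt P) F) := by
    obtain ⟨G, rfl⟩ := hxF
    rw [map_mul, map_pow, IsDiscreteValuationRing.addVal_mul,
      IsDiscreteValuationRing.addVal_pow]
    calc (a : ℕ∞) = a • (1 : ℕ∞) := by rw [nsmul_eq_mul, mul_one]
      _ ≤ a • IsDiscreteValuationRing.addVal (FAI.locAt P)
          (algebraMap R (FAI.locAt P) x) := nsmul_le_nsmul_right hval1 a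
      _ ≤ _ := le_self_add
  have h2 : (t : ℝ≥0∞) * a ≤ m := by
    calc (t : ℝ≥0∞) * a = t * ((a : ℕ∞) : ℝ≥0∞) := by simp
      _ ≤ t * (IsDiscreteValuationRing.addVal (FAI.locAt P)
        (algebraMap R (FAI.locAt P) F) : ℝ≥0∞) := by gcongr
      _ ≤ _ := key
      _ = m := by simp
  have h3 : t * a ≤ m := by exact_mod_cast h2
  exact_mod_cast h3

variable {ρ r c : ℕ} {w : Fin r → (Fin ρ → ℤ)} {μ : Fin c → (Fin ρ → ℤ)}
  {g : Fin c → MvPolynomial (Fin r) ℂ} {L : (Fin ρ → ℤ) →+ ℤ} {y : Fin r → ℂ}

/-- The origin is a zero. -/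
theorem isZero_zero (hX : IsFanoCompleteIntersection w μ g) : IsZero g 0 := by
  obtain ⟨z, hz, hz'⟩ := hX.nonempty
  intro j
  -- the constant term of `g j` is zero
  apply eval_eq_zero
  intro n hn
  by_contra hcon
  push Not at hcon
  have h0 : n = 0 := by
    ext i
    by_contra h
    exact hcon i h rfl
  rw [h0] at hn
  have h1 : μ j = 0 := by
    have : Finsupp.weight w (0 : Fin r →₀ ℕ) = μ j := hX.homogeneous j (mem_support_iff.mp hn)
    rw [← this, map_zero]
  -- all monomials of `g j` are constant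
  obtain ⟨h, hh⟩ := hX.pointed
  have h2 : ∀ n' ∈ (g j).support, n' = 0 := by
    intro n' hn'
    have h3 : Finsupp.weight w n' = μ j := hX.homogeneous j (mem_support_iff.mp hn')
    rw [h1] at h3
    have h4 := congrArg h h3
    rw [L_weight, map_zero] at h4
    ext i
    have h5 := (Finset.sum_eq_zero_iff_of_nonneg (fun i _ => by
      have := hh i
      positivity)).mp h4 i (Finset.mem_univ i)
    have h6 := hh i
    rcases mul_eq_zero.mp h5 with h7 | h7
    · exact_mod_cast h7
    · omega
  have h3 : g j = C (coeff 0 (g j)) := by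
    ext n'
    rw [coeff_C]
    split_ifs with h4
    · rw [h4]
    · by_contra h5
      exact h4 (h2 n' (mem_support_iff.mpr h5)).symm
  have h4 := hz j
  rw [h3, eval_C] at h4
  exact (mem_support_iff.mp hn) h4

/-- The class of a variable is not a unit. -/
theorem not_isUnit_var (hX : IsFanoCompleteIntersection w μ g) (i : Fin r) :
    ¬ IsUnit (Ideal.Quotient.mk (relations g) (X i)) := by
  intro h
  let φ : CoxRing g →+* ℂ := Ideal.Quotient.lift (relations g) (eval (0 : Fin r → ℂ)) (by
    intro a ha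
    have h1 : relations g ≤ RingHom.ker (eval (0 : Fin r → ℂ)) := by
      rw [relations, Ideal.span_le]
      rintro _ ⟨j, rfl⟩
      exact isZero_zero hX j
    exact h1 ha)
  have h1 := h.map φ
  have h2 : φ (Ideal.Quotient.mk (relations g) (X i)) = 0 := by
    show Ideal.Quotient.lift (relations g) (eval (0 : Fin r → ℂ)) _ _ = 0
    rw [Ideal.Quotient.lift_mk, eval_X]
    rfl
  rw [h2] at h1
  exact not_isUnit_zero h1

/-- **The bound.** If `κ` is in the cone of `y` and of a set `Q` of variables of degree one on the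
ray, then `α(X) ≤ #Q / L(κ)`. -/
theorem alpha_le (hX : IsFanoCompleteIntersection w μ g) (hW : IsRay w μ g L y)
    [hp : (relations g).IsPrime] (Q : Finset (Fin r)) (hQ : ∀ k ∈ Q, L (w k) = 1)
    (hcone : InCone w ({i | y i ≠ 0} ∪ Q) (anticanonical w μ)) :
    alpha w (anticanonical w μ) g ≤ (Q.card : ℝ≥0∞) / ((L (anticanonical w μ)).toNat : ℝ≥0∞) := by
  classical
  obtain ⟨m, hm, n, hn, hn'⟩ := hcone
  set l : ℕ := (L (anticanonical w μ)).toNat with hl
  have hlpos := L_kappa_pos hX hW
  have hlL : (l : ℤ) = L (anticanonical w μ) := Int.toNat_of_nonneg hlpos.le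
  have hl0 : 0 < l := by omega
  -- the sum of the exponents of the variables in `Q`
  have hsum : ∑ k ∈ Q, n k = m * l := by
    have h1 := congrArg L hn
    rw [L_weight, map_nsmul, nsmul_eq_mul, ← hlL] at h1
    have h2 : ∑ i, (n i : ℤ) * L (w i) = ∑ k ∈ Q, (n k : ℤ) := by
      symm
      have h3 : ∑ k ∈ Q, (n k : ℤ) = ∑ k ∈ Q, (n k : ℤ) * L (w k) :=
        Finset.sum_congr rfl fun k hk => by rw [hQ k hk, mul_one]
      rw [h3]
      apply Finset.sum_subset (Finset.subset_univ Q)
      intro i _ hi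
      by_cases h : n i = 0
      · rw [h]; simp
      · rcases hn' i h with h4 | h4
        · rw [hW.supp i h4, mul_zero]
        · exact absurd h4 hi
    rw [h2] at h1
    exact_mod_cast h1
  obtain ⟨k, hk, hkn⟩ : ∃ k ∈ Q, m * l ≤ Q.card * n k := by
    by_contra hcon
    push Not at hcon
    have hne : Q.Nonempty := by
      rw [Finset.nonempty_iff_ne_empty]
      rintro rfl
      rw [Finset.sum_empty] at hsum
      have := Nat.mul_pos hm hl0
      omega
    have h1 : ∑ k ∈ Q, Q.card * n k < ∑ k ∈ Q, m * l := Finset.sum_lt_sum_of_nonempty hne hcon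
    rw [← Finset.mul_sum, hsum, Finset.sum_const, smul_eq_mul] at h1
    exact lt_irrefl _ h1
  have hnk : 0 < n k := by
    rcases Nat.eq_zero_or_pos (n k) with h | h
    · rw [h, mul_zero] at hkn
      have := Nat.mul_pos hm hl0
      omega
    · exact h
  have hprod : (monomial n (1 : ℂ)) = ∏ i, X i ^ n i := by
    rw [monomial_eq, C_1, one_mul, Finsupp.prod_fintype _ _ (fun i => pow_zero _)]
  have hne : Ideal.Quotient.mk (relations g) (monomial n 1) ≠ 0 := by
    rw [Ne, Ideal.Quotient.eq_zero_iff_mem, hprod]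
    intro h
    obtain ⟨i, -, hi⟩ := (hp.prod_mem_iff).mp h
    exact hX.var_ne i (hp.mem_of_pow_mem _ hi)
  have hnor := hX.normal
  set x : CoxRing g := Ideal.Quotient.mk (relations g) (X k) with hx
  have htop : Ideal.span {x} ≠ ⊤ := by
    intro h
    exact not_isUnit_var hX k (Ideal.span_singleton_eq_top.mp h)
  obtain ⟨P, hP⟩ := Ideal.nonempty_minimalPrimes htop
  have hPp : P.IsPrime := hP.1.1
  have hxP : x ∈ P := hP.1.2 (Ideal.mem_span_singleton_self x)
  have hht : P.height ≤ 1 :=
    Ideal.height_le_one_of_isPrincipal_of_mem_minimalPrimes (Ideal.span {x}) P hP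
  have hdvd : x ^ n k ∣ Ideal.Quotient.mk (relations g) (monomial n 1) := by
    rw [hprod, map_prod, hx, ← map_pow]
    exact Finset.dvd_prod_of_mem (fun i => Ideal.Quotient.mk (relations g) (X i ^ n i))
      (Finset.mem_univ k)
  have hsec : Ideal.Quotient.mk (relations g) (monomial n 1) ∈
      sections w (anticanonical w μ) g m :=
    ⟨monomial n 1, isWeightedHomogeneous_monomial w n 1 hn, rfl⟩
  unfold alpha
  refine iInf_le_of_le m (iInf_le_of_le hm (iInf_le_of_le _ (iInf_le_of_le hsec
    (iInf_le_of_le hne ?_))))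
  unfold FAC.lct
  refine iSup₂_le ?_
  intro t ht
  have key := lct_mul_le _ hne m (n k) P hxP hdvd hnk hht (hX.small P hPp hht) t ht
  rw [ENNReal.le_div_iff_mul_le (Or.inl (by exact_mod_cast hl0.ne'))
    (Or.inl (ENNReal.natCast_ne_top _))]
  have h1 : (t : ℝ) * l ≤ Q.card := by
    have h2 : (m : ℝ) * l ≤ Q.card * n k := by exact_mod_cast hkn
    have h3 : (0 : ℝ) < m := by exact_mod_cast hm
    have h4 : (0 : ℝ) ≤ t := t.2
    have h5 : (m : ℝ) * (t * l) ≤ m * Q.card := by
      calc (m : ℝ) * (t * l) = t * (m * l) := by ring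
        _ ≤ t * (Q.card * n k) := by gcongr
        _ = Q.card * (t * n k) := by ring
        _ ≤ Q.card * m := by gcongr
        _ = m * Q.card := by ring
    exact le_of_mul_le_mul_left h5 h3
  have h6 : t * l ≤ Q.card := by exact_mod_cast h1
  exact_mod_cast h6

/-- **The bound, second form.** If `κ` is in the cone of `y` and of a set `Q` of variables of
degree one on the ray, then `α(X) ≤ min (#(degrees in Q), ρ - 1) / L(κ)`. -/
theorem alpha_le' (hX : IsFanoCompleteIntersection w μ g) (hW : IsRay w μ g L y)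
    [hp : (relations g).IsPrime] (Q : Finset (Fin r)) (hQ : ∀ k ∈ Q, L (w k) = 1)
    (hcone : InCone w ({i | y i ≠ 0} ∪ Q) (anticanonical w μ)) :
    alpha w (anticanonical w μ) g ≤
      (min (Q.image w).card (rankBound ρ y) : ℕ) / ((L (anticanonical w μ)).toNat : ℝ≥0∞) := by
  classical
  obtain ⟨Q', hQ', h1, h2, h3⟩ := reduce w L hX.pointed {i | y i ≠ 0}
    (fun i hi => hW.supp i hi) (rankBound ρ y) (by
      unfold rankBound
      split_ifs with h
      · exact Or.inl le_rfl
      · right
        refine ⟨?_, by omega⟩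
        by_contra hcon
        apply h
        ext i
        by_contra hi
        exact hcon ⟨i, hi⟩) (anticanonical w μ) Q.card Q rfl hQ hcone
  refine (alpha_le hX hW Q' (fun k hk => hQ k (hQ' hk)) h3).trans ?_
  gcongr
  exact le_min h2 h1

end Pool.Agent.CIC
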