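import Mathlib

/-!
# The arithmetic lemma
-/

namespace Pool.Agent.CIC

open Finset

/-- `θ h = φ h - μ h`. -/
def theta (h : ℕ) : ℤ := (Nat.totient h : ℤ) - ArithmeticFunction.moebius h

theorem theta_one : theta 1 = 0 := by
  simp [theta]

theorem theta_nonneg (h : ℕ) : 0 ≤ theta h := by
  unfold theta
  rcases Nat.eq_zero_or_pos h with rfl | hp
  · simp
  · have h1 : 1 ≤ Nat.totient h := Nat.totient_pos.mpr hp
    have h2 : |ArithmeticFunction.moebius h| ≤ 1 := ArithmeticFunction.abs_moebius_le_one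
    have h3 := (abs_le.mp h2).2
    have h4 : (1 : ℤ) ≤ Nat.totient h := by exact_mod_cast h1
    omega

theorem sum_theta (n : ℕ) :
    ∑ h ∈ n.divisors, theta h = n - if n = 1 then 1 else 0 := by
  unfold theta
  rw [Finset.sum_sub_distrib]
  congr 1
  · have := Nat.sum_totient n
    exact_mod_cast this
  · have h1 := congrArg (fun f => f n) ArithmeticFunction.coe_zeta_mul_moebius
    simp only [ArithmeticFunction.coe_zeta_mul_apply, ArithmeticFunction.one_apply] at h1
    exact_mod_cast h1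

theorem sum_theta' (n N : ℕ) (hn : 0 < n) (hN : n ≤ N) :
    ∑ h ∈ Icc 2 N, (if h ∣ n then theta h else 0) = n - if n = 1 then 1 else 0 := by
  rw [← sum_theta n, ← Finset.sum_filter]
  apply Finset.sum_subset_zero_on_sdiff
  · intro h hh
    rw [mem_filter, mem_Icc] at hh
    exact Nat.mem_divisors.mpr ⟨hh.2, hn.ne'⟩
  · intro h hh
    rw [mem_sdiff, mem_filter, mem_Icc, Nat.mem_divisors] at hh
    have h1 : 0 < h := Nat.pos_of_dvd_of_pos hh.1.1 hn
    have h2 : h ≤ n := Nat.le_of_dvd hn hh.1.1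
    have h3 : h = 1 := by
      by_contra hne
      exact hh.2 ⟨⟨by omega, by omega⟩, hh.1.1⟩
    rw [h3, theta_one]
  · intro _ _
    rfl

theorem sum_eq_theta {γ : Type*} (N : ℕ) (Q : Finset γ) (f : γ → ℕ) (h1 : ∀ k ∈ Q, 0 < f k)
    (h2 : ∀ k ∈ Q, f k ≤ N) : ∑ k ∈ Q, (f k : ℤ) =
      ∑ h ∈ Icc 2 N, theta h * (Q.filter fun k => h ∣ f k).card +
        (Q.filter fun k => f k = 1).card := by
  have e1 : ∑ h ∈ Icc 2 N, theta h * ((Q.filter fun k => h ∣ f k).card : ℤ) =
      ∑ k ∈ Q, ∑ h ∈ Icc 2 N, (if h ∣ f k then theta h else 0) := by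
    rw [Finset.sum_comm]
    refine Finset.sum_congr rfl fun h _ => ?_
    rw [Finset.card_filter, Nat.cast_sum, Finset.mul_sum]
    refine Finset.sum_congr rfl fun k _ => ?_
    split_ifs <;> simp
  rw [e1, Finset.card_filter, Nat.cast_sum, ← Finset.sum_add_distrib]
  refine Finset.sum_congr rfl fun k hk => ?_
  rw [sum_theta' _ _ (h1 k hk) (h2 k hk)]
  split_ifs <;> simp

/-- If for every `h ≥ 2` at least as many `b j` as `a k` are divisible by `h`, then
`∑ a - #{a = 1} ≤ ∑ b - #{b = 1}`. -/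
theorem arith {ι ι' : Type*} (P : Finset ι) (J : Finset ι') (a : ι → ℕ) (b : ι' → ℕ)
    (ha : ∀ k ∈ P, 0 < a k) (hb : ∀ j ∈ J, 0 < b j)
    (h : ∀ h, 2 ≤ h → (P.filter fun k => h ∣ a k).card ≤ (J.filter fun j => h ∣ b j).card) :
    ∑ k ∈ P, (a k : ℤ) + (J.filter fun j => b j = 1).card ≤
      ∑ j ∈ J, (b j : ℤ) + (P.filter fun k => a k = 1).card := by
  set N := ∑ k ∈ P, a k + ∑ j ∈ J, b j with hN
  have haN : ∀ k ∈ P, a k ≤ N := fun k hk =>
    (Finset.single_le_sum (f := a) (fun _ _ => Nat.zero_le _) hk).trans (Nat.le_add_right _ _)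
  have hbN : ∀ j ∈ J, b j ≤ N := fun j hj =>
    (Finset.single_le_sum (f := b) (fun _ _ => Nat.zero_le _) hj).trans (Nat.le_add_left _ _)
  rw [sum_eq_theta N P a ha haN, sum_eq_theta N J b hb hbN]
  have h1 : ∑ h ∈ Icc 2 N, theta h * ((P.filter fun k => h ∣ a k).card : ℤ) ≤
      ∑ h ∈ Icc 2 N, theta h * ((J.filter fun k => h ∣ b k).card : ℤ) := by
    refine Finset.sum_le_sum fun x hx => ?_
    have h2 := h x (mem_Icc.mp hx).1
    exact mul_le_mul_of_nonneg_left (by exact_mod_cast h2) (theta_nonneg x)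
  linarith

theorem theta_pos (h : ℕ) (hh : 2 ≤ h) : 1 ≤ theta h := by
  unfold theta
  rcases Nat.lt_or_ge h 3 with h3 | h3
  · have h2 : h = 2 := by omega
    subst h2
    rw [Nat.totient_two, ArithmeticFunction.moebius_apply_prime Nat.prime_two]
    norm_num
  · have h1 : 2 ≤ Nat.totient h := by
      have h4 := Nat.totient_even h3
      have h5 : 0 < Nat.totient h := Nat.totient_pos.mpr (by omega)
      obtain ⟨k, hk⟩ := h4
      omega
    have h2 : |ArithmeticFunction.moebius h| ≤ 1 := ArithmeticFunction.abs_moebius_le_one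
    have h4 := (abs_le.mp h2).2
    have h5 : (2 : ℤ) ≤ Nat.totient h := by exact_mod_cast h1
    omega

/-- The refined form: `B` is a set of exceptional `j`. -/
theorem arith' {ι ι' : Type*} [DecidableEq ι'] (P : Finset ι) (J : Finset ι') (a : ι → ℕ)
    (b : ι' → ℕ) (B : Finset ι') (ha : ∀ k ∈ P, 0 < a k) (hb : ∀ j ∈ J, 0 < b j)
    (h : ∀ h, 2 ≤ h → (P.filter fun k => h ∣ a k).card +
      (J.filter fun j => b j = h ∧ j ∉ B).card ≤ (J.filter fun j => h ∣ b j).card) :
    ∑ k ∈ P, (a k : ℤ) + J.card ≤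
      ∑ j ∈ J, (b j : ℤ) + (P.filter fun k => a k = 1).card + B.card := by
  set N := ∑ k ∈ P, a k + ∑ j ∈ J, b j with hN
  have haN : ∀ k ∈ P, a k ≤ N := fun k hk =>
    (Finset.single_le_sum (f := a) (fun _ _ => Nat.zero_le _) hk).trans (Nat.le_add_right _ _)
  have hbN : ∀ j ∈ J, b j ≤ N := fun j hj =>
    (Finset.single_le_sum (f := b) (fun _ _ => Nat.zero_le _) hj).trans (Nat.le_add_left _ _)
  rw [sum_eq_theta N P a ha haN, sum_eq_theta N J b hb hbN]
  have h1 : ∑ h ∈ Icc 2 N, theta h * ((P.filter fun k => h ∣ a k).card : ℤ) +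
      ∑ h ∈ Icc 2 N, ((J.filter fun j => b j = h ∧ j ∉ B).card : ℤ) ≤
      ∑ h ∈ Icc 2 N, theta h * ((J.filter fun k => h ∣ b k).card : ℤ) := by
    rw [← Finset.sum_add_distrib]
    refine Finset.sum_le_sum fun x hx => ?_
    have h2 := h x (mem_Icc.mp hx).1
    have h3 := theta_pos x (mem_Icc.mp hx).1
    have h4 : ((P.filter fun k => x ∣ a k).card : ℤ) +
        (J.filter fun j => b j = x ∧ j ∉ B).card ≤ (J.filter fun j => x ∣ b j).card := by
      exact_mod_cast h2
    have h5 : (0 : ℤ) ≤ (J.filter fun j => b j = x ∧ j ∉ B).card := by positivity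
    nlinarith
  have h2 : ∑ h ∈ Icc 2 N, ((J.filter fun j => b j = h ∧ j ∉ B).card : ℤ) =
      ((J.filter fun j => b j ≠ 1 ∧ j ∉ B).card : ℤ) := by
    have e1 : ∀ h, J.filter (fun j => b j = h ∧ j ∉ B) =
        (J.filter fun j => j ∉ B).filter fun j => b j = h := by
      intro h
      rw [Finset.filter_filter]
      congr 1
      ext j
      exact and_comm
    have e2 : J.filter (fun j => b j ≠ 1 ∧ j ∉ B) =
        (J.filter fun j => j ∉ B).filter fun j => b j ∈ Icc 2 N := by
      rw [Finset.filter_filter]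
      refine Finset.filter_congr fun j hj => ?_
      have h3 := hb j hj
      have h4 := hbN j hj
      rw [mem_Icc]
      constructor
      · rintro ⟨h5, h6⟩
        exact ⟨h6, by omega, h4⟩
      · rintro ⟨h5, h6, -⟩
        exact ⟨by omega, h5⟩
    simp only [e1]
    rw [e2, ← Nat.cast_sum]
    congr 1
    have e3 := Finset.card_eq_sum_card_fiberwise (f := b) (t := Icc 2 N)
      (s := (J.filter fun j => j ∉ B).filter fun j => b j ∈ Icc 2 N)
      (fun j hj => Finset.mem_coe.mpr (Finset.mem_filter.mp (Finset.mem_coe.mp hj)).2)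
    rw [e3]
    refine Finset.sum_congr rfl fun x hx => ?_
    congr 1
    ext j
    simp only [Finset.mem_filter]
    constructor
    · rintro ⟨h5, h6⟩
      exact ⟨⟨h5, h6 ▸ hx⟩, h6⟩
    · rintro ⟨⟨h5, -⟩, h6⟩
      exact ⟨h5, h6⟩
  have h3 : J.card ≤ (J.filter fun j => b j = 1).card +
      (J.filter fun j => b j ≠ 1 ∧ j ∉ B).card + B.card := by
    have h4 : J ⊆ (J.filter fun j => b j = 1) ∪ (J.filter fun j => b j ≠ 1 ∧ j ∉ B) ∪ B := by
      intro j hj
      by_cases h5 : b j = 1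
      · exact Finset.mem_union_left _ (Finset.mem_union_left _ (Finset.mem_filter.mpr ⟨hj, h5⟩))
      · by_cases h6 : j ∈ B
        · exact Finset.mem_union_right _ h6
        · exact Finset.mem_union_left _ (Finset.mem_union_right _
            (Finset.mem_filter.mpr ⟨hj, h5, h6⟩))
    have h5 := Finset.card_le_card h4
    have h6 := Finset.card_union_le ((J.filter fun j => b j = 1) ∪
      (J.filter fun j => b j ≠ 1 ∧ j ∉ B)) B
    have h7 := Finset.card_union_le (J.filter fun j => b j = 1)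
      (J.filter fun j => b j ≠ 1 ∧ j ∉ B)
    omega
  have h4 : (J.card : ℤ) ≤ (J.filter fun j => b j = 1).card +
      (J.filter fun j => b j ≠ 1 ∧ j ∉ B).card + B.card := by exact_mod_cast h3
  linarith

end Pool.Agent.CIC
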