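import Pool.Agent.CIC.CT1

set_option autoImplicit false

/-!
# A connectedness lemma for weighted homogeneous systems

`ct`: if the solutions `(u, z)` of `f(u) = 0`, `g(u, z) = 0` (`g` weighted homogeneous of positive
degree in `z`) all have `u = 0` or `z = 0`, and there is a solution `(0, z')` with `z' ≠ 0`, then
`#u + #z ≤ #f + #g + 1` if `#f < #u`.
-/

open MvPolynomial

namespace Pool.Agent.CIC

namespace CT

/-- The two consequences of the graded Nakayama lemma. -/
theorem core {O B P ι : Type} [CommRing O] [CommRing B] [IsDomain B] [Algebra O B]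
    [FaithfulSMul O B] [Fintype P] [Fintype ι] (v : P → ℕ) (G : ι → MvPolynomial P O) (d : ι → ℕ)
    (hd : ∀ j, 0 < d j) (hG : ∀ j, IsWeightedHomogeneous v (G j) (d j)) (c : O) (r : ℕ)
    (hr : ∀ k, (C c * X k) ^ (r + 1) ∈ Ideal.span (Set.range G)) (θ : MvPolynomial P O →ₐ[O] B)
    (hθ : Function.Surjective θ) (D : Subalgebra O B) (hD : ∀ j, θ (G j) ∈ D) (k₀ : P) (a : B)
    (ha : a * θ (X k₀) = 1) :
    (c ≠ 0 → Algebra.IsAlgebraic D B) ∧
      ∃ n, (algebraMap O D c) ^ n ∈ Ideal.span (Set.range fun j => (⟨θ (G j), hD j⟩ : D)) := by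
  classical
  obtain ⟨W, hW, h1, hall⟩ := nak v G d hd hG c r hr θ D hD
  have hall' : ∀ b : B, b ∈ sat D W c := fun b => by
    obtain ⟨b', rfl⟩ := hθ b
    exact hall b'
  refine ⟨?_, ?_⟩
  · intro hc
    refine ⟨fun b => ?_⟩
    obtain ⟨N, hN⟩ := unif D W hW c hall' b
    have h2 : IsIntegral D ((algebraMap O B c) ^ N * b) := by
      refine isIntegral_of_smul_mem_submodule W ?_ hW _ fun w hw => ?_
      · intro h
        rw [h, Submodule.mem_bot] at h1
        exact one_ne_zero h1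
      · rw [smul_eq_mul, mul_assoc]
        exact hN w hw
    have h3 : (algebraMap O B c) ^ N * b = ((algebraMap O D c) ^ N) • b := by
      rw [Subalgebra.smul_def, smul_eq_mul, Subalgebra.coe_pow, Subalgebra.coe_algebraMap]
    rw [h3] at h2
    have h4 : (algebraMap O D c) ^ N ∈ nonZeroDivisors D := by
      apply mem_nonZeroDivisors_of_ne_zero
      apply pow_ne_zero
      intro h
      apply hc
      have h5 : algebraMap O B c = 0 := by
        rw [← Subalgebra.coe_algebraMap D c, h]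
        rfl
      exact (FaithfulSMul.algebraMap_injective O B) (by rw [h5, map_zero])
    exact h2.isAlgebraic.of_smul h4
  · obtain ⟨h, hh⟩ := Ideal.mem_span_range_iff_exists_fun.1 (hr k₀)
    let b : ι → B := fun j => a ^ (r + 1) * θ (h j)
    have h2 : (algebraMap O B c) ^ (r + 1) = ∑ j, θ (G j) * b j := by
      have h3 := congrArg θ hh
      rw [map_sum, map_pow, map_mul, ← algebraMap_eq, AlgHom.commutes, mul_pow] at h3
      calc (algebraMap O B c) ^ (r + 1)
          = ((algebraMap O B c) ^ (r + 1) * θ (X k₀) ^ (r + 1)) * a ^ (r + 1) := by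
            rw [mul_assoc, ← mul_pow, mul_comm (θ (X k₀)), ha, one_pow, mul_one]
        _ = ∑ j, θ (G j) * b j := by
            rw [← h3, Finset.sum_mul]
            refine Finset.sum_congr rfl fun j _ => ?_
            rw [map_mul]
            ring
    choose N hN using fun j => unif D W hW c hall' (b j)
    set M := Finset.univ.sup N with hM
    have hx : ∀ w ∈ W, (((algebraMap O D c) ^ (M + (r + 1)) : D) : B) * w ∈
        Ideal.span (Set.range fun j => (⟨θ (G j), hD j⟩ : D)) • W := by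
      intro w hw
      have h3 : (((algebraMap O D c) ^ (M + (r + 1)) : D) : B) * w =
          ∑ j, (⟨θ (G j), hD j⟩ : D) •
            ((algebraMap O D c) ^ (M - N j) • ((algebraMap O B c) ^ (N j) * (b j * w))) := by
        rw [Subalgebra.coe_pow, Subalgebra.coe_algebraMap, pow_add, h2, Finset.mul_sum,
          Finset.sum_mul]
        refine Finset.sum_congr rfl fun j _ => ?_
        rw [Subalgebra.smul_def, Subalgebra.smul_def, smul_eq_mul, smul_eq_mul,
          Subalgebra.coe_pow, Subalgebra.coe_algebraMap]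
        have h4 : N j ≤ M := Finset.le_sup (f := N) (Finset.mem_univ j)
        have h5 : (algebraMap O B c) ^ M =
            (algebraMap O B c) ^ (M - N j) * (algebraMap O B c) ^ (N j) := by
          rw [← pow_add, Nat.sub_add_cancel h4]
        rw [h5]
        ring
      rw [h3]
      apply Submodule.sum_mem
      intro j _
      refine Submodule.smul_mem_smul (Ideal.subset_span ⟨j, rfl⟩) ?_
      exact W.smul_mem _ (hN j w hw)
    obtain ⟨n, hn⟩ := det_trick D W hW h1 _ _ hx
    exact ⟨(M + (r + 1)) * n, by rw [pow_mul]; exact hn⟩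

/-- Residues are constants: closure under sums. -/
theorem res_add {D : Type} [CommRing D] [Algebra ℂ D] (q : Ideal D) {x y : D}
    (hx : ∃ a : ℂ, x - algebraMap ℂ D a ∈ q) (hy : ∃ a : ℂ, y - algebraMap ℂ D a ∈ q) :
    ∃ a : ℂ, x + y - algebraMap ℂ D a ∈ q := by
  obtain ⟨a, ha⟩ := hx
  obtain ⟨b, hb⟩ := hy
  refine ⟨a + b, ?_⟩
  have : x + y - algebraMap ℂ D (a + b) = (x - algebraMap ℂ D a) + (y - algebraMap ℂ D b) := by
    rw [map_add]
    ring
  rw [this]
  exact q.add_mem ha hb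

/-- Residues are constants: closure under products. -/
theorem res_mul {D : Type} [CommRing D] [Algebra ℂ D] (q : Ideal D) {x y : D}
    (hx : ∃ a : ℂ, x - algebraMap ℂ D a ∈ q) (hy : ∃ a : ℂ, y - algebraMap ℂ D a ∈ q) :
    ∃ a : ℂ, x * y - algebraMap ℂ D a ∈ q := by
  obtain ⟨a, ha⟩ := hx
  obtain ⟨b, hb⟩ := hy
  refine ⟨a * b, ?_⟩
  have : x * y - algebraMap ℂ D (a * b) =
      y * (x - algebraMap ℂ D a) + algebraMap ℂ D a * (y - algebraMap ℂ D b) := by
    rw [map_mul]
    ring
  rw [this]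
  exact q.add_mem (q.mul_mem_left _ ha) (q.mul_mem_left _ hb)

/-- Residues are constants: generation. -/
theorem res_all {O B : Type} [CommRing O] [CommRing B] [Algebra O B] [Algebra ℂ O] [Algebra ℂ B]
    [IsScalarTower ℂ O B] (s : Set B) (D : Subalgebra O B) (hs : D = Algebra.adjoin O s)
    (q : Ideal D) (hmem : ∀ y, y ∈ s → ∀ hy : y ∈ D, (⟨y, hy⟩ : D) ∈ q)
    (hO : ∀ o : O, ∃ a : ℂ, algebraMap O D o - algebraMap ℂ D a ∈ q) (y : D) :
    ∃ a : ℂ, y - algebraMap ℂ D a ∈ q := by
  subst hs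
  obtain ⟨y, hy⟩ := y
  induction hy using Algebra.adjoin_induction with
  | mem y hy => exact ⟨0, by rw [map_zero, sub_zero]; exact hmem y hy _⟩
  | algebraMap a => exact hO a
  | add o₁ o₂ _ _ h₁ h₂ => exact res_add q h₁ h₂
  | mul o₁ o₂ _ _ h₁ h₂ => exact res_mul q h₁ h₂

/-- The dimension bound over a domain. -/
theorem gen {O P G Z : Type} [CommRing O] [IsDomain O] [Algebra ℂ O] [FaithfulSMul ℂ O]
    [Fintype P] [Fintype G] [Fintype Z] (x : Z → O) (hx : Algebra.adjoin ℂ (Set.range x) = ⊤)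
    (ε : O →ₐ[ℂ] ℂ) (v : P → ℕ) (g : G → MvPolynomial P O)
    (d : G → ℕ) (hd : ∀ j, 0 < d j) (hG : ∀ j, IsWeightedHomogeneous v (g j) (d j))
    (hr : ∀ i, ∃ r, ∀ k, (C (x i) * X k) ^ (r + 1) ∈ Ideal.span (Set.range g)) (z : P → ℂ)
    (k₀ : P) (hk₀ : z k₀ ≠ 0) (hz : ∀ j, eval₂ (ε : O →+* ℂ) z (g j) = 0) (i₀ : Z)
    (hi₀ : x i₀ ≠ 0) :
    Algebra.trdeg ℂ O + ((Fintype.card P - 1 : ℕ) : Cardinal) ≤ (Fintype.card G : Cardinal) := by
  classical
  let θ : MvPolynomial P O →ₐ[O] MvPolynomial {k : P // k ≠ k₀} O :=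
    aeval fun k => if h : k = k₀ then C (algebraMap ℂ O (z k₀)) else X ⟨k, h⟩
  have hθs : Function.Surjective θ := by
    intro b
    refine ⟨rename Subtype.val b, ?_⟩
    have h1 : θ.comp (rename Subtype.val) = AlgHom.id O (MvPolynomial {k : P // k ≠ k₀} O) := by
      apply MvPolynomial.algHom_ext
      intro k
      have h2 : ¬ (k : P) = k₀ := k.2
      simp [θ, h2]
    exact DFunLike.congr_fun h1 b
  have ha : C (algebraMap ℂ O (z k₀)⁻¹) * θ (X k₀) = 1 := by
    have h1 : θ (X k₀) = C (algebraMap ℂ O (z k₀)) := by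
      simp [θ]
    rw [h1, ← C_mul, ← map_mul, inv_mul_cancel₀ hk₀, map_one, C_1]
  let D : Subalgebra O (MvPolynomial {k : P // k ≠ k₀} O) :=
    Algebra.adjoin O (Set.range fun j => θ (g j))
  have hD : ∀ j, θ (g j) ∈ D := fun j => Algebra.subset_adjoin ⟨j, rfl⟩
  have hcore : ∀ i, (x i ≠ 0 → Algebra.IsAlgebraic D (MvPolynomial {k : P // k ≠ k₀} O)) ∧
      ∃ n, (algebraMap O D (x i)) ^ n ∈
        Ideal.span (Set.range fun j => (⟨θ (g j), hD j⟩ : D)) := by
    intro i
    obtain ⟨r, hr⟩ := hr i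
    exact core v g d hd hG (x i) r hr θ hθs D hD k₀ _ ha
  have halg : Algebra.IsAlgebraic D (MvPolynomial {k : P // k ≠ k₀} O) := (hcore i₀).1 hi₀
  -- finiteness
  have hOf : Algebra.FiniteType ℂ O := by
    refine ⟨⟨Finset.univ.image x, ?_⟩⟩
    rw [Finset.coe_image, Finset.coe_univ, Set.image_univ]
    exact hx
  have hDf : Algebra.FiniteType O D := by
    rw [← Subalgebra.fg_iff_finiteType]
    refine ⟨Finset.univ.image fun j => θ (g j), ?_⟩
    rw [Finset.coe_image, Finset.coe_univ, Set.image_univ]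
  have hDf' : Algebra.FiniteType ℂ D := Algebra.FiniteType.trans hOf hDf
  have hDn : IsNoetherianRing D := Algebra.FiniteType.isNoetherianRing ℂ D
  -- the point
  let ev : MvPolynomial {k : P // k ≠ k₀} O →+* ℂ := eval₂Hom (ε : O →+* ℂ) fun k => z k.1
  have hev : ∀ y, ev (θ y) = eval₂ (ε : O →+* ℂ) z y := by
    intro y
    have h1 : ev.comp (θ : MvPolynomial P O →+* MvPolynomial {k : P // k ≠ k₀} O) =
        eval₂Hom (ε : O →+* ℂ) z := by
      apply MvPolynomial.ringHom_ext
      · intro o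
        have h2 : θ (C o) = C o := θ.commutes o
        change ev (θ (C o)) = _
        rw [h2, eval₂Hom_C, eval₂Hom_C]
      · intro k
        by_cases hk : k = k₀
        · subst hk
          simp [θ, ev]
        · simp [θ, ev, hk]
    exact DFunLike.congr_fun h1 y
  let evD : D →+* ℂ := ev.comp (algebraMap D (MvPolynomial {k : P // k ≠ k₀} O))
  have hker : (RingHom.ker evD).IsPrime := RingHom.ker_isPrime _
  let F : Finset D := Finset.univ.image fun j => (⟨θ (g j), hD j⟩ : D)
  have hF : (F : Set D) = Set.range fun j => (⟨θ (g j), hD j⟩ : D) := by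
    simp [F]
  have hle : Ideal.span (F : Set D) ≤ RingHom.ker evD := by
    rw [Ideal.span_le, hF]
    rintro _ ⟨j, rfl⟩
    change ev (θ (g j)) = 0
    rw [hev, hz]
  obtain ⟨q, hqmin, -⟩ := Ideal.exists_minimalPrimes_le hle
  have hqp : q.IsPrime := hqmin.1.1
  have hqh : q.height ≤ Fintype.card G := by
    refine (Ideal.height_le_card_of_mem_minimalPrimes_span_finset hqmin).trans ?_
    have : F.card ≤ Fintype.card G := Finset.card_image_le
    exact_mod_cast this
  have hqx : ∀ i, algebraMap O D (x i) ∈ q := by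
    intro i
    obtain ⟨n, hn⟩ := (hcore i).2
    rw [← hF] at hn
    exact hqp.mem_of_pow_mem n (hqmin.1.2 hn)
  have hO : ∀ o : O, ∃ a : ℂ, algebraMap O D o - algebraMap ℂ D a ∈ q := by
    intro o
    have ho : o ∈ Algebra.adjoin ℂ (Set.range x) := by
      rw [hx]
      exact Algebra.mem_top
    induction ho using Algebra.adjoin_induction with
    | mem o ho =>
      obtain ⟨i, rfl⟩ := ho
      exact ⟨0, by rw [map_zero, sub_zero]; exact hqx i⟩
    | algebraMap a =>
      refine ⟨a, ?_⟩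
      rw [← IsScalarTower.algebraMap_apply ℂ O D, sub_self]
      exact q.zero_mem
    | add o₁ o₂ _ _ h₁ h₂ =>
      rw [map_add]
      exact res_add q h₁ h₂
    | mul o₁ o₂ _ _ h₁ h₂ =>
      rw [map_mul]
      exact res_mul q h₁ h₂
  have hres : ∀ y : D, ∃ a : ℂ, y - algebraMap ℂ D a ∈ q := by
    refine res_all (Set.range fun j => θ (g j)) D rfl q ?_ hO
    rintro _ ⟨j, rfl⟩ hy
    apply hqmin.1.2
    rw [hF]
    exact Ideal.subset_span ⟨j, rfl⟩
  have h1 := trdeg_le ℂ D q hres (Fintype.card G) hqh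
  have h2 : Algebra.trdeg ℂ O + Algebra.trdeg O (MvPolynomial {k : P // k ≠ k₀} O) =
      Algebra.trdeg ℂ (MvPolynomial {k : P // k ≠ k₀} O) := trdeg_add_eq ℂ O
  have i1 : FaithfulSMul ℂ D :=
    (faithfulSMul_iff_algebraMap_injective _ _).2 (algebraMap ℂ D).injective
  have i2 : FaithfulSMul D (MvPolynomial {k : P // k ≠ k₀} O) :=
    (faithfulSMul_iff_algebraMap_injective _ _).2 Subtype.val_injective
  have h3 : Algebra.trdeg ℂ D + Algebra.trdeg D (MvPolynomial {k : P // k ≠ k₀} O) =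
      Algebra.trdeg ℂ (MvPolynomial {k : P // k ≠ k₀} O) := trdeg_add_eq ℂ D
  rw [_root_.trdeg_eq_zero (R := D), add_zero] at h3
  rw [MvPolynomial.trdeg_of_isDomain, ← h3, Cardinal.mk_fintype, Cardinal.lift_id] at h2
  have h4 : Fintype.card {k : P // k ≠ k₀} = Fintype.card P - 1 := by
    rw [Fintype.card_subtype_compl, Fintype.card_subtype_eq]
  rw [h4] at h2
  rw [h2]
  exact h1

/-- The polynomials in `u` and `z` as polynomials in `z` over the quotient ring. -/
noncomputable def toQuot {Z P : Type} (p : Ideal (MvPolynomial Z ℂ)) :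
    MvPolynomial (Z ⊕ P) ℂ →ₐ[ℂ] MvPolynomial P (MvPolynomial Z ℂ ⧸ p) :=
  aeval (Sum.elim (fun i => C (Ideal.Quotient.mk p (X i))) X)

theorem toQuot_rename {Z P : Type} (p : Ideal (MvPolynomial Z ℂ)) (φ : MvPolynomial Z ℂ) :
    toQuot (P := P) p (rename Sum.inl φ) = C (Ideal.Quotient.mk p φ) := by
  have h : ((toQuot (P := P) p).comp (rename Sum.inl)) =
      ((IsScalarTower.toAlgHom ℂ (MvPolynomial Z ℂ ⧸ p)
        (MvPolynomial P (MvPolynomial Z ℂ ⧸ p))).comp (Ideal.Quotient.mkₐ ℂ p)) := by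
    apply MvPolynomial.algHom_ext
    intro i
    simp [toQuot, algebraMap_eq]
  exact DFunLike.congr_fun h φ

theorem toQuot_homog {Z P : Type} (p : Ideal (MvPolynomial Z ℂ)) (v : P → ℕ)
    (φ : MvPolynomial (Z ⊕ P) ℂ) (n : ℕ)
    (h : IsWeightedHomogeneous (Sum.elim (fun _ => 0) v) φ n) :
    IsWeightedHomogeneous v (toQuot p φ) n := by
  classical
  rw [φ.as_sum, map_sum]
  refine IsWeightedHomogeneous.sum _ _ n fun α hα => ?_
  rw [toQuot, aeval_monomial]
  have h1 : n = 0 + ∑ s ∈ α.support, α s • (Sum.elim (fun _ => 0) v : Z ⊕ P → ℕ) s := by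
    rw [zero_add, ← h (mem_support_iff.1 hα), Finsupp.weight_apply, Finsupp.sum]
  rw [h1]
  refine IsWeightedHomogeneous.mul ?_ ?_
  · exact isWeightedHomogeneous_C v _
  · rw [Finsupp.prod]
    refine IsWeightedHomogeneous.prod _ _ _ fun s _ => ?_
    refine IsWeightedHomogeneous.pow ?_ _
    rcases s with i | k
    · exact isWeightedHomogeneous_C v _
    · exact isWeightedHomogeneous_X _ v k

/-- Nullstellensatz. -/
theorem null {Z P T G : Type} [Fintype Z] [Fintype P] (f : T → MvPolynomial Z ℂ)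
    (g : G → MvPolynomial (Z ⊕ P) ℂ)
    (hzero : ∀ (u : Z → ℂ) (z : P → ℂ), (∀ j, eval u (f j) = 0) →
      (∀ i, eval (Sum.elim u z) (g i) = 0) → u = 0 ∨ z = 0) (i : Z) (k : P) :
    (X (Sum.inl i) * X (Sum.inr k) : MvPolynomial (Z ⊕ P) ℂ) ∈
      (Ideal.span (Set.range (fun j => rename Sum.inl (f j)) ∪ Set.range g)).radical := by
  rw [← vanishingIdeal_zeroLocus_eq_radical (K := ℂ), mem_vanishingIdeal_iff]
  intro x hx
  rw [mem_zeroLocus_iff] at hx
  have h1 : ∀ j, eval (x ∘ Sum.inl) (f j) = 0 := by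
    intro j
    have h2 : eval x (rename Sum.inl (f j)) = 0 := hx _ (Ideal.subset_span (Or.inl ⟨j, rfl⟩))
    rwa [eval_rename] at h2
  have h2 : ∀ j, eval (Sum.elim (x ∘ Sum.inl) (x ∘ Sum.inr)) (g j) = 0 := by
    intro j
    rw [Sum.elim_comp_inl_inr]
    exact hx _ (Ideal.subset_span (Or.inr ⟨j, rfl⟩))
  rw [map_mul, aeval_X, aeval_X]
  rcases hzero _ _ h1 h2 with h | h
  · have := congrFun h i
    simp only [Function.comp_apply, Pi.zero_apply] at this
    rw [this, zero_mul]
  · have := congrFun h k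
    simp only [Function.comp_apply, Pi.zero_apply] at this
    rw [this, mul_zero]

end CT

open CT in
/-- The connectedness lemma. -/
theorem ct {Z P T G : Type} [Fintype Z] [Fintype P] [Fintype T] [Fintype G] (v : P → ℕ)
    (f : T → MvPolynomial Z ℂ) (hf : ∀ j, eval 0 (f j) = 0) (g : G → MvPolynomial (Z ⊕ P) ℂ)
    (d : G → ℕ) (hd : ∀ i, 0 < d i)
    (hg : ∀ i, IsWeightedHomogeneous (Sum.elim (fun _ => 0) v) (g i) (d i))
    (hzero : ∀ (u : Z → ℂ) (z : P → ℂ), (∀ j, eval u (f j) = 0) →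
      (∀ i, eval (Sum.elim u z) (g i) = 0) → u = 0 ∨ z = 0)
    (z' : P → ℂ) (hz' : z' ≠ 0) (hgz' : ∀ i, eval (Sum.elim 0 z') (g i) = 0)
    (hc : Fintype.card T < Fintype.card Z) :
    Fintype.card Z + Fintype.card P ≤ Fintype.card T + Fintype.card G + 1 := by
  classical
  have hm0 : (RingHom.ker (eval (0 : Z → ℂ))).IsPrime := RingHom.ker_isPrime _
  have hle : Ideal.span ((Finset.univ.image f : Finset (MvPolynomial Z ℂ)) :
      Set (MvPolynomial Z ℂ)) ≤ RingHom.ker (eval (0 : Z → ℂ)) := by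
    rw [Ideal.span_le, Finset.coe_image, Finset.coe_univ, Set.image_univ]
    rintro _ ⟨j, rfl⟩
    exact hf j
  obtain ⟨p, hpmin, hpm⟩ := Ideal.exists_minimalPrimes_le hle
  have hpp : p.IsPrime := hpmin.1.1
  have hht : p.height ≤ (Finset.univ.image f).card :=
    Ideal.height_le_card_of_mem_minimalPrimes_span_finset hpmin
  obtain ⟨m, u, hu, hcard⟩ := Pool.Agent.WL.HT_.Q_fintype ℂ Z p hpp
  have hcard' : Fintype.card Z ≤ Fintype.card T + m := by
    have h1 : (Finset.univ.image f).card ≤ Fintype.card T := Finset.card_image_le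
    have h2 : (Fintype.card Z : ℕ∞) ≤ ((Finset.univ.image f).card : ℕ∞) + m :=
      hcard.trans (by gcongr)
    have h3 : Fintype.card Z ≤ (Finset.univ.image f).card + m := by exact_mod_cast h2
    omega
  have hfp : ∀ j, f j ∈ p := fun j => hpmin.1.2 (Ideal.subset_span (by simp))
  have hmpos : 0 < m := by omega
  -- a variable which is not zero in the quotient
  obtain ⟨i₀, hi₀⟩ : ∃ i₀, Ideal.Quotient.mk p (X i₀) ≠ 0 := by
    by_contra hcon
    push Not at hcon
    have h1 : ∀ φ : MvPolynomial Z ℂ, Ideal.Quotient.mk p φ =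
        Ideal.Quotient.mk p (C (eval 0 φ)) := by
      intro φ
      have h2 : Ideal.Quotient.mk p = (Ideal.Quotient.mk p).comp (C.comp (eval 0)) := by
        apply MvPolynomial.ringHom_ext
        · intro a
          simp
        · intro i
          simp [hcon i]
      exact DFunLike.congr_fun h2 φ
    have h3 := hu (X ⟨0, hmpos⟩ - C (eval 0 (u ⟨0, hmpos⟩))) (by
      rw [map_sub, aeval_X, aeval_C, ← Ideal.Quotient.eq, h1]
      rfl)
    have h4 := congrArg (eval fun _ => eval 0 (u ⟨0, hmpos⟩) + 1) h3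
    simp at h4
  obtain ⟨k₀, hk₀⟩ : ∃ k, z' k ≠ 0 := by
    by_contra hcon
    push Not at hcon
    exact hz' (funext hcon)
  have hp0 : ∀ a ∈ p, aeval (0 : Z → ℂ) a = 0 := fun a ha => hpm ha
  let ε : (MvPolynomial Z ℂ ⧸ p) →ₐ[ℂ] ℂ := Ideal.Quotient.liftₐ p (aeval 0) hp0
  have hx : Algebra.adjoin ℂ (Set.range fun i => Ideal.Quotient.mk p (X i)) = ⊤ := by
    rw [Algebra.adjoin_range_eq_range_aeval]
    have : aeval (fun i => Ideal.Quotient.mk p (X i)) = Ideal.Quotient.mkₐ ℂ p := by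
      apply MvPolynomial.algHom_ext
      intro j
      simp
    rw [this, AlgHom.range_eq_top]
    exact Ideal.Quotient.mkₐ_surjective ℂ p
  have hr : ∀ i, ∃ r, ∀ k, (C (Ideal.Quotient.mk p (X i)) * X k) ^ (r + 1) ∈
      Ideal.span (Set.range fun j => toQuot p (g j)) := by
    intro i
    have h1 : ∀ k : P, ∃ r, (C (Ideal.Quotient.mk p (X i)) * X k) ^ r ∈
        Ideal.span (Set.range fun j => toQuot p (g j)) := by
      intro k
      obtain ⟨r, hr⟩ := null f g hzero i k
      refine ⟨r, ?_⟩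
      have h2 : Ideal.span (Set.range (fun j => rename Sum.inl (f j)) ∪ Set.range g) ≤
          (Ideal.span (Set.range fun j => toQuot p (g j))).comap (toQuot (P := P) p) := by
        rw [Ideal.span_le]
        rintro _ (⟨j, rfl⟩ | ⟨j, rfl⟩)
        · rw [SetLike.mem_coe, Ideal.mem_comap, toQuot_rename,
            Ideal.Quotient.eq_zero_iff_mem.2 (hfp j), C_0]
          exact Ideal.zero_mem _
        · exact Ideal.subset_span ⟨j, rfl⟩
      have h3 := h2 hr
      rw [Ideal.mem_comap, map_pow, map_mul] at h3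
      simpa [toQuot] using h3
    choose r hr using h1
    refine ⟨Finset.univ.sup r, fun k => ?_⟩
    have h2 : r k ≤ Finset.univ.sup r := Finset.le_sup (f := r) (Finset.mem_univ k)
    have h3 : Finset.univ.sup r + 1 = (Finset.univ.sup r + 1 - r k) + r k := by omega
    rw [h3, pow_add]
    exact Ideal.mul_mem_left _ _ (hr k)
  have hz : ∀ j, eval₂ (ε : (MvPolynomial Z ℂ ⧸ p) →+* ℂ) z' (toQuot p (g j)) = 0 := by
    intro j
    rw [← hgz' j]
    have h1 : (eval₂Hom (ε : (MvPolynomial Z ℂ ⧸ p) →+* ℂ) z').comp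
        (toQuot (P := P) p : MvPolynomial (Z ⊕ P) ℂ →+* _) = eval (Sum.elim 0 z') := by
      apply MvPolynomial.ringHom_ext
      · intro a
        simp [toQuot]
      · rintro (i | k)
        · simp [toQuot, ε]
        · simp [toQuot]
    exact DFunLike.congr_fun h1 (g j)
  have i1 : FaithfulSMul ℂ (MvPolynomial Z ℂ ⧸ p) :=
    (faithfulSMul_iff_algebraMap_injective _ _).2 (algebraMap ℂ (MvPolynomial Z ℂ ⧸ p)).injective
  have h1 := gen (fun i => Ideal.Quotient.mk p (X i)) hx ε v (fun j => toQuot p (g j)) d hd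
    (fun j => toQuot_homog p v (g j) (d j) (hg j)) hr z' k₀ hk₀ hz i₀ hi₀
  have h2 : AlgebraicIndependent ℂ fun i => Ideal.Quotient.mk p (u i) := by
    rw [algebraicIndependent_iff]
    intro φ hφ
    apply hu
    have h3 : aeval (fun i => Ideal.Quotient.mk p (u i)) φ = Ideal.Quotient.mk p (aeval u φ) :=
      (MvPolynomial.comp_aeval_apply u (Ideal.Quotient.mkₐ ℂ p) φ).symm
    rw [h3] at hφ
    exact Ideal.Quotient.eq_zero_iff_mem.1 hφ
  have h3 := h2.cardinalMk_le_trdeg
  rw [Cardinal.mk_fin] at h3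
  have h4 : (m : Cardinal) + ((Fintype.card P - 1 : ℕ) : Cardinal) ≤
      (Fintype.card G : Cardinal) := le_trans (by gcongr) h1
  have h5 : m + (Fintype.card P - 1) ≤ Fintype.card G := by exact_mod_cast h4
  have h6 : 0 < Fintype.card P := Fintype.card_pos_iff.2 ⟨k₀⟩
  omega

end Pool.Agent.CIC
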