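import Pool.Agent.WL.HT

set_option autoImplicit false

/-!
# Graded Nakayama lemma, determinant trick and the transcendence degree of a point
-/

open MvPolynomial

namespace Pool.Agent.CIC

namespace CT

/-- The transcendence degree of a finitely generated domain is at most the height of an ideal
whose residue ring is the ground field. -/
theorem trdeg_le (k : Type) [Field k] (D : Type) [CommRing D] [IsDomain D] [Algebra k D]
    [Algebra.FiniteType k D] (q : Ideal D) [q.IsPrime]
    (hq : ∀ d : D, ∃ a : k, d - algebraMap k D a ∈ q) (e : ℕ) (he : q.height ≤ e) :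
    Algebra.trdeg k D ≤ e := by
  obtain ⟨n, g, hinj, hfin⟩ := exists_finite_inj_algHom_of_fg k D
  let _ : Algebra (MvPolynomial (Fin n) k) D := g.toRingHom.toAlgebra
  have : IsScalarTower k (MvPolynomial (Fin n) k) D :=
    IsScalarTower.of_algebraMap_eq fun x => (g.commutes x).symm
  have : Module.Finite (MvPolynomial (Fin n) k) D := hfin
  have : FaithfulSMul (MvPolynomial (Fin n) k) D :=
    (faithfulSMul_iff_algebraMap_injective _ _).2 hinj
  have : IsNoetherianRing D := Algebra.FiniteType.isNoetherianRing k D
  have h2 : Algebra.trdeg k D = (n : Cardinal) := by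
    rw [← _root_.trdeg_add_eq k (MvPolynomial (Fin n) k) (A := D)]
    rw [_root_.trdeg_eq_zero (R := MvPolynomial (Fin n) k) (A := D)]
    simp
  set p : Ideal (MvPolynomial (Fin n) k) := q.under (MvPolynomial (Fin n) k) with hp
  have hpp : p.IsPrime := inferInstance
  have : q.LiesOver p := ⟨rfl⟩
  have h1 := Ideal.height_eq_height_add_of_liesOver_of_hasGoingDown p q
  have h3 : p.height ≤ e := by
    refine le_trans ?_ he
    rw [h1]
    exact le_self_add
  obtain ⟨m, u, hu, hcard⟩ := Pool.Agent.WL.HT_.Q_fin k n p hpp
  have hm : m = 0 := by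
    by_contra hm
    obtain ⟨a, ha⟩ := hq (g (u ⟨0, Nat.pos_of_ne_zero hm⟩))
    have h4 : aeval u (X ⟨0, Nat.pos_of_ne_zero hm⟩ - C a : MvPolynomial (Fin m) k) ∈ p := by
      rw [map_sub, aeval_X, aeval_C, hp, Ideal.mem_comap, map_sub]
      have : (algebraMap (MvPolynomial (Fin n) k) D)
          (algebraMap k (MvPolynomial (Fin n) k) a) = algebraMap k D a :=
        (IsScalarTower.algebraMap_apply k (MvPolynomial (Fin n) k) D a).symm
      rw [this]
      exact ha
    have h5 := hu _ h4
    have h6 := congrArg (eval fun _ => a + 1) h5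
    simp at h6
  subst hm
  have h7 : (n : ℕ∞) ≤ e := by
    refine hcard.trans ?_
    simpa using h3
  rw [h2]
  exact_mod_cast h7

/-- Determinant trick. -/
theorem det_trick {O B : Type} [CommRing O] [CommRing B] [Algebra O B]
    (D : Subalgebra O B) (W : Submodule D B) (hW : W.FG) (h1 : (1 : B) ∈ W) (I : Ideal D) (x : D)
    (hx : ∀ w ∈ W, (x : B) * w ∈ I • W) : ∃ n, x ^ n ∈ I := by
  have hfin : Module.Finite D W := Module.Finite.iff_fg.2 hW
  have hI : LinearMap.range (algebraMap D (Module.End D W) x) ≤ I • ⊤ := by
    rintro _ ⟨w, rfl⟩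
    have h2 : (x : B) * w ∈ I • W := hx w w.2
    have h3 : Submodule.map W.subtype (I • ⊤) = I • W := by
      rw [Submodule.map_smul'', Submodule.map_subtype_top]
    rw [← h3] at h2
    obtain ⟨y, hy, hyw⟩ := h2
    have : y = algebraMap D (Module.End D W) x w := by
      apply Subtype.ext
      rw [Module.algebraMap_end_apply, Submodule.coe_smul, ← Submodule.subtype_apply, hyw]
      rfl
    rwa [← this]
  obtain ⟨p, hp, -, hpc, hp0⟩ :=
    LinearMap.exists_monic_and_natDegree_eq_and_coeff_mem_pow_and_aeval_eq_zero D
      (algebraMap D (Module.End D W) x) I hI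
  refine ⟨p.natDegree, ?_⟩
  have h4 : Polynomial.eval x p = 0 := by
    have h5 : Polynomial.aeval (algebraMap D (Module.End D W) x) p =
        algebraMap D (Module.End D W) (Polynomial.aeval x p) :=
      Polynomial.aeval_algebraMap_apply _ _ _
    rw [h5] at hp0
    have h6 := congrArg (fun F : Module.End D W => (F ⟨1, h1⟩ : B)) hp0
    simp only [Module.algebraMap_end_apply, Submodule.coe_smul, LinearMap.zero_apply,
      Submodule.coe_zero] at h6
    rw [Subalgebra.smul_def, smul_eq_mul, mul_one] at h6
    rw [Polynomial.coe_aeval_eq_eval] at h6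
    exact Subtype.ext h6
  rw [hp.as_sum, Polynomial.eval_add, Polynomial.eval_pow, Polynomial.eval_X,
    Polynomial.eval_finsetSum] at h4
  rw [eq_neg_of_add_eq_zero_left h4]
  apply I.neg_mem
  apply I.sum_mem
  intro i hi
  rw [Finset.mem_range] at hi
  rw [Polynomial.eval_mul, Polynomial.eval_C]
  apply I.mul_mem_right
  exact Ideal.pow_le_self (by omega) (hpc i)

/-- The elements `b` with `c ^ N b` in `W` for some `N`. -/
def sat {O B : Type} [CommRing O] [CommRing B] [Algebra O B] (D : Subalgebra O B)
    (W : Submodule D B) (c : O) : Submodule D B where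
  carrier := {b | ∃ N : ℕ, (algebraMap O B c) ^ N * b ∈ W}
  add_mem' := by
    rintro a b ⟨M, hM⟩ ⟨N, hN⟩
    refine ⟨M + N, ?_⟩
    have h1 : (algebraMap O B c) ^ (M + N) * (a + b) =
        (algebraMap O D c) ^ N • ((algebraMap O B c) ^ M * a) +
          (algebraMap O D c) ^ M • ((algebraMap O B c) ^ N * b) := by
      rw [Subalgebra.smul_def, Subalgebra.smul_def, smul_eq_mul, smul_eq_mul,
        Subalgebra.coe_pow, Subalgebra.coe_pow, Subalgebra.coe_algebraMap, pow_add]
      ring
    rw [h1]
    exact W.add_mem (W.smul_mem _ hM) (W.smul_mem _ hN)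
  zero_mem' := ⟨0, by simp⟩
  smul_mem' := by
    rintro d b ⟨N, hN⟩
    refine ⟨N, ?_⟩
    have h1 : (algebraMap O B c) ^ N * (d • b) = d • ((algebraMap O B c) ^ N * b) := by
      rw [Subalgebra.smul_def, Subalgebra.smul_def, smul_eq_mul, smul_eq_mul]
      ring
    rw [h1]
    exact W.smul_mem _ hN

/-- Uniform exponent. -/
theorem unif {O B : Type} [CommRing O] [CommRing B] [Algebra O B] (D : Subalgebra O B)
    (W : Submodule D B) (hW : W.FG) (c : O) (hall : ∀ b : B, b ∈ sat D W c) (b : B) :
    ∃ N : ℕ, ∀ w ∈ W, (algebraMap O B c) ^ N * (b * w) ∈ W := by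
  classical
  obtain ⟨F, hF⟩ := hW
  choose N hN using fun w : B => hall (b * w)
  refine ⟨F.sup N, fun w hw => ?_⟩
  rw [← hF] at hw
  induction hw using Submodule.span_induction with
  | mem w hw =>
    have h1 : N w ≤ F.sup N := Finset.le_sup (f := N) hw
    have h2 : (algebraMap O B c) ^ (F.sup N) * (b * w) =
        (algebraMap O D c) ^ (F.sup N - N w) • ((algebraMap O B c) ^ (N w) * (b * w)) := by
      rw [Subalgebra.smul_def, smul_eq_mul, Subalgebra.coe_pow, Subalgebra.coe_algebraMap,
        ← mul_assoc _ _ (b * w), ← pow_add, Nat.sub_add_cancel h1]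
    rw [h2]
    exact W.smul_mem _ (hN w)
  | zero => simp
  | add x y _ _ hx hy =>
    rw [mul_add, mul_add]
    exact W.add_mem hx hy
  | smul d x _ hx =>
    have h1 : (algebraMap O B c) ^ (F.sup N) * (b * (d • x)) =
        d • ((algebraMap O B c) ^ (F.sup N) * (b * x)) := by
      rw [Subalgebra.smul_def, Subalgebra.smul_def, smul_eq_mul, smul_eq_mul]
      ring
    rw [h1]
    exact W.smul_mem _ hx

/-- Homogeneous components of a product with a homogeneous polynomial. -/
theorem comp_mul {O P : Type} [CommRing O] (v : P → ℕ) (G t : MvPolynomial P O) (d n : ℕ)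
    (hG : IsWeightedHomogeneous v G d) : weightedHomogeneousComponent v n (G * t) =
      if d ≤ n then G * weightedHomogeneousComponent v (n - d) t else 0 := by
  classical
  let _ := weightedGradedAlgebra O v
  have h := DirectSum.coe_decompose_mul_of_left_mem (weightedHomogeneousSubmodule O v) n (b := t)
    (show G ∈ weightedHomogeneousSubmodule O v d from hG)
  have e : ∀ (φ : MvPolynomial P O) (m : ℕ),
      ((DirectSum.decompose (weightedHomogeneousSubmodule O v) φ) m : MvPolynomial P O) =
        weightedHomogeneousComponent v m φ := fun φ m =>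
    weightedDecomposition.decompose'_apply O v φ m
  rw [e, e] at h
  exact h

/-- Graded Nakayama lemma. -/
theorem nak {O B P ι : Type} [CommRing O] [CommRing B] [Algebra O B] [Fintype P]
    [Fintype ι] (v : P → ℕ) (G : ι → MvPolynomial P O) (d : ι → ℕ)
    (hd : ∀ j, 0 < d j) (hG : ∀ j, IsWeightedHomogeneous v (G j) (d j)) (c : O) (r : ℕ)
    (hr : ∀ k, (C c * X k) ^ (r + 1) ∈ Ideal.span (Set.range G)) (θ : MvPolynomial P O →ₐ[O] B)
    (D : Subalgebra O B) (hD : ∀ j, θ (G j) ∈ D) :
    ∃ W : Submodule D B, W.FG ∧ 1 ∈ W ∧ ∀ b, θ b ∈ sat D W c := by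
  classical
  let M : Finset (P →₀ ℕ) := Finset.Iic (Finsupp.equivFunOnFinite.symm fun _ => r)
  let W : Submodule D B := Submodule.span D ((M.image fun α => θ (monomial α 1) : Finset B) : Set B)
  have hmono : ∀ n : ℕ, ∀ α : P →₀ ℕ, Finsupp.weight v α = n → θ (monomial α 1) ∈ sat D W c := by
    intro n
    induction n using Nat.strong_induction_on with
    | _ n ih =>
      intro α hα
      by_cases hM : ∀ k, α k ≤ r
      · refine ⟨0, ?_⟩
        rw [pow_zero, one_mul]
        apply Submodule.subset_span
        rw [Finset.coe_image]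
        refine ⟨α, ?_, rfl⟩
        rw [Finset.mem_coe, Finset.mem_Iic]
        intro k
        exact hM k
      push Not at hM
      obtain ⟨k, hk⟩ := hM
      obtain ⟨h, hh⟩ := Ideal.mem_span_range_iff_exists_fun.1 (hr k)
      set α' := α - Finsupp.single k (r + 1) with hα'
      have hle : Finsupp.single k (r + 1) ≤ α := by
        rw [Finsupp.single_le_iff]
        omega
      have h1 : (∑ j, G j * (h j * monomial α' 1) : MvPolynomial P O) =
          C (c ^ (r + 1)) * monomial α 1 := by
        have h2 : (∑ j, G j * (h j * monomial α' 1) : MvPolynomial P O) =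
            (∑ j, h j * G j) * monomial α' 1 := by
          rw [Finset.sum_mul]
          refine Finset.sum_congr rfl fun j _ => ?_
          ring
        rw [h2, hh, mul_pow, ← C_pow, mul_assoc, X_pow_eq_monomial, monomial_mul, one_mul,
          hα', add_tsub_cancel_of_le hle]
      have h2 : (∑ j, if d j ≤ n then G j * weightedHomogeneousComponent v (n - d j)
          (h j * monomial α' 1) else 0) = C (c ^ (r + 1)) * monomial α 1 := by
        have h3 := congrArg (weightedHomogeneousComponent v n) h1
        rw [map_sum] at h3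
        rw [Finset.sum_congr rfl fun j _ => (comp_mul v (G j) (h j * monomial α' 1) (d j) n
          (hG j)).symm, h3]
        rw [C_mul_monomial]
        exact (isWeightedHomogeneous_monomial v α _ hα).weightedHomogeneousComponent_same
      have h3 : ∀ m < n, ∀ b : MvPolynomial P O, IsWeightedHomogeneous v b m →
          θ b ∈ sat D W c := by
        intro m hm b hb
        rw [b.as_sum, map_sum]
        apply Submodule.sum_mem
        intro γ hγ
        have h1 : θ (monomial γ (coeff γ b)) =
            (algebraMap O D (coeff γ b)) • θ (monomial γ 1) := by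
          rw [Subalgebra.smul_def, Subalgebra.coe_algebraMap, smul_eq_mul, ← mul_one (coeff γ b),
            ← smul_eq_mul (coeff γ b) 1, ← smul_monomial, map_smul, Algebra.smul_def]
          simp
        rw [h1]
        exact Submodule.smul_mem _ _ (ih m hm γ (hb (mem_support_iff.1 hγ)))
      have h4 : (algebraMap O B c) ^ (r + 1) * θ (monomial α 1) ∈ sat D W c := by
        have h5 : (algebraMap O B c) ^ (r + 1) * θ (monomial α 1) =
            θ (C (c ^ (r + 1)) * monomial α 1) := by
          rw [map_mul, ← algebraMap_eq, AlgHom.commutes, map_pow]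
        rw [h5, ← h2, map_sum]
        apply Submodule.sum_mem
        intro j _
        split_ifs with hj
        · rw [map_mul]
          have h6 : θ (G j) * θ (weightedHomogeneousComponent v (n - d j)
              (h j * monomial α' 1)) = (⟨θ (G j), hD j⟩ : D) •
              θ (weightedHomogeneousComponent v (n - d j) (h j * monomial α' 1)) := by
            rw [Subalgebra.smul_def, smul_eq_mul]
          rw [h6]
          apply Submodule.smul_mem
          exact h3 (n - d j) (by have := hd j; omega) _
            (weightedHomogeneousComponent_isWeightedHomogeneous _ _)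
        · rw [map_zero]
          exact Submodule.zero_mem _
      obtain ⟨N, hN⟩ := h4
      refine ⟨N + (r + 1), ?_⟩
      rw [pow_add, mul_assoc]
      exact hN
  refine ⟨W, ⟨_, rfl⟩, ?_, ?_⟩
  · have h1 : (1 : B) = θ (monomial 0 1) := by
      rw [← C_apply, C_1, map_one]
    rw [h1]
    apply Submodule.subset_span
    rw [Finset.coe_image]
    refine ⟨0, ?_, rfl⟩
    rw [Finset.mem_coe, Finset.mem_Iic]
    exact zero_le
  · intro b
    rw [b.as_sum, map_sum]
    apply Submodule.sum_mem
    intro α _
    have h1 : θ (monomial α (coeff α b)) = (algebraMap O D (coeff α b)) • θ (monomial α 1) := by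
      rw [Subalgebra.smul_def, Subalgebra.coe_algebraMap, smul_eq_mul, ← mul_one (coeff α b),
        ← smul_eq_mul (coeff α b) 1, ← smul_monomial, map_smul, Algebra.smul_def]
      simp
    rw [h1]
    exact Submodule.smul_mem _ _ (hmono _ α rfl)

end CT

end Pool.Agent.CIC
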