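import Mathlib

/-!
# Picard number two, the exceptional case: combinatorics

`x, y` are the two coordinates of the degrees of the variables, `a, b` the two coordinates of the
degrees of the equations (coordinates: the two extremal rays).
-/

set_option autoImplicit false

namespace Pool.Agent.CIC

/-- The combinatorial data of the first ray in the exceptional case (the second ray: exchange
`x, y` and `a, b`). -/
structure ExcData {V Q : Type*} [Fintype V] [Fintype Q] (x y : V → ℤ) (a b : Q → ℤ) : Prop where
  /-- the effective cone is pointed and contains the quadrant -/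
  pos : ∀ k, x k ≤ 0 → 0 < y k
  /-- no variable gives `α ≤ 1` (for `-K = (1, 1)`) -/
  fail : ∀ k, x k ≤ y k → 2 ≤ y k
  /-- matching in degrees `≥ 2` over a point of the contraction -/
  up : ∀ k, 2 ≤ x k → ∃ j, a j = x k
  down : ∀ j, 2 ≤ a j → ∃ k, x k = a j ∧ ∃ u : V → ℕ, u ≠ 0 ∧ (∀ i, u i ≠ 0 → x i = 0) ∧
    b j = y k + ∑ i, (u i : ℤ) * y i
  /-- matching in negative degrees (Jacobian, equality of the count) -/
  negUp : ∀ k, x k ≤ -2 → ∃ j, a j = x k
  negDown : ∀ j, a j < 0 → ∃ k, x k = a j ∧ y k < b j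
  /-- the rows of degree zero of the Jacobian are not zero -/
  row : ∀ j, a j = 0 → ∃ k, x k ≤ 0 ∧ ∃ u : V → ℕ, (∀ i, u i ≠ 0 → 0 ≤ x i) ∧
    x k + ∑ i, (u i : ℤ) * x i = 0 ∧ b j = y k + ∑ i, (u i : ℤ) * y i
  /-- the base is a point -/
  card : (Finset.univ.filter fun k => x k = 0).card =
    (Finset.univ.filter fun j => a j = 0).card + 1
  /-- the degree of an equation in the open quadrant is a sum of at least two weights on its ray -/
  ray : ∀ j, 0 < a j → 0 < b j → ∃ k, 0 < x k ∧ 0 < y k ∧ x k * b j = y k * a j ∧ 2 * x k ≤ a j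

namespace ExcData

variable {V Q : Type*} [Fintype V] [Fintype Q] {x y : V → ℤ} {a b : Q → ℤ}

/-- The matching over the second ray moves the first coordinate down by at least two. -/
theorem down_lt (h : ExcData x y a b) {j : Q} (hj : 2 ≤ a j) :
    ∃ k, x k = a j ∧ y k + 2 ≤ b j := by
  obtain ⟨k, hk, u, hu, hu0, hb⟩ := h.down j hj
  refine ⟨k, hk, ?_⟩
  obtain ⟨i, hi⟩ : ∃ i, u i ≠ 0 := by
    by_contra hc
    push Not at hc
    exact hu (funext hc)
  have h1 : (u i : ℤ) * y i ≤ ∑ i, (u i : ℤ) * y i := by
    refine Finset.single_le_sum (f := fun i => (u i : ℤ) * y i) (fun l _ => ?_)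
      (Finset.mem_univ i)
    by_cases hl : u l = 0
    · simp [hl]
    · have := h.pos l (hu0 l hl).le
      positivity
  have h2 : 0 < y i := h.pos i (hu0 i hi).le
  have h3 : 2 ≤ y i := h.fail i (by rw [hu0 i hi]; exact h2.le)
  have h4 : (1 : ℤ) ≤ u i := by exact_mod_cast Nat.one_le_iff_ne_zero.2 hi
  have h5 : 2 ≤ (u i : ℤ) * y i := by nlinarith
  linarith

/-- All negative first coordinates of variables are `-1`. -/
theorem neg_one (h : ExcData x y a b) (h' : ExcData y x b a) : ∀ k, -1 ≤ x k := by
  by_contra hc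
  push Not at hc
  obtain ⟨k₀, hk₀⟩ := hc
  obtain ⟨k, -, hk⟩ := Finset.exists_min_image Finset.univ x ⟨k₀, Finset.mem_univ _⟩
  have h1 : x k ≤ -2 := by
    have := hk k₀ (Finset.mem_univ _)
    omega
  obtain ⟨j, hj⟩ := h.negUp k h1
  obtain ⟨k₂, hk₂, hk₂'⟩ := h.negDown j (by omega)
  have h2 : 2 ≤ y k₂ := by
    have h3 := h.pos k₂ (by omega)
    exact h.fail k₂ (by omega)
  obtain ⟨k₃, -, hk₃⟩ := h'.down_lt (j := j) (by omega)
  have := hk k₃ (Finset.mem_univ _)
  omega

/-- No equation has a nonpositive first coordinate. -/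
theorem a_pos (h : ExcData x y a b) (h' : ExcData y x b a) : ∀ j, 0 < a j := by
  intro j
  have hn := h.neg_one h'
  by_contra hc
  push Not at hc
  have hb : 2 ≤ b j := by
    rcases lt_or_eq_of_le hc with hj | hj
    · obtain ⟨k₂, hk₂, hk₂'⟩ := h.negDown j hj
      have h3 := h.pos k₂ (by omega)
      have := h.fail k₂ (by omega)
      omega
    · obtain ⟨k, hk, u, hu, hx, hy⟩ := h.row j hj
      have h1 := h.pos k hk
      have h2 := h.fail k (by omega)
      have h3 : ∀ i, 0 ≤ (u i : ℤ) * x i := by
        intro i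
        by_cases hi : u i = 0
        · simp [hi]
        · have := hu i hi
          positivity
      have h4 : ∀ i, 0 ≤ (u i : ℤ) * y i := by
        intro i
        by_cases hi : u i = 0
        · simp [hi]
        · have h5 : (u i : ℤ) * x i ≤ 1 := by
            have h6 := Finset.single_le_sum (f := fun i => (u i : ℤ) * x i)
              (fun l _ => h3 l) (Finset.mem_univ i)
            have h7 := hn k
            linarith
          have h6 : (1 : ℤ) ≤ u i := by exact_mod_cast Nat.one_le_iff_ne_zero.2 hi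
          have h7 : x i ≤ 1 := by
            have := hu i hi
            nlinarith
          have h8 : 0 ≤ y i := by
            by_contra h9
            push Not at h9
            have := h'.fail i (by have := hu i hi; omega)
            omega
          positivity
      have h5 : 0 ≤ ∑ i, (u i : ℤ) * y i := Finset.sum_nonneg fun i _ => h4 i
      omega
  obtain ⟨k, -, hk⟩ := h'.down_lt hb
  have := hn k
  omega

/-- Exactly one variable has first coordinate zero. -/
theorem exists_unique (h : ExcData x y a b) (h' : ExcData y x b a) :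
    ∃ z, x z = 0 ∧ ∀ k, x k = 0 → k = z := by
  have h1 := h.card
  have h2 : (Finset.univ.filter fun j => a j = 0) = ∅ := by
    rw [Finset.filter_eq_empty_iff]
    intro j _
    exact (h.a_pos h' j).ne'
  rw [h2, Finset.card_empty, zero_add, Finset.card_eq_one] at h1
  obtain ⟨z, hz⟩ := h1
  refine ⟨z, ?_, fun k hk => ?_⟩
  · have : z ∈ Finset.univ.filter fun k => x k = 0 := by rw [hz]; exact Finset.mem_singleton_self z
    exact (Finset.mem_filter.1 this).2
  · have : k ∈ Finset.univ.filter fun k => x k = 0 :=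
      Finset.mem_filter.2 ⟨Finset.mem_univ _, hk⟩
    rw [hz] at this
    exact Finset.mem_singleton.1 this

/-- All equations have both coordinates at least two. -/
theorem two_le (h : ExcData x y a b) (h' : ExcData y x b a) (j : Q) : 2 ≤ a j := by
  obtain ⟨k, hk, -, -, hk'⟩ := h.ray j (h.a_pos h' j) (h'.a_pos h j)
  omega

/-- The matching over the first ray, in the form used at the end. -/
theorem down' (h : ExcData x y a b) (h' : ExcData y x b a) {z : V}
    (hz' : ∀ k, x k = 0 → k = z) (j : Q) :
    ∃ k, x k = a j ∧ ∃ n : ℕ, 1 ≤ n ∧ b j = y k + n * y z := by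
  obtain ⟨k, hk, u, hu, hu0, hb⟩ := h.down j (h.two_le h' j)
  refine ⟨k, hk, u z, ?_, ?_⟩
  · obtain ⟨i, hi⟩ : ∃ i, u i ≠ 0 := by
      by_contra hc
      push Not at hc
      exact hu (funext hc)
    rw [← hz' i (hu0 i hi)]
    exact Nat.one_le_iff_ne_zero.2 hi
  · rw [hb]
    congr 1
    refine Finset.sum_eq_single z (fun i _ hi => ?_) (fun hn => absurd (Finset.mem_univ z) hn)
    have : u i = 0 := by
      by_contra h1
      exact hi (hz' i (hu0 i h1))
    simp [this]

/-- The exceptional case does not exist. -/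
theorem false (h : ExcData x y a b) (h' : ExcData y x b a) : False := by
  obtain ⟨z, hz, hz'⟩ := h.exists_unique h'
  obtain ⟨t, ht, ht'⟩ := h'.exists_unique h
  have hzp := h.pos z hz.le
  have hz2 : 2 ≤ y z := h.fail z (by omega)
  have htp := h'.pos t ht.le
  have ht2 : 2 ≤ x t := h'.fail t (by omega)
  have hxn := h.neg_one h'
  have hyn := h'.neg_one h
  -- lower bounds
  have hb : ∀ j, y z - 1 ≤ b j := by
    intro j
    obtain ⟨k, -, n, hn, hbj⟩ := h.down' h' hz' j
    have h1 : (1 : ℤ) ≤ n := by exact_mod_cast hn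
    have := hyn k
    nlinarith
  have ha : ∀ j, x t - 1 ≤ a j := by
    intro j
    obtain ⟨k, -, n, hn, hbj⟩ := h'.down' h ht' j
    have h1 : (1 : ℤ) ≤ n := by exact_mod_cast hn
    have := hxn k
    nlinarith
  -- the equation of degree `(x t, y z)`
  obtain ⟨j, hj⟩ := h'.up z hz2
  obtain ⟨k, hk, n, hn, hbj⟩ := h.down' h' hz' j
  have hn1 : n = 1 := by
    have h1 := hyn k
    by_contra hc
    have h2 : (2 : ℤ) ≤ n := by exact_mod_cast (by omega : 2 ≤ n)
    nlinarith
  rw [hn1, hj] at hbj
  have hyk : y k = 0 := by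
    push_cast at hbj
    linarith
  have hkt : k = t := ht' k hyk
  rw [hkt] at hk
  obtain ⟨l, hl1, hl2, hl3, hl4⟩ := h.ray j (h.a_pos h' j) (h'.a_pos h j)
  rw [hj, ← hk] at hl3
  rw [← hk] at hl4
  have hl5 : 2 * y l ≤ y z := by
    have h1 : 2 * y l * x t ≤ y z * x t := by nlinarith
    exact le_of_mul_le_mul_right h1 htp
  have hy1 : y l = 1 := by
    by_contra hc
    obtain ⟨j', hj'⟩ := h'.up l (by omega)
    have := hb j'
    omega
  have hx1 : x l = 1 := by
    by_contra hc
    obtain ⟨j', hj'⟩ := h.up l (by omega)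
    have := ha j'
    omega
  have := h.fail l (by omega)
  omega

end ExcData

end Pool.Agent.CIC
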