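import Pool.Agent.CIC.Ext
import Pool.Agent.CIC.Arith

/-!
# The number of variables of degree one on an extremal ray
-/

open MvPolynomial

namespace Pool.Agent.CIC

variable {ρ r c : ℕ} {w : Fin r → (Fin ρ → ℤ)} {μ : Fin c → (Fin ρ → ℤ)}
  {g : Fin c → MvPolynomial (Fin r) ℂ} {L : (Fin ρ → ℤ) →+ ℤ} {y : Fin r → ℂ}

/-- A set of equations whose linear parts are a basis of the span of all linear parts. -/
theorem exists_basis (w : Fin r → (Fin ρ → ℤ)) (g : Fin c → MvPolynomial (Fin r) ℂ)
    (L : (Fin ρ → ℤ) →+ ℤ) (y : Fin r → ℂ) :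
    ∃ B : Finset (Fin c), B.card = linearRank w g L y ∧
      (∀ j, (fun k : {k // 2 ≤ L (w k)} => eval y (pderiv k.1 (g j))) ∈
        Submodule.span ℂ ((fun j (k : {k // 2 ≤ L (w k)}) => eval y (pderiv k.1 (g j))) ''
          (B : Set (Fin c)))) ∧
      ∀ j ∈ B, ∃ k, 2 ≤ L (w k) ∧ eval y (pderiv k (g j)) ≠ 0 := by
  classical
  let v : Fin c → {k // 2 ≤ L (w k)} → ℂ := fun j k => eval y (pderiv k.1 (g j))
  obtain ⟨κ, a, ha, hspan, hli⟩ := exists_linearIndependent' ℂ v
  have hfin : Finite κ := Finite.of_injective a ha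
  have hft : Fintype κ := Fintype.ofFinite κ
  refine ⟨Finset.univ.image a, ?_, fun j => ?_, fun j hj => ?_⟩
  · rw [Finset.card_image_of_injective _ ha, Finset.card_univ, linearRank,
      Matrix.rank_eq_finrank_span_row]
    have h1 : (Matrix.of fun (j : Fin c) (k : {k // 2 ≤ L (w k)}) =>
        eval y (pderiv k.1 (g j))).row = v := rfl
    rw [h1, ← hspan, finrank_span_eq_card hli]
  · have h1 : (v '' ((Finset.univ.image a : Finset (Fin c)) : Set (Fin c))) =
        Set.range (v ∘ a) := by
      rw [Set.range_comp]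
      congr 1
      simp
    show v j ∈ Submodule.span ℂ (v '' ((Finset.univ.image a : Finset (Fin c)) : Set (Fin c)))
    rw [h1, hspan]
    exact Submodule.subset_span ⟨j, rfl⟩
  · obtain ⟨x, -, rfl⟩ := Finset.mem_image.mp hj
    have h1 : v (a x) ≠ 0 := hli.ne_zero x
    by_contra hcon
    push Not at hcon
    apply h1
    funext k
    exact hcon k.1 k.2

/-- If `∂ g_j / ∂ T_k (y)` is not zero, then `L(μ_j) = L(w_k)`. -/
theorem degree_eq (hX : IsFanoCompleteIntersection w μ g) (hW : IsRay w μ g L y) {j : Fin c}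
    {k : Fin r} (h : eval y (pderiv k (g j)) ≠ 0) : L (μ j) = L (w k) := by
  obtain ⟨n, hn, hn'⟩ := exists_of_eval_ne_zero h
  have h4 : L (Finsupp.weight w n) = 0 := by
    rw [L_weight]
    refine Finset.sum_eq_zero fun i _ => ?_
    by_cases hi : n i = 0
    · rw [hi]; simp
    · rw [hW.supp i (hn' i hi), mul_zero]
  rw [weight_of_mem_support_pderiv (hX.homogeneous j) k hn, map_sub] at h4
  omega

/-- `r ≤ e`. -/
theorem linearRank_le (hX : IsFanoCompleteIntersection w μ g) (hW : IsRay w μ g L y) :
    linearRank w g L y ≤ (positive μ L).card := by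
  obtain ⟨B, hB, -, hB''⟩ := exists_basis w g L y
  rw [← hB]
  apply Finset.card_le_card
  intro j hj
  obtain ⟨k, hk, hk'⟩ := hB'' j hj
  have := degree_eq hX hW hk'
  exact Finset.mem_filter.mpr ⟨Finset.mem_univ _, by omega⟩

/-- **Counting.** `ℓ ≤ δ` and `δ + e ≤ #M + r`. -/
theorem count (hX : IsFanoCompleteIntersection w μ g) (hW : IsRay w μ g L y) :
    L (anticanonical w μ) ≤ fibreDegree w μ L ∧
      fibreDegree w μ L + (positive μ L).card ≤ (degreeOne w L).card + linearRank w g L y := by
  classical
  refine ⟨by have := sum_ineq hX hW; unfold fibreDegree; omega, ?_⟩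
  obtain ⟨B, hB, hB', -⟩ := exists_basis w g L y
  have h1 := arith' (Finset.univ.filter fun k => 0 < L (w k))
    (Finset.univ.filter fun j => 0 < L (μ j)) (fun k => (L (w k)).toNat)
    (fun j => (L (μ j)).toNat) B (by
      intro k hk
      have := (Finset.mem_filter.mp hk).2
      omega) (by
      intro j hj
      have := (Finset.mem_filter.mp hj).2
      omega) (by
      intro h hh
      have key := card_dvd hX hW h hh B (by
        intro j hj
        let π : ({k // 2 ≤ L (w k)} → ℂ) →ₗ[ℂ] ({k // L (w k) = h} → ℂ) :=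
          LinearMap.funLeft ℂ ℂ fun k => ⟨k.1, by rw [k.2]; exact_mod_cast hh⟩
        have h2 := Submodule.mem_map_of_mem (f := π) (hB' j)
        rw [Submodule.map_span, Set.image_image] at h2
        exact h2)
      rw [Finset.filter_filter, Finset.filter_filter, Finset.filter_filter]
      have e : ∀ n : ℤ, (0 < n ∧ h ∣ n.toNat) ↔ (0 < n ∧ (h : ℤ) ∣ n) := by
        intro n
        refine and_congr_right fun hn => ?_
        rw [← Int.natCast_dvd_natCast, Int.toNat_of_nonneg hn.le]
      simp only [e]
      have h3 : (Finset.univ.filter fun j => 0 < L (μ j) ∧ (h : ℤ) ∣ L (μ j)).card =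
          (Finset.univ.filter fun j => h < L (μ j) ∧ (h : ℤ) ∣ L (μ j)).card +
            (Finset.univ.filter fun j => L (μ j) = h).card := by
        rw [← Finset.card_union_of_disjoint]
        · congr 1
          ext j
          simp only [Finset.mem_union, Finset.mem_filter, Finset.mem_univ, true_and]
          constructor
          · rintro ⟨h4, h5⟩
            have h6 := Int.le_of_dvd h4 h5
            rcases lt_or_eq_of_le h6 with h7 | h7
            · exact Or.inl ⟨h7, h5⟩
            · exact Or.inr h7.symm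
          · rintro (⟨h4, h5⟩ | h4)
            · exact ⟨by omega, h5⟩
            · rw [h4]
              exact ⟨by omega, dvd_rfl⟩
        · rw [Finset.disjoint_filter]
          intro j _ h4 h5
          omega
      have h4 : (Finset.univ.filter fun j => L (μ j) = h).card =
          (B.filter fun j => L (μ j) = h).card +
            (Finset.univ.filter fun j => 0 < L (μ j) ∧ (L (μ j)).toNat = h ∧ j ∉ B).card := by
        rw [← Finset.card_union_of_disjoint]
        · congr 1
          ext j
          simp only [Finset.mem_union, Finset.mem_filter, Finset.mem_univ, true_and]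
          constructor
          · intro h5
            by_cases h6 : j ∈ B
            · exact Or.inl ⟨h6, h5⟩
            · exact Or.inr ⟨by omega, by omega, h6⟩
          · rintro (⟨-, h5⟩ | ⟨h5, h6, -⟩)
            · exact h5
            · omega
        · rw [Finset.disjoint_left]
          intro j h5 h6
          exact (Finset.mem_filter.mp h6).2.2.2 (Finset.mem_filter.mp h5).1
      omega)
  rw [Finset.filter_filter] at h1
  have e1 : ∀ n : ℤ, (0 < n ∧ n.toNat = 1) ↔ n = 1 := by
    intro n
    omega
  simp only [e1] at h1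
  have e2 : ∑ k ∈ Finset.univ.filter (fun k => 0 < L (w k)), (((L (w k)).toNat : ℕ) : ℤ) =
      ∑ k ∈ Finset.univ.filter (fun k => 0 < L (w k)), L (w k) :=
    Finset.sum_congr rfl fun k hk => Int.toNat_of_nonneg (Finset.mem_filter.mp hk).2.le
  have e3 : ∑ j ∈ Finset.univ.filter (fun j => 0 < L (μ j)), (((L (μ j)).toNat : ℕ) : ℤ) =
      ∑ j ∈ Finset.univ.filter (fun j => 0 < L (μ j)), L (μ j) :=
    Finset.sum_congr rfl fun j hj => Int.toNat_of_nonneg (Finset.mem_filter.mp hj).2.le
  rw [e2, e3, hB] at h1
  unfold fibreDegree positive degreeOne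
  linarith

/-- If `Q` has more elements than there are active equations, then `κ` is in the cone of `y`
and `Q`. -/
theorem inCone_of_lt (hX : IsFanoCompleteIntersection w μ g) (hW : IsRay w μ g L y)
    (Q : Finset (Fin r)) (hQ : ∀ k ∈ Q, 0 < L (w k)) (J : Finset (Fin c))
    (hJ : ∀ j, 0 < L (μ j) → Active g y Q j → j ∈ J) (hcard : J.card < Q.card) :
    InCone w ({i | y i ≠ 0} ∪ Q) (anticanonical w μ) := by
  obtain ⟨z, hz, hz'⟩ := exists_point hX hW Q hQ J (by
    intro z hz hz' j hj
    by_cases h : Active g y Q j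
    · exact hz' j (hJ j hj h)
    · exact eval_of_not_active h hz) hcard
  obtain ⟨m, hm, n, hn, hn'⟩ := hW.semistable z hz
  exact ⟨m, hm, n, hn, fun i hi => hz' i (hn' i hi)⟩

/-- The same with one equation less, if `κ` is in the cone of `y` and `μ_j` for some `j`. -/
theorem inCone_of_le (hX : IsFanoCompleteIntersection w μ g) (hW : IsRay w μ g L y)
    (Q : Finset (Fin r)) (hQ : ∀ k ∈ Q, 0 < L (w k)) (j₀ : Fin c)
    (hj₀ : ∃ m : ℕ, 0 < m ∧ ∃ (n : Fin r →₀ ℕ) (s : ℕ), (∀ i, n i ≠ 0 → y i ≠ 0) ∧
      Finsupp.weight w n + s • μ j₀ = m • anticanonical w μ)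
    (hcard : (positive μ L).card ≤ Q.card) :
    InCone w ({i | y i ≠ 0} ∪ Q) (anticanonical w μ) := by
  classical
  obtain ⟨m, hm, n, s, hn, hs⟩ := hj₀
  by_cases hcase : Active g y Q j₀
  · obtain ⟨n', hn', hn''⟩ := hcase
    refine ⟨m, hm, n + s • n', ?_, ?_⟩
    · rw [map_add, map_nsmul]
      have h3 : Finsupp.weight w n' = μ j₀ := hX.homogeneous j₀ (mem_support_iff.mp hn')
      rw [h3, hs]
    · intro i hi
      rw [Set.mem_union, Set.mem_ofPred_eq]
      by_contra hcon
      push Not at hcon
      have h1 : n i = 0 := by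
        by_contra h
        exact (hn i h) hcon.1
      have h2 : n' i = 0 := by
        by_contra h
        rcases hn'' i h with h3 | h3
        · exact h3 hcon.1
        · exact hcon.2 h3
      apply hi
      rw [Finsupp.add_apply, Finsupp.smul_apply, h1, h2]
      simp
  · refine inCone_of_lt hX hW Q hQ ((positive μ L).erase j₀) ?_ ?_
    · intro j hj hj'
      rw [Finset.mem_erase]
      exact ⟨fun h => hcase (h ▸ hj'), Finset.mem_filter.mpr ⟨Finset.mem_univ _, hj⟩⟩
    · have hmem : j₀ ∈ positive μ L := by
        refine Finset.mem_filter.mpr ⟨Finset.mem_univ _, ?_⟩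
        have h1 := congrArg L hs
        rw [map_add, map_nsmul, map_nsmul, L_weight] at h1
        have h2 : ∑ i, (n i : ℤ) * L (w i) = 0 := by
          refine Finset.sum_eq_zero fun i _ => ?_
          by_cases hi : n i = 0
          · rw [hi]; simp
          · rw [hW.supp i (hn i hi), mul_zero]
        have h3 := L_kappa_pos hX hW
        rw [h2, zero_add, nsmul_eq_mul, nsmul_eq_mul] at h1
        have h4 : (0 : ℤ) < m := by exact_mod_cast hm
        have h5 : 0 < (s : ℤ) * L (μ j₀) := by rw [h1]; positivity
        by_contra hcon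
        have h6 := mul_nonpos_of_nonneg_of_nonpos (show (0 : ℤ) ≤ s by positivity)
          (not_lt.mp hcon)
        omega
      have := Finset.card_erase_lt_of_mem hmem
      omega

end Pool.Agent.CIC
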