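import Pool.Agent.FAC.Defs

/-!
# Smooth Fano varieties with a complete intersection Cox ring: definitions

`R = ℂ[T_1, …, T_r] / (g_1, …, g_c)` is graded by `K = ℤ ^ ρ`, `deg T_i = w i`, and `g_j` is
homogeneous of degree `μ j`. The class `κ = w_1 + ⋯ + w_r - μ_1 - ⋯ - μ_c` is the anticanonical
class, `U` is the set of points of `V(g_1, …, g_c)` which are semistable for `κ`, and
`X = U / H` for the torus `H = Hom(K, ℂˣ)`.
-/

open scoped ENNReal NNReal
open MvPolynomial

namespace Pool.Agent.CIC

variable {ρ r c : ℕ}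

/-- The anticanonical class `κ = w_1 + ⋯ + w_r - μ_1 - ⋯ - μ_c` (adjunction). -/
def anticanonical (w : Fin r → (Fin ρ → ℤ)) (μ : Fin c → (Fin ρ → ℤ)) : Fin ρ → ℤ :=
  ∑ i, w i - ∑ j, μ j

/-- The ideal `(g_1, …, g_c)`. -/
noncomputable abbrev relations (g : Fin c → MvPolynomial (Fin r) ℂ) :
    Ideal (MvPolynomial (Fin r) ℂ) := Ideal.span (Set.range g)

/-- The ring `R = ℂ[T_1, …, T_r] / (g_1, …, g_c)`. -/
abbrev CoxRing (g : Fin c → MvPolynomial (Fin r) ℂ) : Type :=
  MvPolynomial (Fin r) ℂ ⧸ relations g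

/-- The point `z` is a common zero of `g_1, …, g_c`. -/
def IsZero (g : Fin c → MvPolynomial (Fin r) ℂ) (z : Fin r → ℂ) : Prop := ∀ j, eval z (g j) = 0

/-- The elements of `R` of degree `m κ` (the sections of `-m K_X`). -/
noncomputable def sections (w : Fin r → (Fin ρ → ℤ)) (κ : Fin ρ → ℤ)
    (g : Fin c → MvPolynomial (Fin r) ℂ) (m : ℕ) : Set (CoxRing g) :=
  {f | ∃ p : MvPolynomial (Fin r) ℂ, IsWeightedHomogeneous w p (m • κ) ∧
    f = Ideal.Quotient.mk (relations g) p}

/-- The irrelevant ideal, generated by the elements of degree `m κ`, `m ≥ 1`. It defines the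
complement of the semistable locus `U` in `Spec R`. -/
noncomputable def irrelevant (w : Fin r → (Fin ρ → ℤ)) (κ : Fin ρ → ℤ)
    (g : Fin c → MvPolynomial (Fin r) ℂ) : Ideal (CoxRing g) :=
  Ideal.span {f | ∃ m, 0 < m ∧ f ∈ sections w κ g m}

/-- The data `w, μ, g` of a smooth Fano variety `X = U / H` with complete intersection Cox ring
`R = ℂ[T_1, …, T_r] / (g_1, …, g_c)`. -/
structure IsFanoCompleteIntersection (w : Fin r → (Fin ρ → ℤ)) (μ : Fin c → (Fin ρ → ℤ))
    (g : Fin c → MvPolynomial (Fin r) ℂ) : Prop where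
  /-- The degrees of the variables are in an open half-space (`X` is complete). -/
  pointed : ∃ h : (Fin ρ → ℤ) →+ ℤ, ∀ i, 0 < h (w i)
  /-- `g_j` is homogeneous of degree `μ_j`. -/
  homogeneous : ∀ j, IsWeightedHomogeneous w (g j) (μ j)
  /-- `R` is a domain. -/
  prime : (relations g).IsPrime
  /-- `R` is normal. -/
  normal : IsIntegrallyClosed (CoxRing g)
  /-- The variables are not zero in `R`. -/
  var_ne : ∀ i, X i ∉ relations g
  /-- `U` is not empty. -/
  nonempty : ∃ z, IsZero g z ∧ FAC.Semistable w (anticanonical w μ) z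
  /-- `U` is smooth of codimension `c`: the gradients of `g_1, …, g_c` are linearly independent
  at every point of `U`. -/
  smooth : ∀ z, IsZero g z → FAC.Semistable w (anticanonical w μ) z →
    LinearIndependent ℂ fun (j : Fin c) (i : Fin r) => eval z (pderiv i (g j))
  /-- `H` acts freely on `U`: for `z` in `U` the degrees of the variables which do not vanish at
  `z` generate `K = ℤ ^ ρ`. So `U → X` is a torsor and `X` is smooth. -/
  free : ∀ z, IsZero g z → FAC.Semistable w (anticanonical w μ) z →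
    Submodule.span ℤ (w '' {i | z i ≠ 0}) = ⊤
  /-- The complement of `U` in `Spec R` has codimension at least two. -/
  small : ∀ P : Ideal (CoxRing g), P.IsPrime → P.height ≤ 1 →
    ¬ irrelevant w (anticanonical w μ) g ≤ P

/-- The point `z` is in the fibre over `y` of the wall `L`: it is a common zero of the `g_j`, it
agrees with `y` on the variables with `L = 0`, its coordinates with `L < 0` vanish, and one of its
coordinates with `L > 0` does not vanish (so `z` tends to `y` under the one-parameter subgroup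
given by `L`). -/
def InFibre (w : Fin r → (Fin ρ → ℤ)) (g : Fin c → MvPolynomial (Fin r) ℂ)
    (L : (Fin ρ → ℤ) →+ ℤ) (y z : Fin r → ℂ) : Prop :=
  IsZero g z ∧ (∀ i, L (w i) = 0 → z i = y i) ∧ (∀ i, L (w i) < 0 → z i = 0) ∧
    ∃ i, 0 < L (w i) ∧ z i ≠ 0

/-- The properties of an extremal ray of `X` which are used: `L : K → ℤ` is the primitive
integral linear form on `K` defined by the ray (a facet of the nef cone of `X` is contained in the
hyperplane `L = 0`), and `y` is a point with closed orbit over the image of a curve contracted by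
the ray. So `y` is a common zero of the `g_j`, it is supported on the variables with `L = 0`, the
fibre over `y` is not empty, and all its points are in `U`. -/
structure IsRay (w : Fin r → (Fin ρ → ℤ)) (μ : Fin c → (Fin ρ → ℤ))
    (g : Fin c → MvPolynomial (Fin r) ℂ) (L : (Fin ρ → ℤ) →+ ℤ) (y : Fin r → ℂ) : Prop where
  surj : Function.Surjective L
  zero : IsZero g y
  supp : ∀ i, y i ≠ 0 → L (w i) = 0
  fibre : ∃ z, InFibre w g L y z
  semistable : ∀ z, InFibre w g L y z → FAC.Semistable w (anticanonical w μ) z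

/-- The rank of the Jacobian matrix `∂ g_j / ∂ T_k (y)`, `k` with `L(w_k) ≥ 2`. It is the number of
equations which, along the fibre over `y`, can be solved for a variable of degree at least two. -/
noncomputable def linearRank (w : Fin r → (Fin ρ → ℤ)) (g : Fin c → MvPolynomial (Fin r) ℂ)
    (L : (Fin ρ → ℤ) →+ ℤ) (y : Fin r → ℂ) : ℕ :=
  (Matrix.of fun (j : Fin c) (k : {k // 2 ≤ L (w k)}) => eval y (pderiv k.1 (g j))).rank

/-- `δ`, the degree of `-K` of the fibre: the sum of the `L(w_k) > 0` minus the sum of the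
`L(μ_j) > 0`. -/
def fibreDegree (w : Fin r → (Fin ρ → ℤ)) (μ : Fin c → (Fin ρ → ℤ)) (L : (Fin ρ → ℤ) →+ ℤ) : ℤ :=
  ∑ k ∈ Finset.univ.filter (fun k => 0 < L (w k)), L (w k) -
    ∑ j ∈ Finset.univ.filter (fun j => 0 < L (μ j)), L (μ j)

/-- The variables of degree one on the ray. -/
def degreeOne (w : Fin r → (Fin ρ → ℤ)) (L : (Fin ρ → ℤ) →+ ℤ) : Finset (Fin r) :=
  Finset.univ.filter fun k => L (w k) = 1

/-- The equations of positive degree on the ray. -/
def positive (μ : Fin c → (Fin ρ → ℤ)) (L : (Fin ρ → ℤ) →+ ℤ) : Finset (Fin c) :=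
  Finset.univ.filter fun j => 0 < L (μ j)

/-- The equation `j` does not vanish identically on `y + ℂ ^ Q`: it has a monomial in the
variables which do not vanish at `y` and the variables in `Q`. -/
def Active (g : Fin c → MvPolynomial (Fin r) ℂ) (y : Fin r → ℂ) (Q : Finset (Fin r))
    (j : Fin c) : Prop := ∃ n ∈ (g j).support, ∀ i, n i ≠ 0 → y i ≠ 0 ∨ i ∈ Q

open Classical in
/-- The equations of positive degree on the ray which have a monomial in the variables which do
not vanish at `y` and the variables of degree one. -/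
noncomputable def activeEqs (w : Fin r → (Fin ρ → ℤ)) (μ : Fin c → (Fin ρ → ℤ))
    (g : Fin c → MvPolynomial (Fin r) ℂ) (L : (Fin ρ → ℤ) →+ ℤ) (y : Fin r → ℂ) :
    Finset (Fin c) :=
  Finset.univ.filter fun j => 0 < L (μ j) ∧ Active g y (degreeOne w L) j

open Classical in
/-- `ρ` if `y = 0`, and `ρ - 1` otherwise. For an extremal ray `y = 0` if and only if `ρ = 1`. -/
noncomputable def rankBound (ρ : ℕ) (y : Fin r → ℂ) : ℕ := if y = 0 then ρ else ρ - 1

/-- The class `κ` is in the cone generated by the degrees of the variables in `S`. -/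
def InCone (w : Fin r → (Fin ρ → ℤ)) (S : Set (Fin r)) (κ : Fin ρ → ℤ) : Prop :=
  ∃ m : ℕ, 0 < m ∧ ∃ n : Fin r →₀ ℕ, Finsupp.weight w n = m • κ ∧ ∀ i, n i ≠ 0 → i ∈ S

/-- The alpha invariant of `X`: the infimum of the log canonical thresholds of the effective
`ℚ`-divisors `D = (1/m) div f`, `m ≥ 1`, `f ≠ 0` a section of `m κ = -m K_X`. -/
noncomputable def alpha (w : Fin r → (Fin ρ → ℤ)) (κ : Fin ρ → ℤ)
    (g : Fin c → MvPolynomial (Fin r) ℂ) [(relations g).IsPrime] : ℝ≥0∞ :=
  ⨅ (m : ℕ) (_ : 0 < m) (f : CoxRing g) (_ : f ∈ sections w κ g m) (_ : f ≠ 0),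
    FAC.lct (irrelevant w κ g) m f

end Pool.Agent.CIC
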