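import Pool.Agent.CIC.Comb
import Pool.Agent.CIC.Alpha

/-!
# Picard number two: the exceptional case

The equalities of the count in the exceptional case give the data of `Comb.lean`, and so a
contradiction.
-/

open MvPolynomial

namespace Pool.Agent.CIC

variable {ρ r c : ℕ} {w : Fin r → (Fin ρ → ℤ)} {μ : Fin c → (Fin ρ → ℤ)}
  {g : Fin c → MvPolynomial (Fin r) ℂ} {L : (Fin ρ → ℤ) →+ ℤ} {y : Fin r → ℂ}

/-- The presentation is minimal: no equation has a linear monomial. -/
def Minimal (g : Fin c → MvPolynomial (Fin r) ℂ) : Prop :=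
  ∀ j k, coeff (Finsupp.single k 1) (g j) = 0

theorem exists_mono (hX : IsFanoCompleteIntersection w μ g) (hmin : Minimal g) {z : Fin r → ℂ}
    {j : Fin c} {k : Fin r} (h : eval z (pderiv k (g j)) ≠ 0) :
    ∃ n : Fin r →₀ ℕ, n ≠ 0 ∧ (∀ i, n i ≠ 0 → z i ≠ 0) ∧ Finsupp.weight w n = μ j - w k := by
  obtain ⟨n, hn, hn'⟩ := exists_of_eval_ne_zero h
  refine ⟨n, ?_, hn', weight_of_mem_support_pderiv (hX.homogeneous j) k hn⟩
  rintro rfl
  rw [mem_support_iff, coeff_pderiv, zero_add, hmin j k, zero_mul] at hn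
  exact hn rfl

theorem card_split {m : ℕ} (F : Fin m → ℤ) (h : ℕ) (h0 : 0 < h) :
    (Finset.univ.filter fun j => 0 < F j ∧ (h : ℤ) ∣ F j).card =
      (Finset.univ.filter fun j => (h : ℤ) < F j ∧ (h : ℤ) ∣ F j).card +
        (Finset.univ.filter fun j => F j = h).card := by
  rw [← Finset.card_union_of_disjoint]
  · congr 1
    ext j
    simp only [Finset.mem_union, Finset.mem_filter, Finset.mem_univ, true_and]
    constructor
    · rintro ⟨h4, h5⟩
      have h6 := Int.le_of_dvd h4 h5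
      rcases lt_or_eq_of_le h6 with h7 | h7
      · exact Or.inl ⟨h7, h5⟩
      · exact Or.inr h7.symm
    · rintro (⟨h4, h5⟩ | h4)
      · exact ⟨by omega, h5⟩
      · rw [h4]
        exact ⟨by omega, dvd_rfl⟩
  · rw [Finset.disjoint_filter]
    intro j _ h4 h5
    omega

/-- The linear part of an equation with `L(μ_j) ≥ 2` is not zero. -/
theorem exc_down (hX : IsFanoCompleteIntersection w μ g) (hW : IsRay w μ g L y)
    (hn : ∀ h : ℕ, 2 ≤ h → (Finset.univ.filter fun k => 0 < L (w k) ∧ (h : ℤ) ∣ L (w k)).card =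
      (Finset.univ.filter fun j => 0 < L (μ j) ∧ (h : ℤ) ∣ L (μ j)).card) (j : Fin c)
    (hj : 2 ≤ L (μ j)) : ∃ k, L (w k) = L (μ j) ∧ eval y (pderiv k (g j)) ≠ 0 := by
  classical
  by_contra hcon
  push Not at hcon
  obtain ⟨h, hh⟩ : ∃ h : ℕ, L (μ j) = h := ⟨(L (μ j)).toNat, by omega⟩
  have hh2 : 2 ≤ h := by omega
  set R := (Finset.univ.filter fun j' => L (μ j') = h).erase j with hR
  have h1 := card_dvd hX hW h hh2 R (by
    intro j' hj'
    by_cases hjj : j' = j
    · have h2 : (fun k : {k // L (w k) = h} => eval y (pderiv k.1 (g j'))) = 0 := by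
        funext k
        rw [hjj]
        exact hcon k.1 (by rw [k.2, hh])
      rw [h2]
      exact zero_mem _
    · exact Submodule.subset_span ⟨j', Finset.mem_coe.2 (Finset.mem_erase.2 ⟨hjj,
        Finset.mem_filter.2 ⟨Finset.mem_univ _, hj'⟩⟩), rfl⟩)
  rw [hn h hh2, card_split (fun j => L (μ j)) h (by omega)] at h1
  have h2 : (R.filter fun j => L (μ j) = h).card ≤ R.card := Finset.card_filter_le _ _
  have h3 : R.card < (Finset.univ.filter fun j' => L (μ j') = h).card :=
    Finset.card_erase_lt_of_mem (Finset.mem_filter.2 ⟨Finset.mem_univ _, hh⟩)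
  omega

/-- If the numbers of multiples of `h` agree for all `h ≥ 2`, then the numbers of elements equal
to `v` agree for all `v ≥ 2`. -/
theorem card_eq_of_dvd {m n : ℕ} (F : Fin m → ℤ) (G : Fin n → ℤ)
    (h : ∀ h : ℕ, 2 ≤ h → (Finset.univ.filter fun k => 0 < F k ∧ (h : ℤ) ∣ F k).card =
      (Finset.univ.filter fun j => 0 < G j ∧ (h : ℤ) ∣ G j).card) (v : ℕ) (hv : 2 ≤ v) :
    (Finset.univ.filter fun k => F k = v).card = (Finset.univ.filter fun j => G j = v).card := by
  obtain ⟨N, hN1, hN2⟩ : ∃ N : ℕ, (∀ i, F i ≤ N) ∧ ∀ i, G i ≤ N := by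
    refine ⟨∑ i, (F i).toNat + ∑ i, (G i).toNat, fun i => ?_, fun i => ?_⟩
    · have h1 : (F i).toNat ≤ ∑ i, (F i).toNat :=
        Finset.single_le_sum (f := fun i => (F i).toNat) (fun _ _ => Nat.zero_le _)
          (Finset.mem_univ i)
      have h2 : F i ≤ ((F i).toNat : ℤ) := Int.self_le_toNat _
      push_cast
      have h3 : ((F i).toNat : ℤ) ≤ ∑ i, ((F i).toNat : ℤ) := by exact_mod_cast h1
      have h4 : (0 : ℤ) ≤ ∑ i, ((G i).toNat : ℤ) :=
        Finset.sum_nonneg fun _ _ => Int.natCast_nonneg _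
      linarith
    · have h1 : (G i).toNat ≤ ∑ i, (G i).toNat :=
        Finset.single_le_sum (f := fun i => (G i).toNat) (fun _ _ => Nat.zero_le _)
          (Finset.mem_univ i)
      have h2 : G i ≤ ((G i).toNat : ℤ) := Int.self_le_toNat _
      push_cast
      have h3 : ((G i).toNat : ℤ) ≤ ∑ i, ((G i).toNat : ℤ) := by exact_mod_cast h1
      have h4 : (0 : ℤ) ≤ ∑ i, ((F i).toNat : ℤ) :=
        Finset.sum_nonneg fun _ _ => Int.natCast_nonneg _
      linarith
  have key : ∀ d v : ℕ, 2 ≤ v → N + 1 ≤ v + d →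
      (Finset.univ.filter fun k => F k = v).card =
        (Finset.univ.filter fun j => G j = v).card := by
    intro d
    induction d using Nat.strong_induction_on with
    | _ d ih =>
      intro v hv hd
      have h1 := h v hv
      rw [card_split F v (by omega), card_split G v (by omega)] at h1
      have fib : ∀ {m : ℕ} (F : Fin m → ℤ), (∀ i, F i ≤ N) →
          (Finset.univ.filter fun k => (v : ℤ) < F k ∧ (v : ℤ) ∣ F k).card =
            ∑ u ∈ (Finset.Ioc v N).filter (fun u => v ∣ u),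
              (Finset.univ.filter fun k => F k = u).card := by
        intro m F hF
        rw [Finset.card_eq_sum_card_fiberwise (f := fun k => (F k).toNat)
          (t := (Finset.Ioc v N).filter (fun u => v ∣ u))]
        · refine Finset.sum_congr rfl fun u hu => ?_
          congr 1
          ext k
          have hu' := Finset.mem_filter.1 hu
          have hu1 := Finset.mem_Ioc.1 hu'.1
          simp only [Finset.mem_filter, Finset.mem_univ, true_and]
          constructor
          · rintro ⟨⟨h2, h3⟩, h4⟩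
            omega
          · intro h2
            refine ⟨⟨by omega, ?_⟩, by omega⟩
            rw [h2]
            exact_mod_cast hu'.2
        · intro k hk
          have hk' := (Finset.mem_filter.1 hk).2
          have h5 := hF k
          rw [Finset.mem_coe, Finset.mem_filter, Finset.mem_Ioc]
          change (v < (F k).toNat ∧ (F k).toNat ≤ N) ∧ v ∣ (F k).toNat
          refine ⟨⟨by omega, by omega⟩, ?_⟩
          have h6 : ((F k).toNat : ℤ) = F k := Int.toNat_of_nonneg (by omega)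
          have h7 : (v : ℤ) ∣ ((F k).toNat : ℤ) := by rw [h6]; exact hk'.2
          exact_mod_cast h7
      rw [fib F hN1, fib G hN2] at h1
      have h2 : ∑ u ∈ (Finset.Ioc v N).filter (fun u => v ∣ u),
            (Finset.univ.filter fun k => F k = u).card =
          ∑ u ∈ (Finset.Ioc v N).filter (fun u => v ∣ u),
            (Finset.univ.filter fun k => G k = u).card := by
        refine Finset.sum_congr rfl fun u hu => ?_
        have hu1 := Finset.mem_Ioc.1 (Finset.mem_filter.1 hu).1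
        rcases Nat.lt_or_ge (v + d) (N + 1) with h3 | h3
        · omega
        · exact ih (N + 1 - u) (by omega) u (by omega) (by omega)
      omega
  exact key (N + 1) v hv (by omega)

/-- The matching in negative degrees. -/
theorem exc_neg (hX : IsFanoCompleteIntersection w μ g) {z : Fin r → ℂ}
    (hz : IsZero g z) (hs : FAC.Semistable w (anticanonical w μ) z)
    (hzn : ∀ i, L (w i) < 0 → z i = 0)
    (hnu : ∑ k ∈ Finset.univ.filter (fun k => L (w k) < 0), L (w k) +
        (Finset.univ.filter (fun k => L (w k) < 0)).card =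
      ∑ j ∈ Finset.univ.filter (fun j => L (μ j) < 0), L (μ j) +
        (Finset.univ.filter (fun j => L (μ j) < 0)).card) :
    (∀ k, L (w k) ≤ -2 → ∃ j, L (μ j) = L (w k)) ∧
      ∀ j, L (μ j) < 0 → ∃ k, L (w k) = L (μ j) ∧ eval z (pderiv k (g j)) ≠ 0 := by
  classical
  have hlin := hX.smooth z hz hs
  have hlin' : LinearIndependent ℂ fun (j : {j : Fin c // L (μ j) < 0}) (i : Fin r) =>
      eval z (pderiv i (g j)) := hlin.comp (fun j : {j : Fin c // L (μ j) < 0} => (j : Fin c))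
        Subtype.val_injective
  obtain ⟨f, hf, hf'⟩ := exists_matching _ hlin'
  have h1 : ∀ j : {j : Fin c // L (μ j) < 0}, L (w (f j)) ≤ L (μ j) := fun j =>
    eval_pderiv_ne_zero (hX.homogeneous j) hzn (hf' j)
  set V := Finset.univ.filter (fun k => L (w k) < 0) with hV
  set J := Finset.univ.filter (fun j => L (μ j) < 0) with hJ
  have hsub : Finset.univ.image f ⊆ V := by
    intro k hk
    obtain ⟨j, -, rfl⟩ := Finset.mem_image.mp hk
    rw [hV, Finset.mem_filter]
    exact ⟨Finset.mem_univ _, (h1 j).trans_lt j.2⟩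
  have hcardim : (Finset.univ.image f).card = J.card := by
    rw [Finset.card_image_of_injective _ hf, Finset.card_univ, Fintype.card_subtype]
  have e1 : ∑ j ∈ J, L (μ j) = ∑ j : {j : Fin c // L (μ j) < 0}, L (μ j) := by
    rw [← Finset.sum_subtype J (fun j => by simp [hJ]) (fun j => L (μ j))]
  have e2 : ∑ k ∈ V, L (w k) = ∑ k ∈ V \ Finset.univ.image f, L (w k) +
      ∑ j : {j : Fin c // L (μ j) < 0}, L (w (f j)) := by
    rw [← Finset.sum_sdiff hsub, Finset.sum_image fun a _ b _ h => hf h]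
  have e3 : (V \ Finset.univ.image f).card + J.card = V.card := by
    rw [← hcardim, Finset.card_sdiff_add_card_eq_card hsub]
  have e4 : ∑ k ∈ V \ Finset.univ.image f, (-1 - L (w k)) =
      -((V \ Finset.univ.image f).card : ℤ) - ∑ k ∈ V \ Finset.univ.image f, L (w k) := by
    rw [Finset.sum_sub_distrib, Finset.sum_const, smul_neg, nsmul_eq_mul, mul_one]
  have e5 : ∑ j : {j : Fin c // L (μ j) < 0}, (L (μ j) - L (w (f j))) =
      ∑ j : {j : Fin c // L (μ j) < 0}, L (μ j) -
        ∑ j : {j : Fin c // L (μ j) < 0}, L (w (f j)) := Finset.sum_sub_distrib _ _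
  have n1 : ∀ k ∈ V \ Finset.univ.image f, 0 ≤ -1 - L (w k) := by
    intro k hk
    have := (Finset.mem_filter.1 (Finset.mem_sdiff.1 hk).1).2
    omega
  have n2 : ∀ j ∈ (Finset.univ : Finset {j : Fin c // L (μ j) < 0}),
      0 ≤ L (μ j) - L (w (f j)) := fun j _ => by have := h1 j; omega
  have s1 := Finset.sum_nonneg n1
  have s2 := Finset.sum_nonneg n2
  have e3' : ((V \ Finset.univ.image f).card : ℤ) + J.card = V.card := by exact_mod_cast e3
  have z1 : ∑ k ∈ V \ Finset.univ.image f, (-1 - L (w k)) = 0 := by linarith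
  have z2 : ∑ j : {j : Fin c // L (μ j) < 0}, (L (μ j) - L (w (f j))) = 0 := by linarith
  have f1 := (Finset.sum_eq_zero_iff_of_nonneg n1).1 z1
  have f2 := (Finset.sum_eq_zero_iff_of_nonneg n2).1 z2
  refine ⟨fun k hk => ?_, fun j hj => ?_⟩
  · have hkV : k ∈ V := Finset.mem_filter.2 ⟨Finset.mem_univ _, by omega⟩
    by_cases hki : k ∈ Finset.univ.image f
    · obtain ⟨j, -, rfl⟩ := Finset.mem_image.mp hki
      exact ⟨j, by have := f2 j (Finset.mem_univ _); omega⟩
    · have := f1 k (Finset.mem_sdiff.2 ⟨hkV, hki⟩)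
      omega
  · exact ⟨f ⟨j, hj⟩, (sub_eq_zero.1 (f2 ⟨j, hj⟩ (Finset.mem_univ _))).symm, hf' ⟨j, hj⟩⟩

/-- If there is no nonzero common zero supported in `Q`, then there are at least `#Q` equations
which do not vanish identically on `ℂ ^ Q`. -/
theorem card_le_active (hX : IsFanoCompleteIntersection w μ g) (Q : Finset (Fin r))
    (hQ : ∀ z, IsZero g z → (∀ i, z i ≠ 0 → i ∈ Q) → z = 0) (J : Finset (Fin c))
    (hJ : ∀ j, (∃ n ∈ (g j).support, ∀ i, n i ≠ 0 → i ∈ Q) → j ∈ J) : Q.card ≤ J.card := by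
  classical
  by_contra hcard
  rw [not_le] at hcard
  let φ : Fin r → MvPolynomial Q ℂ := fun i => if h : i ∈ Q then X ⟨i, h⟩ else 0
  let e := J.equivFin
  let F : Fin J.card → MvPolynomial Q ℂ := fun a => bind₁ φ (g (e.symm a))
  let pt : (Q → ℂ) → Fin r → ℂ := fun t i => if h : i ∈ Q then t ⟨i, h⟩ else 0
  have heval : ∀ (t : Q → ℂ) (p : MvPolynomial (Fin r) ℂ),
      eval t (bind₁ φ p) = eval (pt t) p := by
    intro t p
    have h1 : (aeval t : MvPolynomial Q ℂ →ₐ[ℂ] ℂ).comp (bind₁ φ) =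
        (aeval (pt t) : MvPolynomial (Fin r) ℂ →ₐ[ℂ] ℂ) := by
      apply MvPolynomial.algHom_ext
      intro i
      rw [AlgHom.comp_apply, bind₁_X_right, aeval_X]
      by_cases hi : i ∈ Q
      · simp [φ, pt, hi]
      · simp [φ, pt, hi]
    have h2 := DFunLike.congr_fun h1 p
    simpa [MvPolynomial.aeval_eq_eval] using h2
  have hpt0 : pt 0 = 0 := by
    ext i
    by_cases hi : i ∈ Q
    · simp [pt, hi]
    · simp [pt, hi]
  obtain ⟨t, ht, ht'⟩ := KRL.exists_ne_zero_of_lt (σ := Q)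
    (by rw [Nat.card_eq_fintype_card, Fintype.card_coe]; exact hcard) F 0 (by
      intro a
      show eval 0 (bind₁ φ (g (e.symm a))) = 0
      rw [heval, hpt0]
      exact isZero_zero hX _)
  have hsupp : ∀ i, pt t i ≠ 0 → i ∈ Q := by
    intro i hi
    by_contra h
    exact hi (by simp [pt, h])
  have hzero : IsZero g (pt t) := by
    intro j
    by_cases hj : j ∈ J
    · have h1 := ht' (e ⟨j, hj⟩)
      have h2 : F (e ⟨j, hj⟩) = bind₁ φ (g j) := by
        show bind₁ φ (g (e.symm (e ⟨j, hj⟩))) = _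
        rw [Equiv.symm_apply_apply]
      rw [h2, heval] at h1
      exact h1
    · apply eval_eq_zero
      intro n hn
      by_contra hcon
      push Not at hcon
      exact hj (hJ j ⟨n, hn, fun i hi => hsupp i (hcon i hi)⟩)
  have h3 := hQ _ hzero hsupp
  apply ht
  ext i
  have h4 := congrFun h3 i.1
  simpa [pt] using h4

/-- No equation has a constant term. -/
theorem ne_zero_of_mem (hX : IsFanoCompleteIntersection w μ g) {j : Fin c} {n : Fin r →₀ ℕ}
    (hn : n ∈ (g j).support) : n ≠ 0 := by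
  rintro rfl
  have h2 : eval (0 : Fin r → ℂ) (g j) = 0 := isZero_zero hX j
  rw [MvPolynomial.eval_zero, constantCoeff_eq] at h2
  exact (mem_support_iff.mp hn) h2

theorem exists_ne {n : Fin r →₀ ℕ} (hn : n ≠ 0) : ∃ i, n i ≠ 0 := by
  by_contra hcon
  push Not at hcon
  exact hn (Finsupp.ext hcon)

variable {L₁ L₂ : (Fin ρ → ℤ) →+ ℤ}

/-- Every equation in the open quadrant has a monomial in variables on its own ray. -/
theorem exc_ray (hX : IsFanoCompleteIntersection w μ g)
    (hF : ∀ z, IsZero g z → (∀ k, z k ≠ 0 → 0 < L₁ (w k) ∧ 0 < L₂ (w k)) → z = 0)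
    (hM : (Finset.univ.filter fun k => 0 < L₁ (w k) ∧ 0 < L₂ (w k)).card =
      (Finset.univ.filter fun j => 0 < L₁ (μ j) ∧ 0 < L₂ (μ j)).card)
    (j : Fin c) (h1 : 0 < L₁ (μ j)) (h2 : 0 < L₂ (μ j)) :
    ∃ n ∈ (g j).support, ∀ i, n i ≠ 0 → 0 < L₁ (w i) ∧ 0 < L₂ (w i) ∧
      L₁ (w i) * L₂ (μ j) = L₂ (w i) * L₁ (μ j) := by
  classical
  set s : (Fin ρ → ℤ) → ℚ := fun v => (L₂ v : ℚ) / L₁ v with hs
  have hslope : ∀ u v : Fin ρ → ℤ, 0 < L₁ u → 0 < L₁ v →
      (s u = s v ↔ L₁ u * L₂ v = L₂ u * L₁ v) := by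
    intro u v hu hv
    have hu' : (L₁ u : ℚ) ≠ 0 := by exact_mod_cast hu.ne'
    have hv' : (L₁ v : ℚ) ≠ 0 := by exact_mod_cast hv.ne'
    rw [hs]
    simp only
    rw [div_eq_div_iff hu' hv']
    constructor
    · intro h
      have h3 : L₂ u * L₁ v = L₂ v * L₁ u := by exact_mod_cast h
      rw [h3]; ring
    · intro h
      have h3 : L₂ u * L₁ v = L₂ v * L₁ u := by rw [← h]; ring
      exact_mod_cast h3
  set M := Finset.univ.filter fun k => 0 < L₁ (w k) ∧ 0 < L₂ (w k) with hMdef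
  set Jm := Finset.univ.filter fun j => 0 < L₁ (μ j) ∧ 0 < L₂ (μ j) with hJm
  set A := Jm.filter fun j => ∃ n ∈ (g j).support, ∀ i, n i ≠ 0 → 0 < L₁ (w i) ∧
    0 < L₂ (w i) ∧ L₁ (w i) * L₂ (μ j) = L₂ (w i) * L₁ (μ j) with hA
  have hfib : ∀ q : ℚ, (M.filter fun k => s (w k) = q).card ≤
      (A.filter fun j => s (μ j) = q).card := by
    intro q
    apply card_le_active hX
    · intro z hz hz'
      refine hF z hz fun k hk => ?_
      exact (Finset.mem_filter.1 (Finset.mem_filter.1 (hz' k hk)).1).2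
    · rintro j' ⟨n, hn, hn'⟩
      have hw : Finsupp.weight w n = μ j' := hX.homogeneous j' (mem_support_iff.mp hn)
      have hi' : ∀ i, n i ≠ 0 → 0 < L₁ (w i) ∧ 0 < L₂ (w i) ∧ s (w i) = q := by
        intro i hi
        have h3 := Finset.mem_filter.1 (hn' i hi)
        have h4 := (Finset.mem_filter.1 h3.1).2
        exact ⟨h4.1, h4.2, h3.2⟩
      obtain ⟨i₀, hi₀⟩ := exists_ne (ne_zero_of_mem hX hn)
      have p1 : 0 < L₁ (μ j') := by
        rw [← hw, L_weight]
        refine Finset.sum_pos' (fun i _ => ?_) ⟨i₀, Finset.mem_univ _, ?_⟩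
        · by_cases h : n i = 0
          · rw [h]; simp
          · have := (hi' i h).1
            positivity
        · have h3 : 0 < n i₀ := Nat.pos_of_ne_zero hi₀
          have := (hi' i₀ hi₀).1
          positivity
      have p2 : 0 < L₂ (μ j') := by
        rw [← hw, L_weight]
        refine Finset.sum_pos' (fun i _ => ?_) ⟨i₀, Finset.mem_univ _, ?_⟩
        · by_cases h : n i = 0
          · rw [h]; simp
          · have := (hi' i h).2.1
            positivity
        · have h3 : 0 < n i₀ := Nat.pos_of_ne_zero hi₀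
          have := (hi' i₀ hi₀).2.1
          positivity
      have p3 : s (μ j') = s (w i₀) := by
        rw [hslope _ _ p1 (hi' i₀ hi₀).1, ← hw, L_weight, L_weight, Finset.sum_mul,
          Finset.sum_mul]
        refine Finset.sum_congr rfl fun i _ => ?_
        by_cases h : n i = 0
        · rw [h]; simp
        · have h3 := (hslope (w i) (w i₀) (hi' i h).1 (hi' i₀ hi₀).1).1
            (by rw [(hi' i h).2.2, (hi' i₀ hi₀).2.2])
          rw [mul_assoc, h3, ← mul_assoc]
      rw [Finset.mem_filter, hA, Finset.mem_filter, hJm, Finset.mem_filter]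
      refine ⟨⟨⟨Finset.mem_univ _, p1, p2⟩, n, hn, fun i hi => ?_⟩, ?_⟩
      · refine ⟨(hi' i hi).1, (hi' i hi).2.1, ?_⟩
        rw [← hslope _ _ (hi' i hi).1 p1, p3, (hi' i hi).2.2, (hi' i₀ hi₀).2.2]
      · rw [p3, (hi' i₀ hi₀).2.2]
  have hcard : M.card ≤ A.card := by
    calc M.card = ∑ q ∈ M.image (fun k => s (w k)), (M.filter fun k => s (w k) = q).card :=
          Finset.card_eq_sum_card_image _ _
      _ ≤ ∑ q ∈ M.image (fun k => s (w k)), (A.filter fun j => s (μ j) = q).card :=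
          Finset.sum_le_sum fun q _ => hfib q
      _ = (A.filter fun j => s (μ j) ∈ M.image (fun k => s (w k))).card := by
          have h8 := Finset.card_eq_sum_card_fiberwise (f := fun j => s (μ j))
            (s := A.filter fun j => s (μ j) ∈ M.image (fun k => s (w k)))
            (t := M.image (fun k => s (w k))) (fun j hj => (Finset.mem_filter.1 hj).2)
          rw [h8]
          refine Finset.sum_congr rfl fun q hq => ?_
          congr 1
          ext j'
          simp only [Finset.mem_filter]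
          constructor
          · rintro ⟨h3, h4⟩
            exact ⟨⟨h3, by rw [h4]; exact hq⟩, h4⟩
          · rintro ⟨⟨h3, -⟩, h4⟩
            exact ⟨h3, h4⟩
      _ ≤ A.card := Finset.card_filter_le _ _
  have hAJ : A = Jm := Finset.eq_of_subset_of_card_le (Finset.filter_subset _ _) (by omega)
  have hj : j ∈ A := by
    rw [hAJ, hJm, Finset.mem_filter]
    exact ⟨Finset.mem_univ _, h1, h2⟩
  exact (Finset.mem_filter.1 hj).2

/-- The data of the first ray in the exceptional case. -/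
theorem excData (hX : IsFanoCompleteIntersection w μ g) (h₁ : IsRay w μ g L₁ y)
    (hmin : Minimal g)
    (hF : ∀ z, IsZero g z → (∀ k, z k ≠ 0 → 0 < L₁ (w k) ∧ 0 < L₂ (w k)) → z = 0)
    (hpos : ∀ k, L₁ (w k) ≤ 0 → 0 < L₂ (w k))
    (hfail : ∀ k, L₁ (w k) ≤ L₂ (w k) → 2 ≤ L₂ (w k))
    (hcard : (Finset.univ.filter fun k => L₁ (w k) = 0).card =
      (Finset.univ.filter fun j => L₁ (μ j) = 0).card + 1)
    (hnu : ∑ k ∈ Finset.univ.filter (fun k => L₁ (w k) < 0), L₁ (w k) +
        (Finset.univ.filter (fun k => L₁ (w k) < 0)).card =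
      ∑ j ∈ Finset.univ.filter (fun j => L₁ (μ j) < 0), L₁ (μ j) +
        (Finset.univ.filter (fun j => L₁ (μ j) < 0)).card)
    (hn : ∀ h : ℕ, 2 ≤ h → (Finset.univ.filter fun k => 0 < L₁ (w k) ∧ (h : ℤ) ∣ L₁ (w k)).card =
      (Finset.univ.filter fun j => 0 < L₁ (μ j) ∧ (h : ℤ) ∣ L₁ (μ j)).card)
    (hM : (Finset.univ.filter fun k => 0 < L₁ (w k) ∧ 0 < L₂ (w k)).card =
      (Finset.univ.filter fun j => 0 < L₁ (μ j) ∧ 0 < L₂ (μ j)).card) :
    ExcData (fun k => L₁ (w k)) (fun k => L₂ (w k)) (fun j => L₁ (μ j))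
      (fun j => L₂ (μ j)) := by
  classical
  obtain ⟨z, hz⟩ := h₁.fibre
  have hs := h₁.semistable z hz
  obtain ⟨hneg1, hneg2⟩ := exc_neg hX hz.1 hs hz.2.2.1 hnu
  refine ⟨hpos, hfail, fun k hk => ?_, fun j hj => ?_, hneg1, fun j hj => ?_, fun j hj => ?_,
    hcard, fun j ha hb => ?_⟩
  · -- up
    obtain ⟨v, hv⟩ : ∃ v : ℕ, L₁ (w k) = v := ⟨(L₁ (w k)).toNat, by omega⟩
    have h1 := card_eq_of_dvd (fun k => L₁ (w k)) (fun j => L₁ (μ j)) hn v (by omega)
    have h2 : 0 < (Finset.univ.filter fun k => L₁ (w k) = v).card :=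
      Finset.card_pos.2 ⟨k, Finset.mem_filter.2 ⟨Finset.mem_univ _, hv⟩⟩
    rw [h1] at h2
    obtain ⟨j, hj⟩ := Finset.card_pos.1 h2
    exact ⟨j, by rw [hv]; exact (Finset.mem_filter.1 hj).2⟩
  · -- down
    obtain ⟨k, hk, hk'⟩ := exc_down hX h₁ hn j hj
    obtain ⟨n, hn0, hn1, hn2⟩ := exists_mono hX hmin hk'
    refine ⟨k, hk, n, ?_, fun i hi => h₁.supp i (hn1 i hi), ?_⟩
    · intro h0
      exact hn0 (Finsupp.ext fun i => congrFun h0 i)
    · have h1 := congrArg L₂ hn2
      rw [L_weight, map_sub] at h1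
      linarith
  · -- negDown
    obtain ⟨k, hk, hk'⟩ := hneg2 j hj
    obtain ⟨n, hn0, hn1, hn2⟩ := exists_mono hX hmin hk'
    refine ⟨k, hk, ?_⟩
    have h1 := congrArg L₁ hn2
    rw [L_weight, map_sub, hk, sub_self] at h1
    have h2 : ∀ i, 0 ≤ (n i : ℤ) * L₁ (w i) := by
      intro i
      by_cases hi : n i = 0
      · rw [hi]; simp
      · have h3 : 0 ≤ L₁ (w i) := by
          by_contra h4
          exact hn1 i hi (hz.2.2.1 i (not_le.1 h4))
        positivity
    have h3 := (Finset.sum_eq_zero_iff_of_nonneg fun i _ => h2 i).1 h1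
    have h4 : ∀ i, n i ≠ 0 → 0 < L₂ (w i) := by
      intro i hi
      apply hpos
      have h5 := h3 i (Finset.mem_univ _)
      rcases mul_eq_zero.1 h5 with h6 | h6
      · exact absurd (by exact_mod_cast h6) hi
      · exact h6.le
    have h5 := congrArg L₂ hn2
    rw [L_weight, map_sub] at h5
    obtain ⟨i₀, hi₀⟩ := exists_ne hn0
    have h6 : 0 < ∑ i, (n i : ℤ) * L₂ (w i) := by
      refine Finset.sum_pos' (fun i _ => ?_) ⟨i₀, Finset.mem_univ _, ?_⟩
      · by_cases hi : n i = 0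
        · rw [hi]; simp
        · have := h4 i hi
          positivity
      · have h7 : 0 < n i₀ := Nat.pos_of_ne_zero hi₀
        have := h4 i₀ hi₀
        positivity
    linarith
  · -- row
    have h1 : (fun i => eval z (pderiv i (g j))) ≠ 0 := (hX.smooth z hz.1 hs).ne_zero j
    obtain ⟨k, hk⟩ : ∃ k, eval z (pderiv k (g j)) ≠ 0 := by
      by_contra hcon
      push Not at hcon
      exact h1 (funext hcon)
    have h2 := eval_pderiv_ne_zero (hX.homogeneous j) hz.2.2.1 hk
    obtain ⟨n, hn0, hn1, hn2⟩ := exists_mono hX hmin hk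
    refine ⟨k, by rw [hj] at h2; exact h2, n, fun i hi => ?_, ?_, ?_⟩
    · by_contra h4
      exact hn1 i hi (hz.2.2.1 i (not_le.1 h4))
    · have h3 := congrArg L₁ hn2
      rw [L_weight, map_sub, hj] at h3
      linarith
    · have h3 := congrArg L₂ hn2
      rw [L_weight, map_sub] at h3
      linarith
  · -- ray
    obtain ⟨n, hn0, hn1⟩ := exc_ray hX hF hM j ha hb
    have hw : Finsupp.weight w n = μ j := hX.homogeneous j (mem_support_iff.mp hn0)
    have hne := ne_zero_of_mem hX hn0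
    obtain ⟨i₀, hi₀⟩ := exists_ne hne
    obtain ⟨k, hk, hk'⟩ := Finset.exists_min_image n.support (fun i => L₁ (w i))
      ⟨i₀, Finsupp.mem_support_iff.2 hi₀⟩
    have hnk : n k ≠ 0 := Finsupp.mem_support_iff.1 hk
    obtain ⟨q1, q2, q3⟩ := hn1 k hnk
    refine ⟨k, q1, q2, q3, ?_⟩
    have hsum : L₁ (μ j) = ∑ i, (n i : ℤ) * L₁ (w i) := by rw [← hw, L_weight]
    have h2 : 2 ≤ ∑ i, n i := by
      by_contra hcon
      rw [not_le] at hcon
      have h3 : n k ≤ ∑ i, n i := Finset.single_le_sum (fun _ _ => Nat.zero_le _)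
        (Finset.mem_univ k)
      have h4 : n k = 1 := by omega
      have h5 : n = Finsupp.single k 1 := by
        ext i
        by_cases hi : i = k
        · rw [hi, h4, Finsupp.single_eq_same]
        · rw [Finsupp.single_eq_of_ne hi]
          have h6 : n k + n i ≤ ∑ i, n i := by
            rw [← Finset.sum_pair (Ne.symm hi)]
            exact Finset.sum_le_sum_of_subset (Finset.subset_univ _)
          omega
      rw [h5] at hn0
      exact (mem_support_iff.1 hn0) (hmin j k)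
    have h3 : ((∑ i, n i : ℕ) : ℤ) * L₁ (w k) ≤ L₁ (μ j) := by
      rw [hsum]
      push_cast
      rw [Finset.sum_mul]
      refine Finset.sum_le_sum fun i _ => ?_
      by_cases hi : n i = 0
      · rw [hi]; simp
      · exact mul_le_mul_of_nonneg_left (hk' i (Finsupp.mem_support_iff.2 hi))
          (Int.natCast_nonneg _)
    have h4 : (2 : ℤ) ≤ ((∑ i, n i : ℕ) : ℤ) := by exact_mod_cast h2
    nlinarith

/-- **The exceptional case does not exist.** -/
theorem exc_false (hX : IsFanoCompleteIntersection w μ g) {y₁ y₂ : Fin r → ℂ}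
    (h₁ : IsRay w μ g L₁ y₁) (h₂ : IsRay w μ g L₂ y₂) (hmin : Minimal g)
    (hF : ∀ z, IsZero g z → (∀ k, z k ≠ 0 → 0 < L₁ (w k) ∧ 0 < L₂ (w k)) → z = 0)
    (hpos₁ : ∀ k, L₁ (w k) ≤ 0 → 0 < L₂ (w k)) (hpos₂ : ∀ k, L₂ (w k) ≤ 0 → 0 < L₁ (w k))
    (hfail₁ : ∀ k, L₁ (w k) ≤ L₂ (w k) → 2 ≤ L₂ (w k))
    (hfail₂ : ∀ k, L₂ (w k) ≤ L₁ (w k) → 2 ≤ L₁ (w k))
    (hcard₁ : (Finset.univ.filter fun k => L₁ (w k) = 0).card =
      (Finset.univ.filter fun j => L₁ (μ j) = 0).card + 1)
    (hcard₂ : (Finset.univ.filter fun k => L₂ (w k) = 0).card =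
      (Finset.univ.filter fun j => L₂ (μ j) = 0).card + 1)
    (hnu₁ : ∑ k ∈ Finset.univ.filter (fun k => L₁ (w k) < 0), L₁ (w k) +
        (Finset.univ.filter (fun k => L₁ (w k) < 0)).card =
      ∑ j ∈ Finset.univ.filter (fun j => L₁ (μ j) < 0), L₁ (μ j) +
        (Finset.univ.filter (fun j => L₁ (μ j) < 0)).card)
    (hnu₂ : ∑ k ∈ Finset.univ.filter (fun k => L₂ (w k) < 0), L₂ (w k) +
        (Finset.univ.filter (fun k => L₂ (w k) < 0)).card =
      ∑ j ∈ Finset.univ.filter (fun j => L₂ (μ j) < 0), L₂ (μ j) +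
        (Finset.univ.filter (fun j => L₂ (μ j) < 0)).card)
    (hn₁ : ∀ h : ℕ, 2 ≤ h →
      (Finset.univ.filter fun k => 0 < L₁ (w k) ∧ (h : ℤ) ∣ L₁ (w k)).card =
      (Finset.univ.filter fun j => 0 < L₁ (μ j) ∧ (h : ℤ) ∣ L₁ (μ j)).card)
    (hn₂ : ∀ h : ℕ, 2 ≤ h →
      (Finset.univ.filter fun k => 0 < L₂ (w k) ∧ (h : ℤ) ∣ L₂ (w k)).card =
      (Finset.univ.filter fun j => 0 < L₂ (μ j) ∧ (h : ℤ) ∣ L₂ (μ j)).card)
    (hM : (Finset.univ.filter fun k => 0 < L₁ (w k) ∧ 0 < L₂ (w k)).card =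
      (Finset.univ.filter fun j => 0 < L₁ (μ j) ∧ 0 < L₂ (μ j)).card) : False := by
  have hF' : ∀ z, IsZero g z → (∀ k, z k ≠ 0 → 0 < L₂ (w k) ∧ 0 < L₁ (w k)) → z = 0 :=
    fun z hz h => hF z hz fun k hk => (h k hk).symm
  have hM' : (Finset.univ.filter fun k => 0 < L₂ (w k) ∧ 0 < L₁ (w k)).card =
      (Finset.univ.filter fun j => 0 < L₂ (μ j) ∧ 0 < L₁ (μ j)).card := by
    simp only [and_comm]
    exact hM
  exact (excData hX h₁ hmin hF hpos₁ hfail₁ hcard₁ hnu₁ hn₁ hM).false
    (excData hX h₂ hmin hF' hpos₂ hfail₂ hcard₂ hnu₂ hn₂ hM')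

end Pool.Agent.CIC
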