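import Mathlib

/-!
# Linearly independent vectors have a matching of nonzero entries
-/

namespace Pool.Agent.CIC

/-- Linearly independent rows: there is an injective choice of nonzero entries. -/
theorem exists_matching {ι κ : Type*} [Fintype ι] [Fintype κ] [DecidableEq κ] {k : Type*}
    [Field k] (v : ι → κ → k) (hv : LinearIndependent k v) :
    ∃ f : ι → κ, Function.Injective f ∧ ∀ j, v j (f j) ≠ 0 := by
  classical
  let t : ι → Finset κ := fun j => Finset.univ.filter fun i => v j i ≠ 0
  have key : ∀ s : Finset ι, s.card ≤ (s.biUnion t).card := by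
    intro s
    set T := s.biUnion t with hT
    -- restrict to the columns in `T`
    let π : (κ → k) →ₗ[k] (T → k) := LinearMap.funLeft k k (fun i : T => (i : κ))
    have h0 : ∀ j ∈ s, ∀ i, i ∉ T → v j i = 0 := by
      intro j hj i hi
      by_contra hcon
      apply hi
      rw [hT, Finset.mem_biUnion]
      exact ⟨j, hj, Finset.mem_filter.mpr ⟨Finset.mem_univ i, hcon⟩⟩
    have hli : LinearIndependent k fun j : s => π (v j) := by
      rw [Fintype.linearIndependent_iff]
      intro a ha j
      have hv' : LinearIndependent k fun j : s => v j :=
        hv.comp (fun j : s => (j : ι)) Subtype.val_injective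
      rw [Fintype.linearIndependent_iff] at hv'
      apply hv' a
      ext i
      rw [Finset.sum_apply]
      by_cases hi : i ∈ T
      · have h1 := congrFun ha ⟨i, hi⟩
        rw [Finset.sum_apply] at h1
        exact h1
      · refine Finset.sum_eq_zero fun j _ => ?_
        rw [Pi.smul_apply, h0 j j.2 i hi, smul_zero]
    have h1 := hli.fintype_card_le_finrank
    rw [Module.finrank_fintype_fun_eq_card, Fintype.card_coe, Fintype.card_coe] at h1
    exact h1
  obtain ⟨f, hf, hf'⟩ := (Finset.all_card_le_biUnion_card_iff_exists_injective t).mp key
  exact ⟨f, hf, fun j => (Finset.mem_filter.mp (hf' j)).2⟩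

end Pool.Agent.CIC
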