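import Pool.Agent.CIC.Homog
import Pool.Agent.CIC.Hall
import Pool.Agent.KRL.NonzeroZero

/-!
# Points of the fibre of an extremal ray
-/

open MvPolynomial

namespace Pool.Agent.CIC

variable {ρ r c : ℕ} {w : Fin r → (Fin ρ → ℤ)} {μ : Fin c → (Fin ρ → ℤ)}
  {g : Fin c → MvPolynomial (Fin r) ℂ} {L : (Fin ρ → ℤ) →+ ℤ} {y : Fin r → ℂ}

theorem y_neg (hW : IsRay w μ g L y) (i : Fin r) (hi : L (w i) < 0) : y i = 0 := by
  by_contra h
  rw [hW.supp i h] at hi
  exact lt_irrefl _ hi

theorem y_pos (hW : IsRay w μ g L y) (i : Fin r) (hi : 0 < L (w i)) : y i = 0 := by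
  by_contra h
  rw [hW.supp i h] at hi
  exact lt_irrefl _ hi

/-- Let `Q` be a set of variables with `L > 0`, and `J` a set of fewer than `#Q` equations, such
that a point of `y + ℂ ^ Q` at which the equations in `J` vanish is a zero of all equations with
`L > 0`. Then there is a point of the fibre over `y` in `y + ℂ ^ Q`. -/
theorem exists_point (hX : IsFanoCompleteIntersection w μ g) (hW : IsRay w μ g L y)
    (Q : Finset (Fin r)) (hQ : ∀ k ∈ Q, 0 < L (w k)) (J : Finset (Fin c))
    (hJ : ∀ z : Fin r → ℂ, (∀ i, i ∉ Q → z i = y i) → (∀ j ∈ J, eval z (g j) = 0) →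
      ∀ j, 0 < L (μ j) → eval z (g j) = 0)
    (hcard : J.card < Q.card) :
    ∃ z, InFibre w g L y z ∧ ∀ i, z i ≠ 0 → y i ≠ 0 ∨ i ∈ Q := by
  classical
  -- the restricted equations
  let φ : Fin r → MvPolynomial Q ℂ := fun i => if h : i ∈ Q then X ⟨i, h⟩ else C (y i)
  let e := J.equivFin
  let F : Fin J.card → MvPolynomial Q ℂ := fun a => bind₁ φ (g (e.symm a))
  let pt : (Q → ℂ) → Fin r → ℂ := fun t i => if h : i ∈ Q then t ⟨i, h⟩ else y i
  have heval : ∀ (t : Q → ℂ) (p : MvPolynomial (Fin r) ℂ),
      eval t (bind₁ φ p) = eval (pt t) p := by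
    intro t p
    have h1 : (aeval t : MvPolynomial Q ℂ →ₐ[ℂ] ℂ).comp (bind₁ φ) =
        (aeval (pt t) : MvPolynomial (Fin r) ℂ →ₐ[ℂ] ℂ) := by
      apply MvPolynomial.algHom_ext
      intro i
      rw [AlgHom.comp_apply, bind₁_X_right, aeval_X]
      by_cases hi : i ∈ Q
      · simp [φ, pt, hi]
      · simp [φ, pt, hi]
    have h2 := DFunLike.congr_fun h1 p
    simpa [MvPolynomial.aeval_eq_eval] using h2
  have hpt0 : pt 0 = y := by
    ext i
    by_cases hi : i ∈ Q
    · simp [pt, hi, y_pos hW i (hQ i hi)]
    · simp [pt, hi]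
  obtain ⟨t, ht, ht'⟩ := KRL.exists_ne_zero_of_lt (σ := Q)
    (by rw [Nat.card_eq_fintype_card, Fintype.card_coe]; exact hcard) F 0 (by
      intro a
      show eval 0 (bind₁ φ (g (e.symm a))) = 0
      rw [heval, hpt0]
      exact hW.zero _)
  have hzO : ∀ i, L (w i) = 0 → pt t i = y i := by
    intro i hi
    have : i ∉ Q := fun h => by
      have := hQ i h
      omega
    simp [pt, this]
  have hzN : ∀ i, L (w i) < 0 → pt t i = 0 := by
    intro i hi
    have : i ∉ Q := fun h => by
      have := hQ i h
      omega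
    simp [pt, this, y_neg hW i hi]
  have hsupp : ∀ i, pt t i ≠ 0 → y i ≠ 0 ∨ i ∈ Q := by
    intro i hi
    by_cases h : i ∈ Q
    · exact Or.inr h
    · left
      simpa [pt, h] using hi
  refine ⟨pt t, ⟨?_, hzO, hzN, ?_⟩, hsupp⟩
  · intro j
    rcases lt_trichotomy (L (μ j)) 0 with h | h | h
    · exact eval_neg (hX.homogeneous j) h hzN
    · rw [eval_zero (hX.homogeneous j) h hzN hW.supp hzO]
      exact hW.zero j
    · refine hJ (pt t) (fun i hi => by simp [pt, hi]) (fun j hj => ?_) j h
      have h1 := ht' (e ⟨j, hj⟩)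
      have h2 : F (e ⟨j, hj⟩) = bind₁ φ (g j) := by
        show bind₁ φ (g (e.symm (e ⟨j, hj⟩))) = _
        rw [Equiv.symm_apply_apply]
      rw [h2, heval] at h1
      exact h1
  · obtain ⟨q, hq⟩ : ∃ q, t q ≠ 0 := by
      by_contra hcon
      push Not at hcon
      exact ht (funext hcon)
    refine ⟨q, hQ _ q.2, ?_⟩
    have : pt t q = t q := by simp [pt]
    rw [this]
    exact hq

theorem eval_of_not_active {Q : Finset (Fin r)} {j : Fin c} (h : ¬ Active g y Q j)
    {z : Fin r → ℂ} (hz : ∀ i, i ∉ Q → z i = y i) : eval z (g j) = 0 := by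
  apply eval_eq_zero
  intro n hn
  by_contra hcon
  push Not at hcon
  apply h
  refine ⟨n, hn, fun i hi => ?_⟩
  by_cases hQ : i ∈ Q
  · exact Or.inr hQ
  · left
    rw [← hz i hQ]
    exact hcon i hi

/-- **Linear parts.** Let `Q` be a set of variables with `L(w_k)` a positive multiple of `h`, and
`L(μ_j) = h`. On `y + ℂ ^ Q` the equation `j` is the linear form given by its derivatives
at `y`. -/
theorem eval_linear (hX : IsFanoCompleteIntersection w μ g) (hW : IsRay w μ g L y)
    (Q : Finset (Fin r)) (h : ℕ) (hQ : ∀ k ∈ Q, 0 < L (w k) ∧ (h : ℤ) ∣ L (w k)) (j : Fin c)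
    (hj : L (μ j) = h) (h0 : 0 < h) (z : Fin r → ℂ) (hz : ∀ i, i ∉ Q → z i = y i) :
    eval z (g j) = ∑ k ∈ Q.filter (fun k => L (w k) = h), z k * eval y (pderiv k (g j)) := by
  classical
  have hge : ∀ k ∈ Q, (h : ℤ) ≤ L (w k) := fun k hk =>
    Int.le_of_dvd (hQ k hk).1 (hQ k hk).2
  have hyQ : ∀ k ∈ Q, y k = 0 := fun k hk => y_pos hW k (hQ k hk).1
  have key : ∀ n ∈ (g j).support, ∏ i, z i ^ n i =
      ∑ k ∈ Q.filter (fun k => L (w k) = h),
        z k * ((n k : ℂ) * ∏ i, y i ^ ((n - Finsupp.single k 1 : Fin r →₀ ℕ) i)) := by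
    intro n hn
    have hwt : L (Finsupp.weight w n) = h := by
      rw [hX.homogeneous j (mem_support_iff.mp hn), hj]
    by_cases hs : ∀ i, n i ≠ 0 → y i ≠ 0 ∨ i ∈ Q
    · -- exactly one variable of `Q`
      have h1 : ∑ i, (n i : ℤ) * L (w i) = ∑ k ∈ Q, (n k : ℤ) * L (w k) := by
        symm
        apply Finset.sum_subset (Finset.subset_univ Q)
        intro i _ hi
        by_cases h : n i = 0
        · rw [h]; simp
        · rcases hs i h with h4 | h4
          · rw [hW.supp i h4, mul_zero]
          · exact absurd h4 hi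
      rw [L_weight, h1] at hwt
      obtain ⟨k, hk, hnk⟩ : ∃ k ∈ Q, n k ≠ 0 := by
        by_contra hcon
        push Not at hcon
        rw [Finset.sum_eq_zero fun k hk => by rw [hcon k hk]; simp] at hwt
        omega
      rw [← Finset.add_sum_erase Q _ hk] at hwt
      have h2 : ∀ i ∈ Q.erase k, 0 ≤ (n i : ℤ) * L (w i) := fun i hi => by
        have := (hQ i (Finset.mem_of_mem_erase hi)).1
        positivity
      have h3 : (h : ℤ) * n k ≤ n k * L (w k) := by
        have := hge k hk
        nlinarith
      have h4 := Finset.sum_nonneg h2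
      have h5 : (1 : ℤ) ≤ n k := by
        have := Nat.pos_of_ne_zero hnk
        exact_mod_cast this
      have h6 : (n k : ℤ) = 1 := by
        have h7 : (0 : ℤ) < h := by exact_mod_cast h0
        nlinarith
      have h8 : L (w k) = h := by
        rw [h6] at hwt h3
        have := hge k hk
        omega
      have h9 : ∑ i ∈ Q.erase k, (n i : ℤ) * L (w i) = 0 := by
        rw [h6, h8] at hwt
        omega
      have h10 : ∀ i ∈ Q.erase k, n i = 0 := by
        intro i hi
        have h11 := (Finset.sum_eq_zero_iff_of_nonneg h2).mp h9 i hi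
        have h12 := (hQ i (Finset.mem_of_mem_erase hi)).1
        rcases mul_eq_zero.mp h11 with h13 | h13
        · exact_mod_cast h13
        · omega
      have hnk1 : n k = 1 := by exact_mod_cast h6
      rw [Finset.sum_eq_single k]
      · rw [hnk1, Nat.cast_one, one_mul, ← Finset.mul_prod_erase Finset.univ _
          (Finset.mem_univ k), hnk1, pow_one]
        congr 1
        rw [← Finset.mul_prod_erase Finset.univ
          (fun i => y i ^ ((n - Finsupp.single k 1 : Fin r →₀ ℕ) i)) (Finset.mem_univ k)]
        have e1 : (n - Finsupp.single k 1 : Fin r →₀ ℕ) k = 0 := by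
          rw [Finsupp.tsub_apply, Finsupp.single_eq_same, hnk1]
        rw [e1, pow_zero, one_mul]
        refine Finset.prod_congr rfl fun i hi => ?_
        have hik : i ≠ k := Finset.ne_of_mem_erase hi
        have e2 : (n - Finsupp.single k 1 : Fin r →₀ ℕ) i = n i := by
          rw [Finsupp.tsub_apply, Finsupp.single_eq_of_ne hik, Nat.sub_zero]
        rw [e2]
        by_cases hiQ : i ∈ Q
        · rw [h10 i (Finset.mem_erase.mpr ⟨hik, hiQ⟩), pow_zero, pow_zero]
        · rw [hz i hiQ]
      · intro i hi hik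
        rw [h10 i (Finset.mem_erase.mpr ⟨hik, (Finset.mem_filter.mp hi).1⟩)]
        simp
      · intro hk'
        exact absurd (Finset.mem_filter.mpr ⟨hk, h8⟩) hk'
    · push Not at hs
      obtain ⟨i, hi, hyi, hiQ⟩ := hs
      rw [Finset.prod_eq_zero (f := fun i => z i ^ n i) (Finset.mem_univ i)
        (by rw [hz i hiQ, hyi, zero_pow hi])]
      symm
      refine Finset.sum_eq_zero fun k hk => ?_
      have hik : i ≠ k := fun h => hiQ (h ▸ (Finset.mem_filter.mp hk).1)
      rw [Finset.prod_eq_zero (f := fun i => y i ^ ((n - Finsupp.single k 1 : Fin r →₀ ℕ) i))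
        (Finset.mem_univ i), mul_zero, mul_zero]
      rw [Finsupp.tsub_apply, Finsupp.single_eq_of_ne hik, Nat.sub_zero, hyi, zero_pow hi]
  have hd : ∀ k, eval y (pderiv k (g j)) =
      ∑ n ∈ (g j).support, coeff n (g j) *
        ((n k : ℂ) * ∏ i, y i ^ ((n - Finsupp.single k 1 : Fin r →₀ ℕ) i)) := by
    intro k
    conv_lhs => rw [(g j).as_sum]
    rw [map_sum, map_sum]
    refine Finset.sum_congr rfl fun n _ => ?_
    rw [pderiv_monomial, eval_monomial, Finsupp.prod_fintype _ _ (fun i => pow_zero _)]
    ring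
  rw [eval_eq']
  calc ∑ n ∈ (g j).support, coeff n (g j) * ∏ i, z i ^ n i
      = ∑ n ∈ (g j).support, ∑ k ∈ Q.filter (fun k => L (w k) = h),
          z k * (coeff n (g j) *
            ((n k : ℂ) * ∏ i, y i ^ ((n - Finsupp.single k 1 : Fin r →₀ ℕ) i))) := by
        refine Finset.sum_congr rfl fun n hn => ?_
        rw [key n hn, Finset.mul_sum]
        refine Finset.sum_congr rfl fun k _ => ?_
        ring
    _ = _ := by
        rw [Finset.sum_comm]
        refine Finset.sum_congr rfl fun k _ => ?_
        rw [hd k, Finset.mul_sum]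

/-- No point of the fibre over `y` has its support in the variables with `L(w_k)` divisible by
`h ≥ 2`. -/
theorem not_inFibre_dvd (hX : IsFanoCompleteIntersection w μ g) (hW : IsRay w μ g L y) (h : ℕ)
    (hh : 2 ≤ h) (z : Fin r → ℂ) (hz : InFibre w g L y z)
    (hz' : ∀ i, z i ≠ 0 → (h : ℤ) ∣ L (w i)) : False := by
  have h3 := hX.free z hz.1 (hW.semistable z hz)
  obtain ⟨x, hx⟩ := hW.surj 1
  have h4 : ∀ v ∈ Submodule.span ℤ (w '' {i | z i ≠ 0}), (h : ℤ) ∣ L v := by
    intro v hv
    induction hv using Submodule.span_induction with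
    | mem x hx =>
      obtain ⟨i, hi, rfl⟩ := hx
      exact hz' i hi
    | zero => rw [map_zero]; exact dvd_zero _
    | add x y _ _ hx hy => rw [map_add]; exact dvd_add hx hy
    | smul a x _ hx => rw [map_zsmul, smul_eq_mul]; exact Dvd.dvd.mul_left hx a
  have h5 := h4 x (by rw [h3]; trivial)
  rw [hx] at h5
  have := Int.le_of_dvd one_pos h5
  omega

/-- **Freeness.** Let `h ≥ 2` and let `R` be a set of equations such that the linear parts at `y`
of the equations with `L(μ_j) = h` are combinations of those in `R`. There are at least as many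
equations with `L(μ_j)` a multiple of `h` and either `L(μ_j) > h` or `j ∈ R` as variables with
`L(w_k)` a positive multiple of `h`. -/
theorem card_dvd (hX : IsFanoCompleteIntersection w μ g) (hW : IsRay w μ g L y) (h : ℕ)
    (hh : 2 ≤ h) (R : Finset (Fin c))
    (hR' : ∀ j, L (μ j) = h → (fun k : {k // L (w k) = h} => eval y (pderiv k.1 (g j))) ∈
      Submodule.span ℂ ((fun j (k : {k // L (w k) = h}) => eval y (pderiv k.1 (g j))) ''
        (R : Set (Fin c)))) :
    (Finset.univ.filter fun k => 0 < L (w k) ∧ (h : ℤ) ∣ L (w k)).card ≤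
      (Finset.univ.filter fun j => h < L (μ j) ∧ (h : ℤ) ∣ L (μ j)).card +
        (R.filter fun j => L (μ j) = h).card := by
  classical
  by_contra hcon
  rw [not_le] at hcon
  set Q := Finset.univ.filter fun k => 0 < L (w k) ∧ (h : ℤ) ∣ L (w k) with hQ
  have hQ' : ∀ k ∈ Q, 0 < L (w k) ∧ (h : ℤ) ∣ L (w k) := fun k hk => (Finset.mem_filter.mp hk).2
  set J := (Finset.univ.filter fun j => h < L (μ j) ∧ (h : ℤ) ∣ L (μ j)) ∪
    R.filter fun j => L (μ j) = h with hJ
  have hJcard : J.card < Q.card := by
    have h1 := Finset.card_union_le (Finset.univ.filter fun j => h < L (μ j) ∧ (h : ℤ) ∣ L (μ j))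
      (R.filter fun j => L (μ j) = h)
    rw [hJ]
    omega
  obtain ⟨z, hz, hz'⟩ := exists_point hX hW Q (fun k hk => (hQ' k hk).1) J (by
    intro z hzy hzJ j hj
    by_cases hdvd : (h : ℤ) ∣ L (μ j)
    · by_cases hlt : h < L (μ j)
      · exact hzJ j (Finset.mem_union_left _ (Finset.mem_filter.mpr
          ⟨Finset.mem_univ _, hlt, hdvd⟩))
      · have hjh : L (μ j) = h := by
          have := Int.le_of_dvd hj hdvd
          omega
        -- the linear functional
        let ev : ({k // L (w k) = h} → ℂ) →ₗ[ℂ] ℂ :=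
          ∑ k : {k // L (w k) = h}, z k.1 • LinearMap.proj k
        have hev : ∀ j', L (μ j') = h → eval z (g j') =
            ev (fun k : {k // L (w k) = h} => eval y (pderiv k.1 (g j'))) := by
          intro j' hj'
          rw [eval_linear hX hW Q h hQ' j' hj' (by omega) z hzy]
          have e1 : Q.filter (fun k => L (w k) = h) =
              Finset.univ.filter fun k => L (w k) = h := by
            ext k
            constructor
            · intro h1
              exact Finset.mem_filter.mpr ⟨Finset.mem_univ _, (Finset.mem_filter.mp h1).2⟩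
            · intro h2
              have h1 := (Finset.mem_filter.mp h2).2
              refine Finset.mem_filter.mpr
                ⟨Finset.mem_filter.mpr ⟨Finset.mem_univ _, ?_, ?_⟩, h1⟩
              · rw [h1]; exact_mod_cast (by omega : 0 < h)
              · rw [h1]
          rw [e1, LinearMap.sum_apply]
          rw [Finset.sum_subtype (Finset.univ.filter fun k => L (w k) = h)
            (p := fun k => L (w k) = h) (fun k => by simp)
            (fun k => z k * eval y (pderiv k (g j')))]
          rfl
        rw [hev j hjh]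
        have h1 := hR' j hjh
        have h2 : ∀ v ∈ Submodule.span ℂ ((fun j (k : {k // L (w k) = h}) =>
            eval y (pderiv k.1 (g j))) '' (R : Set (Fin c))), ev v = 0 := by
          intro v hv
          induction hv using Submodule.span_induction with
          | mem x hx =>
            obtain ⟨j', hj', rfl⟩ := hx
            by_cases hjj : L (μ j') = h
            · rw [← hev j' hjj]
              exact hzJ j' (Finset.mem_union_right _ (Finset.mem_filter.mpr ⟨hj', hjj⟩))
            · have h3 : (fun k : {k // L (w k) = h} => eval y (pderiv k.1 (g j'))) = 0 := by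
                funext k
                rw [Pi.zero_apply]
                by_contra hne
                obtain ⟨n, hn, hn'⟩ := exists_of_eval_ne_zero hne
                have h4 : L (Finsupp.weight w n) = 0 := by
                  rw [L_weight]
                  refine Finset.sum_eq_zero fun i _ => ?_
                  by_cases hi : n i = 0
                  · rw [hi]; simp
                  · rw [hW.supp i (hn' i hi), mul_zero]
                rw [weight_of_mem_support_pderiv (hX.homogeneous j') k.1 hn, map_sub,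
                  k.2] at h4
                exact hjj (by omega)
              show ev (fun k : {k // L (w k) = h} => eval y (pderiv k.1 (g j'))) = 0
              rw [h3, map_zero]
          | zero => rw [map_zero]
          | add x y _ _ hx hy => rw [map_add, hx, hy, add_zero]
          | smul a x _ hx => rw [map_smul, hx, smul_zero]
        exact h2 _ h1
    · apply eval_of_not_active (Q := Q) _ hzy
      rintro ⟨n, hn, hn'⟩
      apply hdvd
      have h3 : Finsupp.weight w n = μ j := hX.homogeneous j (mem_support_iff.mp hn)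
      rw [← h3, L_weight]
      refine Finset.dvd_sum fun i _ => ?_
      by_cases hi : n i = 0
      · rw [hi]; simp
      · rcases hn' i hi with h4 | h4
        · rw [hW.supp i h4, mul_zero]; exact dvd_zero _
        · exact Dvd.dvd.mul_left (hQ' i h4).2 _) hJcard
  refine not_inFibre_dvd hX hW h hh z hz ?_
  intro i hi
  rcases hz' i hi with h4 | h4
  · rw [hW.supp i h4]; exact dvd_zero _
  · exact (hQ' i h4).2

/-- `L(κ) > 0`. -/
theorem L_kappa_pos (hX : IsFanoCompleteIntersection w μ g) (hW : IsRay w μ g L y) :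
    0 < L (anticanonical w μ) := by
  classical
  obtain ⟨z, hz⟩ := hW.fibre
  obtain ⟨m, hm, n, hn, hn'⟩ := hW.semistable z hz
  have h1 : 0 ≤ L (Finsupp.weight w n) := L_nonneg hz.2.2.1 hn'
  by_contra hcon
  have h2 : L (Finsupp.weight w n) = 0 := by
    rw [hn, map_nsmul, nsmul_eq_mul] at h1 ⊢
    have h3 : (0 : ℤ) < m := by exact_mod_cast hm
    have h4 : L (anticanonical w μ) = 0 := by
      by_contra h
      have h5 : L (anticanonical w μ) < 0 := lt_of_le_of_ne (not_lt.mp hcon) h
      nlinarith
    rw [h4, mul_zero]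
  have h3 : ∀ i, n i ≠ 0 → y i ≠ 0 := by
    intro i hi
    have hzi := hn' i hi
    have h4 : ¬ L (w i) < 0 := fun h => hzi (hz.2.2.1 i h)
    have h5 : ¬ 0 < L (w i) := fun h => by
      have := L_pos hz.2.2.1 hn' hi h
      omega
    have h6 : L (w i) = 0 := by omega
    rwa [← hz.2.1 i h6]
  have h4 := hX.free y hW.zero ⟨m, hm, n, hn, h3⟩
  obtain ⟨x, hx⟩ := hW.surj 1
  have h5 : ∀ v ∈ Submodule.span ℤ (w '' {i | y i ≠ 0}), L v = 0 := by
    intro v hv
    induction hv using Submodule.span_induction with
    | mem x hx =>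
      obtain ⟨i, hi, rfl⟩ := hx
      exact hW.supp i hi
    | zero => rw [map_zero]
    | add x y _ _ hx hy => rw [map_add, hx, hy, add_zero]
    | smul a x _ hx => rw [map_zsmul, hx, smul_zero]
  have h6 := h5 x (by rw [h4]; trivial)
  omega

/-- **Smoothness.** The sum of the `L(μ_j)` with `L > 0` plus `L(κ)` is at most the sum of the
`L(w_k)` with `L > 0`. -/
theorem sum_ineq (hX : IsFanoCompleteIntersection w μ g) (hW : IsRay w μ g L y) :
    L (anticanonical w μ) + ∑ j ∈ Finset.univ.filter (fun j => 0 < L (μ j)), L (μ j) ≤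
      ∑ k ∈ Finset.univ.filter (fun k => 0 < L (w k)), L (w k) := by
  classical
  obtain ⟨z, hz⟩ := hW.fibre
  have hlin := hX.smooth z hz.1 (hW.semistable z hz)
  have hlin' : LinearIndependent ℂ fun (j : {j : Fin c // L (μ j) < 0}) (i : Fin r) =>
      eval z (pderiv i (g j)) := hlin.comp (fun j : {j : Fin c // L (μ j) < 0} => (j : Fin c))
        Subtype.val_injective
  obtain ⟨f, hf, hf'⟩ := exists_matching _ hlin'
  have h1 : ∀ j : {j : Fin c // L (μ j) < 0}, L (w (f j)) ≤ L (μ j) := fun j =>
    eval_pderiv_ne_zero (hX.homogeneous j) hz.2.2.1 (hf' j)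
  have h2 : ∑ k ∈ Finset.univ.filter (fun k => L (w k) < 0), L (w k) ≤
      ∑ j ∈ Finset.univ.filter (fun j => L (μ j) < 0), L (μ j) := by
    have e1 : ∑ j ∈ Finset.univ.filter (fun j => L (μ j) < 0), L (μ j) =
        ∑ j : {j : Fin c // L (μ j) < 0}, L (μ j) := by
      rw [← Finset.sum_subtype (Finset.univ.filter (fun j => L (μ j) < 0))
        (fun j => by simp) (fun j => L (μ j))]
    rw [e1]
    calc ∑ k ∈ Finset.univ.filter (fun k => L (w k) < 0), L (w k)
        ≤ ∑ k ∈ Finset.univ.image f, L (w k) := by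
          have hsub : Finset.univ.image f ⊆ Finset.univ.filter (fun k => L (w k) < 0) := by
            intro k hk
            obtain ⟨j, -, rfl⟩ := Finset.mem_image.mp hk
            rw [Finset.mem_filter]
            exact ⟨Finset.mem_univ _, (h1 j).trans_lt j.2⟩
          rw [← Finset.sum_sdiff hsub]
          have : ∑ k ∈ Finset.univ.filter (fun k => L (w k) < 0) \ Finset.univ.image f,
              L (w k) ≤ 0 := Finset.sum_nonpos fun k hk => by
            rw [Finset.mem_sdiff, Finset.mem_filter] at hk
            exact hk.1.2.le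
          linarith
      _ = ∑ j, L (w (f j)) := Finset.sum_image fun a _ b _ h => hf h
      _ ≤ ∑ j : {j : Fin c // L (μ j) < 0}, L (μ j) := Finset.sum_le_sum fun j _ => h1 j
  have split : ∀ {m : ℕ} (F : Fin m → ℤ), ∑ i, F i =
      ∑ i ∈ Finset.univ.filter (fun i => 0 < F i), F i +
        ∑ i ∈ Finset.univ.filter (fun i => F i < 0), F i := by
    intro m F
    rw [← Finset.sum_filter_add_sum_filter_not Finset.univ (fun i => 0 < F i)]
    congr 1
    symm
    apply Finset.sum_subset_zero_on_sdiff
    · intro i hi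
      rw [Finset.mem_filter] at hi ⊢
      exact ⟨hi.1, by omega⟩
    · intro i hi
      rw [Finset.mem_sdiff, Finset.mem_filter, Finset.mem_filter] at hi
      have h3 : ¬ F i < 0 := fun h => hi.2 ⟨Finset.mem_univ _, h⟩
      omega
    · intro _ _
      rfl
  have h3 : L (anticanonical w μ) = ∑ k, L (w k) - ∑ j, L (μ j) := by
    rw [anticanonical, map_sub, map_sum, map_sum]
  rw [h3, split (fun k => L (w k)), split (fun j => L (μ j))]
  linarith

end Pool.Agent.CIC
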