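import Pool.Agent.CIC.Defs

/-!
# Values of homogeneous polynomials at points of a wall
-/

open MvPolynomial

namespace Pool.Agent.CIC

variable {ρ r c : ℕ}

/-- A polynomial vanishes at `z` if each of its monomials contains a variable which vanishes. -/
theorem eval_eq_zero (g : MvPolynomial (Fin r) ℂ) (z : Fin r → ℂ)
    (h : ∀ n ∈ g.support, ∃ i, n i ≠ 0 ∧ z i = 0) : eval z g = 0 := by
  rw [eval_eq']
  refine Finset.sum_eq_zero fun n hn => ?_
  obtain ⟨i, hi, hz⟩ := h n hn
  rw [Finset.prod_eq_zero (Finset.mem_univ i), mul_zero]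
  rw [hz, zero_pow hi]

/-- If `g` does not vanish at `z`, then it has a monomial supported in the support of `z`. -/
theorem exists_of_eval_ne_zero {g : MvPolynomial (Fin r) ℂ} {z : Fin r → ℂ}
    (h : eval z g ≠ 0) : ∃ n ∈ g.support, ∀ i, n i ≠ 0 → z i ≠ 0 := by
  by_contra hcon
  push Not at hcon
  exact h (eval_eq_zero g z fun n hn => hcon n hn)

theorem weight_eq (w : Fin r → (Fin ρ → ℤ)) (n : Fin r →₀ ℕ) :
    Finsupp.weight w n = ∑ i, n i • w i := by
  rw [Finsupp.weight_apply]
  exact Finsupp.sum_fintype _ _ (fun i => zero_smul _ _)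

theorem L_weight (w : Fin r → (Fin ρ → ℤ)) (L : (Fin ρ → ℤ) →+ ℤ) (n : Fin r →₀ ℕ) :
    L (Finsupp.weight w n) = ∑ i, (n i : ℤ) * L (w i) := by
  rw [weight_eq, map_sum]
  refine Finset.sum_congr rfl fun i _ => ?_
  rw [map_nsmul, nsmul_eq_mul]

/-- Derivatives of homogeneous polynomials. -/
theorem weight_of_mem_support_pderiv {w : Fin r → (Fin ρ → ℤ)} {μ : Fin ρ → ℤ}
    {g : MvPolynomial (Fin r) ℂ} (hg : IsWeightedHomogeneous w g μ) (i : Fin r)
    {n : Fin r →₀ ℕ} (hn : n ∈ (pderiv i g).support) : Finsupp.weight w n = μ - w i := by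
  classical
  have h1 : n + Finsupp.single i 1 ∈ g.support := by
    rw [mem_support_iff] at hn ⊢
    intro h
    apply hn
    rw [coeff_pderiv, h, zero_mul]
  have h2 : Finsupp.weight w (n + Finsupp.single i 1) = μ := hg (mem_support_iff.mp h1)
  rw [map_add, Finsupp.weight_single, one_smul] at h2
  rw [← h2, add_sub_cancel_right]

variable {w : Fin r → (Fin ρ → ℤ)} {L : (Fin ρ → ℤ) →+ ℤ} {z : Fin r → ℂ}

/-- If `z` has no coordinates with `L < 0` and a monomial is supported in the support of `z`, then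
the degree of this monomial is nonnegative. -/
theorem L_nonneg (hz : ∀ i, L (w i) < 0 → z i = 0) {n : Fin r →₀ ℕ}
    (hn : ∀ i, n i ≠ 0 → z i ≠ 0) : 0 ≤ L (Finsupp.weight w n) := by
  rw [L_weight]
  refine Finset.sum_nonneg fun i _ => ?_
  by_cases h : n i = 0
  · rw [h]; simp
  · have h1 := hn i h
    have h2 : 0 ≤ L (w i) := by
      by_contra hcon
      exact h1 (hz i (not_le.mp hcon))
    positivity

theorem L_pos (hz : ∀ i, L (w i) < 0 → z i = 0) {n : Fin r →₀ ℕ}
    (hn : ∀ i, n i ≠ 0 → z i ≠ 0) {i : Fin r} (hi : n i ≠ 0) (hL : 0 < L (w i)) :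
    0 < L (Finsupp.weight w n) := by
  rw [L_weight]
  refine Finset.sum_pos' (fun j _ => ?_) ⟨i, Finset.mem_univ i, ?_⟩
  · by_cases h : n j = 0
    · rw [h]; simp
    · have h1 := hn j h
      have h2 : 0 ≤ L (w j) := by
        by_contra hcon
        exact h1 (hz j (not_le.mp hcon))
      positivity
  · have : 0 < n i := Nat.pos_of_ne_zero hi
    positivity

/-- A homogeneous polynomial of negative degree vanishes at `z`. -/
theorem eval_neg {μ : Fin ρ → ℤ} {g : MvPolynomial (Fin r) ℂ}
    (hg : IsWeightedHomogeneous w g μ) (hμ : L μ < 0) (hz : ∀ i, L (w i) < 0 → z i = 0) :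
    eval z g = 0 := by
  by_contra h
  obtain ⟨n, hn, hn'⟩ := exists_of_eval_ne_zero h
  have h1 := L_nonneg hz hn'
  have h2 : Finsupp.weight w n = μ := hg (mem_support_iff.mp hn)
  rw [h2] at h1
  omega

/-- A homogeneous polynomial of degree zero depends only on the coordinates with `L = 0`. -/
theorem eval_zero {μ : Fin ρ → ℤ} {g : MvPolynomial (Fin r) ℂ} {y : Fin r → ℂ}
    (hg : IsWeightedHomogeneous w g μ) (hμ : L μ = 0) (hz : ∀ i, L (w i) < 0 → z i = 0)
    (hy : ∀ i, y i ≠ 0 → L (w i) = 0) (hzy : ∀ i, L (w i) = 0 → z i = y i) :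
    eval z g = eval y g := by
  rw [eval_eq', eval_eq']
  refine Finset.sum_congr rfl fun n hn => ?_
  congr 1
  by_cases h : ∀ i, n i ≠ 0 → L (w i) = 0
  · refine Finset.prod_congr rfl fun i _ => ?_
    by_cases hi : n i = 0
    · rw [hi, pow_zero, pow_zero]
    · rw [hzy i (h i hi)]
  · push Not at h
    obtain ⟨i, hi, hLi⟩ := h
    have hyi : y i = 0 := by
      by_contra hcon
      exact hLi (hy i hcon)
    rw [Finset.prod_eq_zero (f := fun i => y i ^ n i) (Finset.mem_univ i)
      (by rw [hyi, zero_pow hi])]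
    have hneg : ∃ j, n j ≠ 0 ∧ L (w j) < 0 := by
      by_contra hcon
      push Not at hcon
      have h2 : Finsupp.weight w n = μ := hg (mem_support_iff.mp hn)
      have h3 : 0 < L (Finsupp.weight w n) := by
        rw [L_weight]
        refine Finset.sum_pos' (fun j _ => ?_) ⟨i, Finset.mem_univ i, ?_⟩
        · by_cases h : n j = 0
          · rw [h]; simp
          · have := hcon j h
            positivity
        · have h4 : 0 < n i := Nat.pos_of_ne_zero hi
          have h5 : 0 < L (w i) := lt_of_le_of_ne (hcon i hi) (Ne.symm hLi)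
          positivity
      rw [h2, hμ] at h3
      exact lt_irrefl _ h3
    obtain ⟨j, hj, hLj⟩ := hneg
    rw [Finset.prod_eq_zero (f := fun i => z i ^ n i) (Finset.mem_univ j)
      (by rw [hz j hLj, zero_pow hj])]

/-- Derivatives in the direction of a variable with `L ≥ 0` of an equation with `L < 0`. -/
theorem eval_pderiv_ne_zero {μ : Fin ρ → ℤ} {g : MvPolynomial (Fin r) ℂ}
    (hg : IsWeightedHomogeneous w g μ) (hz : ∀ i, L (w i) < 0 → z i = 0) {i : Fin r}
    (h : eval z (pderiv i g) ≠ 0) : L (w i) ≤ L μ := by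
  obtain ⟨n, hn, hn'⟩ := exists_of_eval_ne_zero h
  have h1 := L_nonneg hz hn'
  rw [weight_of_mem_support_pderiv hg i hn, map_sub] at h1
  omega

end Pool.Agent.CIC
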