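import Pool.Agent.CIC.PicTwo

/-!
# Main theorem: an extremal ray with few blocking equations
-/

open scoped ENNReal NNReal
open MvPolynomial

namespace Pool.Agent.CIC

variable {ρ r c : ℕ} {w : Fin r → (Fin ρ → ℤ)} {μ : Fin c → (Fin ρ → ℤ)}
  {g : Fin c → MvPolynomial (Fin r) ℂ} {L : (Fin ρ → ℤ) →+ ℤ} {y : Fin r → ℂ}

theorem Active.mono {Q Q' : Finset (Fin r)} (h : Q ⊆ Q') {j : Fin c} (hj : Active g y Q j) :
    Active g y Q' j := by
  obtain ⟨n, hn, hn'⟩ := hj
  exact ⟨n, hn, fun i hi => (hn' i hi).imp id fun h' => h h'⟩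

/-- If `κ` is in the cone of `y` and the variables of degree one, or if there are few active
equations, then `α(X) ≤ min (a + 1, ρ - 1) / ℓ`. -/
theorem main (hX : IsFanoCompleteIntersection w μ g) [hp : (relations g).IsPrime]
    (hW : IsRay w μ g L y)
    (h : InCone w ({i | y i ≠ 0} ∪ degreeOne w L) (anticanonical w μ) ∨
      ((activeEqs w μ g L y).card : ℤ) + linearRank w g L y <
        fibreDegree w μ L + (positive μ L).card ∨
      (positive μ L).card < L (anticanonical w μ)) :
    0 < L (anticanonical w μ) ∧ alpha w (anticanonical w μ) g ≤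
      (min ((activeEqs w μ g L y).card + 1) (rankBound ρ y) : ℕ) /
        ((L (anticanonical w μ)).toNat : ℝ≥0∞) := by
  classical
  refine ⟨L_kappa_pos hX hW, ?_⟩
  have key : ∀ Q ⊆ degreeOne w L, InCone w ({i | y i ≠ 0} ∪ Q) (anticanonical w μ) →
      Q.card ≤ (activeEqs w μ g L y).card + 1 → alpha w (anticanonical w μ) g ≤
      (min ((activeEqs w μ g L y).card + 1) (rankBound ρ y) : ℕ) /
        ((L (anticanonical w μ)).toNat : ℝ≥0∞) := by
    intro Q hQ hcone hcard
    refine (alpha_le' hX hW Q (fun k hk => (Finset.mem_filter.mp (hQ hk)).2) hcone).trans ?_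
    gcongr
    exact Finset.card_image_le.trans hcard
  by_cases hM : (activeEqs w μ g L y).card + 1 ≤ (degreeOne w L).card
  · obtain ⟨Q, hQ, hQcard⟩ := Finset.exists_subset_card_eq hM
    refine key Q hQ ?_ hQcard.le
    refine inCone_of_lt hX hW Q (fun k hk => ?_) (activeEqs w μ g L y) (fun j hj hj' => ?_)
      (by omega)
    · have := (Finset.mem_filter.mp (hQ hk)).2
      omega
    · exact Finset.mem_filter.mpr ⟨Finset.mem_univ _, hj, hj'.mono hQ⟩
  · have hcount := count hX hW
    have hrank := linearRank_le hX hW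
    have hact : (activeEqs w μ g L y).card ≤ (positive μ L).card :=
      Finset.card_le_card fun j hj => Finset.mem_filter.mpr
        ⟨Finset.mem_univ _, (Finset.mem_filter.mp hj).2.1⟩
    rcases h with h | h | h
    · exact key _ subset_rfl h (by omega)
    · exfalso
      omega
    · exfalso
      omega

end Pool.Agent.CIC
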