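import Pool.Agent.CIC.Alpha

/-!
# Picard number two
-/

open scoped ENNReal NNReal
open MvPolynomial

namespace Pool.Agent.CIC

variable {r c : ℕ} {w : Fin r → (Fin 2 → ℤ)} {μ : Fin c → (Fin 2 → ℤ)}
  {g : Fin c → MvPolynomial (Fin r) ℂ} {L₁ L₂ : (Fin 2 → ℤ) →+ ℤ} {y₁ y₂ : Fin r → ℂ}

/-- Coordinates in the plane. -/
theorem plane (L₁ L₂ : (Fin 2 → ℤ) →+ ℤ) (a₁ a₂ : Fin 2 → ℤ) (h11 : L₁ a₁ = 0)
    (h22 : L₂ a₂ = 0) (h12 : 0 < L₁ a₂) (h21 : 0 < L₂ a₁) (x : Fin 2 → ℤ) :
    (L₂ a₁ * L₁ a₂) • x = (L₁ a₂ * L₂ x) • a₁ + (L₂ a₁ * L₁ x) • a₂ := by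
  set v := (L₂ a₁ * L₁ a₂) • x - ((L₁ a₂ * L₂ x) • a₁ + (L₂ a₁ * L₁ x) • a₂) with hv
  have e1 : L₁ v = 0 := by
    rw [hv, map_sub, map_add, map_zsmul, map_zsmul, map_zsmul, h11]
    simp only [smul_eq_mul]
    ring
  have e2 : L₂ v = 0 := by
    rw [hv, map_sub, map_add, map_zsmul, map_zsmul, map_zsmul, h22]
    simp only [smul_eq_mul]
    ring
  have hv0 : v = 0 := by
    obtain ⟨a, ha, -, i, -, hi⟩ := exists_relation ![a₁, a₂, v] Finset.univ (by simp)
    rw [Fin.sum_univ_three] at ha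
    simp only [Matrix.cons_val_zero, Matrix.cons_val_one, Matrix.cons_val_two,
      Matrix.head_cons, Matrix.tail_cons] at ha
    have f1 := congrArg L₁ ha
    have f2 := congrArg L₂ ha
    rw [map_add, map_add, map_zsmul, map_zsmul, map_zsmul, h11, e1, map_zero] at f1
    rw [map_add, map_add, map_zsmul, map_zsmul, map_zsmul, h22, e2, map_zero] at f2
    simp only [smul_eq_mul, mul_zero, zero_add, add_zero] at f1 f2
    have g1 : a 1 = 0 := by
      rcases mul_eq_zero.mp f1 with h | h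
      · exact h
      · omega
    have g0 : a 0 = 0 := by
      rcases mul_eq_zero.mp f2 with h | h
      · exact h
      · omega
    rw [g0, g1, zero_smul, zero_smul, zero_add, zero_add] at ha
    rcases smul_eq_zero.mp ha with h | h
    · exfalso
      apply hi
      fin_cases i
      · exact g0
      · exact g1
      · exact h
    · exact h
  rw [hv0] at hv
  exact (sub_eq_zero.mp hv.symm)

theorem degree_pos (hX : IsFanoCompleteIntersection w μ g) {h : (Fin 2 → ℤ) →+ ℤ}
    (hh : ∀ i, 0 < h (w i)) (j : Fin c) : 0 < h (μ j) := by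
  obtain ⟨z, hz, hz'⟩ := hX.nonempty
  have h1 : g j ≠ 0 := by
    intro h0
    have h2 := (hX.smooth z hz hz').ne_zero j
    apply h2
    funext i
    rw [h0, map_zero, map_zero, Pi.zero_apply]
  obtain ⟨n, hn⟩ := support_nonempty.mpr h1
  have hn0 : n ≠ 0 := by
    rintro rfl
    have h2 : eval (0 : Fin r → ℂ) (g j) = 0 := isZero_zero hX j
    rw [MvPolynomial.eval_zero, constantCoeff_eq] at h2
    exact (mem_support_iff.mp hn) h2
  obtain ⟨i, hi⟩ : ∃ i, n i ≠ 0 := by
    by_contra hcon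
    push Not at hcon
    exact hn0 (Finsupp.ext hcon)
  have h3 : Finsupp.weight w n = μ j := hX.homogeneous j (mem_support_iff.mp hn)
  rw [← h3, L_weight]
  refine Finset.sum_pos' (fun k _ => ?_) ⟨i, Finset.mem_univ i, ?_⟩
  · have := hh k
    positivity
  · have h4 : 0 < n i := Nat.pos_of_ne_zero hi
    have := hh i
    positivity

/-- If `κ` is not in the cone of `y` and the variables of degree one, then there are at least as
many blocking equations as variables of degree one. -/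
theorem card_blocking (hX : IsFanoCompleteIntersection w μ g) {L : (Fin 2 → ℤ) →+ ℤ}
    {y : Fin r → ℂ} (hW : IsRay w μ g L y)
    (h : ¬ InCone w ({i | y i ≠ 0} ∪ degreeOne w L) (anticanonical w μ)) :
    (degreeOne w L).card ≤ (activeEqs w μ g L y).card := by
  classical
  by_contra hcon
  apply h
  refine inCone_of_lt hX hW (degreeOne w L) (fun k hk => ?_) (activeEqs w μ g L y)
    (fun j hj hj' => ?_) (not_le.mp hcon)
  · have := (Finset.mem_filter.mp hk).2
    omega
  · exact Finset.mem_filter.mpr ⟨Finset.mem_univ _, hj, hj'⟩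

/-- The blocking equations of the second ray are on the side of the second ray. -/
theorem side (hX : IsFanoCompleteIntersection w μ g) (h₁ : IsRay w μ g L₁ y₁)
    (h₂ : IsRay w μ g L₂ y₂) (hy₁ : ∃ i, y₁ i ≠ 0 ∧ 0 < L₂ (w i))
    (hy₂ : ∃ i, y₂ i ≠ 0 ∧ 0 < L₁ (w i))
    (hcone : ¬ InCone w ({i | y₂ i ≠ 0} ∪ degreeOne w L₂) (anticanonical w μ)) (j : Fin c)
    (hj : j ∈ activeEqs w μ g L₂ y₂) :
    L₁ (anticanonical w μ) * L₂ (μ j) < L₂ (anticanonical w μ) * L₁ (μ j) := by
  classical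
  obtain ⟨i₁, hi₁, hp⟩ := hy₁
  obtain ⟨i₂, hi₂, hq⟩ := hy₂
  obtain ⟨h, hh⟩ := hX.pointed
  have hpl := plane L₁ L₂ (w i₁) (w i₂) (h₁.supp i₁ hi₁) (h₂.supp i₂ hi₂) hq hp
  set p := L₂ (w i₁) with hpdef
  set q := L₁ (w i₂) with hqdef
  set κ := anticanonical w μ with hκ
  have hl₁ : 0 < L₁ κ := L_kappa_pos hX h₁
  have hl₂ : 0 < L₂ κ := L_kappa_pos hX h₂
  -- variables which do not vanish at `y₂`
  have hS : ∀ i, y₂ i ≠ 0 → 0 < L₁ (w i) := by
    intro i hi
    have e1 := hpl (w i)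
    rw [h₂.supp i hi, mul_zero, zero_smul, zero_add] at e1
    have e2 := congrArg h e1
    rw [map_zsmul, map_zsmul, smul_eq_mul, smul_eq_mul] at e2
    have h1 := hh i
    have h2 := hh i₂
    have h3 : 0 < p * q * h (w i) := by positivity
    rw [e2] at h3
    by_contra hcon
    have h4 : p * L₁ (w i) * h (w i₂) ≤ 0 := by
      apply mul_nonpos_of_nonpos_of_nonneg _ h2.le
      exact mul_nonpos_of_nonneg_of_nonpos hp.le (not_lt.mp hcon)
    omega
  -- variables of degree one
  have hM : ∀ k, L₂ (w k) = 1 → L₁ κ < L₂ κ * L₁ (w k) := by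
    intro k hk
    by_contra hcon
    rw [not_lt] at hcon
    apply hcone
    -- `κ = ℓ₂ w_k + s w_{i₂}`
    have e1 := hpl κ
    have e2 := hpl (w k)
    rw [hk, mul_one] at e2
    have e3 : (p * q) • κ = (p * q * L₂ κ) • w k + (p * (L₁ κ - L₂ κ * L₁ (w k))) • w i₂ := by
      have e4 : (p * q * L₂ κ) • w k = L₂ κ • (q • w i₁ + (p * L₁ (w k)) • w i₂) := by
        rw [← e2, smul_smul]
        congr 1
        ring
      rw [e1, e4, smul_add, smul_smul, smul_smul, add_assoc, ← add_smul]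
      congr 2
      · ring
      · ring
    refine ⟨(p * q).toNat, by have := mul_pos hp hq; omega,
      Finsupp.single k (p * q * L₂ κ).toNat +
        Finsupp.single i₂ (p * (L₁ κ - L₂ κ * L₁ (w k))).toNat, ?_, ?_⟩
    · rw [map_add, Finsupp.weight_single, Finsupp.weight_single, ← natCast_zsmul,
        ← natCast_zsmul, ← natCast_zsmul, Int.toNat_of_nonneg (mul_pos hp hq).le,
        Int.toNat_of_nonneg (by positivity), Int.toNat_of_nonneg
          (mul_nonneg hp.le (by omega)), e3]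
    · intro i hi
      rw [Finsupp.add_apply, Finsupp.single_apply, Finsupp.single_apply] at hi
      by_cases h1 : k = i
      · right
        rw [← h1]
        exact Finset.mem_filter.mpr ⟨Finset.mem_univ _, hk⟩
      · by_cases h2 : i₂ = i
        · left
          rw [← h2]
          exact hi₂
        · simp [h1, h2] at hi
  obtain ⟨-, hjpos, n, hn, hn'⟩ := Finset.mem_filter.mp hj
  have hwt : Finsupp.weight w n = μ j := hX.homogeneous j (mem_support_iff.mp hn)
  rw [← hwt] at hjpos ⊢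
  rw [L_weight] at hjpos
  rw [L_weight, L_weight, Finset.mul_sum, Finset.mul_sum]
  have hterm : ∀ i, n i ≠ 0 → L₁ κ * (n i * L₂ (w i)) < L₂ κ * (n i * L₁ (w i)) := by
    intro i hi
    have hni : (0 : ℤ) < n i := by
      have := Nat.pos_of_ne_zero hi
      exact_mod_cast this
    rcases hn' i hi with h4 | h4
    · rw [h₂.supp i h4]
      have := hS i h4
      have h5 : 0 < L₂ κ * (n i * L₁ (w i)) := by positivity
      simpa using h5
    · have h5 : L₂ (w i) = 1 := (Finset.mem_filter.mp h4).2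
      have h6 := hM i h5
      rw [h5]
      nlinarith
  obtain ⟨i, hi⟩ : ∃ i, n i ≠ 0 := by
    by_contra hcon
    push Not at hcon
    rw [Finset.sum_eq_zero fun i _ => by rw [hcon i]; simp] at hjpos
    exact lt_irrefl _ hjpos
  refine Finset.sum_lt_sum (fun k _ => ?_) ⟨i, Finset.mem_univ i, hterm i hi⟩
  by_cases hk : n k = 0
  · rw [hk]; simp
  · exact (hterm k hk).le

/-- **Picard number two.** -/
theorem alpha_le_one_two (hX : IsFanoCompleteIntersection w μ g) [hp : (relations g).IsPrime]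
    (h₁ : IsRay w μ g L₁ y₁) (h₂ : IsRay w μ g L₂ y₂)
    (hκ : InCone w ({i | y₁ i ≠ 0} ∪ {i | y₂ i ≠ 0}) (anticanonical w μ))
    (hr : (positive μ L₁ ∩ positive μ L₂).card < (degreeOne w L₁).card + (degreeOne w L₂).card ∨
      (linearRank w g L₁ y₁ : ℤ) + linearRank w g L₂ y₂ <
        c + fibreDegree w μ L₁ + fibreDegree w μ L₂ ∨
      (c : ℤ) < L₁ (anticanonical w μ) + L₂ (anticanonical w μ)) :
    alpha w (anticanonical w μ) g ≤ 1 := by
  classical
  set κ := anticanonical w μ with hκdef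
  have hl₁ : 0 < L₁ κ := L_kappa_pos hX h₁
  have hl₂ : 0 < L₂ κ := L_kappa_pos hX h₂
  obtain ⟨m, hm, n, hn, hn'⟩ := hκ
  have hm' : (0 : ℤ) < m := by exact_mod_cast hm
  -- the two rays are different
  have hy₂ : ∃ i, y₂ i ≠ 0 ∧ 0 < L₁ (w i) := by
    by_contra hcon
    push Not at hcon
    have e1 := congrArg L₁ hn
    rw [L_weight, map_nsmul, nsmul_eq_mul] at e1
    have e2 : ∑ i, (n i : ℤ) * L₁ (w i) ≤ 0 := by
      refine Finset.sum_nonpos fun i _ => ?_
      by_cases hi : n i = 0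
      · rw [hi]; simp
      · rcases hn' i hi with h4 | h4
        · rw [h₁.supp i h4, mul_zero]
        · exact mul_nonpos_of_nonneg_of_nonpos (by positivity) (hcon i h4)
    rw [e1] at e2
    have := mul_pos hm' hl₁
    omega
  have hy₁ : ∃ i, y₁ i ≠ 0 ∧ 0 < L₂ (w i) := by
    by_contra hcon
    push Not at hcon
    have e1 := congrArg L₂ hn
    rw [L_weight, map_nsmul, nsmul_eq_mul] at e1
    have e2 : ∑ i, (n i : ℤ) * L₂ (w i) ≤ 0 := by
      refine Finset.sum_nonpos fun i _ => ?_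
      by_cases hi : n i = 0
      · rw [hi]; simp
      · rcases hn' i hi with h4 | h4
        · exact mul_nonpos_of_nonneg_of_nonpos (by positivity) (hcon i h4)
        · rw [h₂.supp i h4, mul_zero]
    rw [e1] at e2
    have := mul_pos hm' hl₂
    omega
  -- if `κ` is in one of the cones, then the bound holds
  have done : ∀ (L : (Fin 2 → ℤ) →+ ℤ) (y : Fin r → ℂ), IsRay w μ g L y → (∃ i, y i ≠ 0) →
      InCone w ({i | y i ≠ 0} ∪ degreeOne w L) κ → alpha w κ g ≤ 1 := by
    intro L y hW hy hcone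
    refine (alpha_le' hX hW (degreeOne w L) (fun k hk => (Finset.mem_filter.mp hk).2)
      hcone).trans ?_
    have hy0 : y ≠ 0 := by
      rintro rfl
      obtain ⟨i, hi⟩ := hy
      exact hi rfl
    have hb : rankBound 2 y = 1 := by
      unfold rankBound
      rw [if_neg hy0]
    rw [hb]
    have hl : 0 < L κ := L_kappa_pos hX hW
    have h1 : (1 : ℝ≥0∞) ≤ ((L κ).toNat : ℝ≥0∞) := by
      have : 1 ≤ (L κ).toNat := by omega
      exact_mod_cast this
    refine ENNReal.div_le_of_le_mul ?_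
    rw [one_mul]
    refine le_trans ?_ h1
    have : min (Finset.image w (degreeOne w L)).card 1 ≤ 1 := min_le_right _ _
    exact_mod_cast this
  by_contra hα
  have hc₁ : ¬ InCone w ({i | y₁ i ≠ 0} ∪ degreeOne w L₁) κ := fun h =>
    hα (done L₁ y₁ h₁ (by obtain ⟨i, hi, -⟩ := hy₁; exact ⟨i, hi⟩) h)
  have hc₂ : ¬ InCone w ({i | y₂ i ≠ 0} ∪ degreeOne w L₂) κ := fun h =>
    hα (done L₂ y₂ h₂ (by obtain ⟨i, hi, -⟩ := hy₂; exact ⟨i, hi⟩) h)
  have hs₂ := side hX h₁ h₂ hy₁ hy₂ hc₂
  have hs₁ := side hX h₂ h₁ hy₂ hy₁ hc₁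
  have hb₁ := card_blocking hX h₁ hc₁
  have hb₂ := card_blocking hX h₂ hc₂
  have hk₁ := count hX h₁
  have hk₂ := count hX h₂
  rw [← hκdef] at hk₁ hk₂
  have hv := Finset.card_le_univ (positive μ L₁ ∩ positive μ L₂)
  rw [Fintype.card_fin] at hv
  have hr₁ := linearRank_le hX h₁
  have hr₂ := linearRank_le hX h₂
  -- all equations are positive on one of the rays
  have hunion : positive μ L₁ ∪ positive μ L₂ = Finset.univ := by
    rw [Finset.eq_univ_iff_forall]
    intro j
    by_contra hcon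
    rw [Finset.mem_union, positive, positive, Finset.mem_filter, Finset.mem_filter] at hcon
    push Not at hcon
    have h1 : L₁ (μ j) ≤ 0 := not_lt.mp (by simpa using hcon.1)
    have h2 : L₂ (μ j) ≤ 0 := not_lt.mp (by simpa using hcon.2)
    obtain ⟨h, hh⟩ := hX.pointed
    obtain ⟨i₁, hi₁, hp'⟩ := hy₁
    obtain ⟨i₂, hi₂, hq'⟩ := hy₂
    have hpl := plane L₁ L₂ (w i₁) (w i₂) (h₁.supp i₁ hi₁) (h₂.supp i₂ hi₂) hq' hp' (μ j)
    have e1 := congrArg h hpl
    rw [map_add, map_zsmul, map_zsmul, map_zsmul] at e1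
    simp only [smul_eq_mul] at e1
    have h3 := degree_pos hX hh j
    have h4 := hh i₁
    have h5 := hh i₂
    have h6 : 0 < L₂ (w i₁) * L₁ (w i₂) * h (μ j) := by positivity
    have h7 : L₁ (w i₂) * L₂ (μ j) * h (w i₁) ≤ 0 :=
      mul_nonpos_of_nonpos_of_nonneg (mul_nonpos_of_nonneg_of_nonpos hq'.le h2) h4.le
    have h8 : L₂ (w i₁) * L₁ (μ j) * h (w i₂) ≤ 0 :=
      mul_nonpos_of_nonpos_of_nonneg (mul_nonpos_of_nonneg_of_nonpos hp'.le h1) h5.le
    omega
  -- the blocking equations are disjoint and positive on both rays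
  have hdisj : Disjoint (activeEqs w μ g L₁ y₁) (activeEqs w μ g L₂ y₂) := by
    rw [Finset.disjoint_left]
    intro j hj₁ hj₂
    have h1 := hs₁ j hj₁
    have h2 := hs₂ j hj₂
    exact absurd h1 (not_lt.mpr h2.le)
  have hsub : activeEqs w μ g L₁ y₁ ∪ activeEqs w μ g L₂ y₂ ⊆
      positive μ L₁ ∩ positive μ L₂ := by
    intro j hj
    rw [Finset.mem_inter]
    rcases Finset.mem_union.mp hj with hj | hj
    · have h1 := hs₁ j hj
      rw [← hκdef] at h1
      have h2 : 0 < L₁ (μ j) := (Finset.mem_filter.mp hj).2.1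
      have h3 : 0 < L₂ κ * L₁ (μ j) := by positivity
      have h4 : 0 < L₂ (μ j) := by
        by_contra hcon
        have := mul_nonpos_of_nonneg_of_nonpos hl₁.le (not_lt.mp hcon)
        omega
      exact ⟨Finset.mem_filter.mpr ⟨Finset.mem_univ _, h2⟩,
        Finset.mem_filter.mpr ⟨Finset.mem_univ _, h4⟩⟩
    · have h1 := hs₂ j hj
      rw [← hκdef] at h1
      have h2 : 0 < L₂ (μ j) := (Finset.mem_filter.mp hj).2.1
      have h3 : 0 < L₁ κ * L₂ (μ j) := by positivity
      have h4 : 0 < L₁ (μ j) := by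
        by_contra hcon
        have := mul_nonpos_of_nonneg_of_nonpos hl₂.le (not_lt.mp hcon)
        omega
      exact ⟨Finset.mem_filter.mpr ⟨Finset.mem_univ _, h4⟩,
        Finset.mem_filter.mpr ⟨Finset.mem_univ _, h2⟩⟩
  have hcard := Finset.card_le_card hsub
  rw [Finset.card_union_of_disjoint hdisj] at hcard
  have hie := Finset.card_union_add_card_inter (positive μ L₁) (positive μ L₂)
  rw [hunion, Finset.card_univ, Fintype.card_fin] at hie
  omega

end Pool.Agent.CIC
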